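import Mathlib.LinearAlgebra.FreeModule.PID
import Mathlib.RingTheory.Flat.TorsionFree
import Mathlib.Algebra.Order.Ring.Star
import Mathlib.LinearAlgebra.Eigenspace.Matrix
import Mathlib.RingTheory.PicardGroup
import Mathlib.Algebra.Order.Star.Real
import Mathlib.Analysis.Complex.Polynomial.Basic
import Mathlib.Analysis.CStarAlgebra.Classes
import Mathlib.Analysis.Matrix.Normed
import Mathlib.LinearAlgebra.Matrix.Charpoly.Eigs
import Mathlib.RingTheory.PiTensorProduct
import Mathlib.RingTheory.SimpleRing.Principal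
import Mathlib.Topology.UrysohnsLemma
import Mathlib.MeasureTheory.Group.Integral
import Mathlib.Topology.Compactness.Paracompact
import Mathlib.Analysis.Convex.Integral
import Mathlib.MeasureTheory.Function.L2Space
import Mathlib.MeasureTheory.Function.LpSpace.DomAct.Continuous
import Mathlib.Order.CompletePartialOrder

-- ======== part 0: formerly Pool.Agent.MP_45783b_al.Mat
section MrgPart0

/-!
Power bounded complex matrices.
-/

set_option autoImplicit false

namespace Pool.Agent.MP_45783b_al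

open Matrix Polynomial

/-- Square complex matrices. -/
abbrev Mat (n : ℕ) : Type := Matrix (Fin n) (Fin n) ℂ

variable {n : ℕ}

/-- All orbits under the nonnegative powers are bounded. -/
def PowBdd (T : Mat n) : Prop := ∀ v : Fin n → ℂ, ∃ C : ℝ, ∀ k : ℕ, ‖(T ^ k) *ᵥ v‖ ≤ C

theorem powBdd_of_compact {G : Type} [Group G] [TopologicalSpace G] (ρ : G →* Mat n)
    (hρ : Continuous ρ) {K : Subgroup G} (hK : IsCompact (K : Set G)) {x : G} (hx : x ∈ K) :
    PowBdd (ρ x) := by
  intro v
  have hc : Continuous (fun g : G => ρ g *ᵥ v) := hρ.matrix_mulVec continuous_const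
  obtain ⟨C, hC⟩ := (hK.image hc).isBounded.exists_norm_le
  exact ⟨C, fun k => hC _ ⟨x ^ k, K.pow_mem hx k, by simp⟩⟩

theorem pow_mulVec_eig {T : Mat n} {v : Fin n → ℂ} {c : ℂ} (h : T *ᵥ v = c • v) (k : ℕ) :
    (T ^ k) *ᵥ v = c ^ k • v := by
  induction k with
  | zero => simp
  | succ k ih => rw [pow_succ, ← mulVec_mulVec, h, mulVec_smul, ih, smul_smul, pow_succ']

theorem PowBdd.eig_le_one {T : Mat n} (hT : PowBdd T) {v : Fin n → ℂ} {c : ℂ}
    (h : T *ᵥ v = c • v) (hv : v ≠ 0) : ‖c‖ ≤ 1 := by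
  by_contra hc
  obtain ⟨C, hC⟩ := hT v
  have hv' : 0 < ‖v‖ := norm_pos_iff.2 hv
  obtain ⟨k, hk⟩ := pow_unbounded_of_one_lt (C / ‖v‖) (not_le.1 hc)
  have := hC k
  rw [pow_mulVec_eig h, norm_smul, norm_pow] at this
  rw [div_lt_iff₀ hv'] at hk
  linarith

theorem PowBdd.unip_step {T : Mat n} (hT : PowBdd T) {w : Fin n → ℂ}
    (h : (T - 1) *ᵥ ((T - 1) *ᵥ w) = 0) : (T - 1) *ᵥ w = 0 := by
  set u := (T - 1) *ᵥ w with hu
  have h1 : T *ᵥ u = u := by
    rw [sub_mulVec, one_mulVec, sub_eq_zero] at h; exact h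
  have h2 : T *ᵥ w = w + u := by rw [hu, sub_mulVec, one_mulVec]; abel
  have h3 : ∀ k : ℕ, (T ^ k) *ᵥ w = w + (k : ℂ) • u := by
    intro k
    induction k with
    | zero => simp
    | succ k ih =>
      rw [pow_succ', ← mulVec_mulVec, ih, mulVec_add, mulVec_smul, h1, h2]
      push_cast
      rw [add_smul, one_smul]; abel
  by_contra hne
  have hu' : 0 < ‖u‖ := norm_pos_iff.2 hne
  obtain ⟨C, hC⟩ := hT w
  obtain ⟨k, hk⟩ := exists_nat_gt ((C + ‖w‖) / ‖u‖)
  have h4 := hC k
  rw [h3] at h4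
  have h5 : ‖(k : ℂ) • u‖ ≤ ‖w + (k : ℂ) • u‖ + ‖w‖ := by
    simpa using norm_sub_le (w + (k : ℂ) • u) w
  rw [norm_smul, Complex.norm_natCast] at h5
  rw [div_lt_iff₀ hu'] at hk
  linarith

theorem PowBdd.eq_one_of_unip {T : Mat n} (hT : PowBdd T) (m : ℕ) (h : (T - 1) ^ m = 0) :
    T = 1 := by
  have key : ∀ m : ℕ, ∀ w, ((T - 1) ^ (m + 1)) *ᵥ w = 0 → (T - 1) *ᵥ w = 0 := by
    intro m
    induction m with
    | zero => intro w hw; simpa using hw
    | succ m ih =>
      intro w hw
      rw [pow_succ, ← mulVec_mulVec] at hw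
      exact hT.unip_step (ih _ hw)
  rw [← sub_eq_zero]
  refine Matrix.ext_iff_mulVec.2 (fun w => ?_)
  rw [zero_mulVec]
  refine key m w ?_
  rw [pow_succ', h, mul_zero, zero_mulVec]

theorem exists_eigvec_of_root {T : Mat n} {c : ℂ} (h : c ∈ T.charpoly.roots) :
    ∃ v : Fin n → ℂ, v ≠ 0 ∧ T *ᵥ v = c • v := by
  have h1 : c ∈ spectrum ℂ T :=
    Matrix.mem_spectrum_iff_isRoot_charpoly.2 (Polynomial.isRoot_of_mem_roots h)
  rw [← Matrix.spectrum_toLin', ← Module.End.hasEigenvalue_iff_mem_spectrum] at h1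
  obtain ⟨v, hv⟩ := h1.exists_hasEigenvector
  exact ⟨v, hv.2, by simpa using hv.apply_eq_smul⟩

theorem card_roots_charpoly (T : Mat n) : Multiset.card T.charpoly.roots = n := by
  rw [← (IsAlgClosed.splits T.charpoly).natDegree_eq_card_roots, Matrix.charpoly_natDegree_eq_dim,
    Fintype.card_fin]

theorem PowBdd.eq_one_of_roots {T : Mat n} (hT : PowBdd T) (h : ∀ c ∈ T.charpoly.roots, c = 1) :
    T = 1 := by
  have h1 : T.charpoly.roots = Multiset.replicate n 1 :=
    Multiset.eq_replicate.2 ⟨card_roots_charpoly T, h⟩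
  have h2 := (IsAlgClosed.splits T.charpoly).eq_prod_roots_of_monic T.charpoly_monic
  rw [h1, Multiset.map_replicate, Multiset.prod_replicate] at h2
  have h3 := Matrix.aeval_self_charpoly T
  rw [h2] at h3
  simp only [map_pow, map_sub, aeval_X, map_one] at h3
  exact hT.eq_one_of_unip n h3

theorem re_sum_le (s : Multiset ℂ) (h : ∀ c ∈ s, ‖c‖ ≤ 1) :
    s.sum.re ≤ Multiset.card s ∧ (s.sum.re = Multiset.card s → ∀ c ∈ s, c = 1) := by
  induction s using Multiset.induction_on with
  | empty => simp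
  | cons a s ih =>
    obtain ⟨h1, h2⟩ := ih (fun c hc => h c (Multiset.mem_cons_of_mem hc))
    have ha := h a (Multiset.mem_cons_self _ _)
    have hre := (Complex.re_le_norm a).trans ha
    simp only [Multiset.sum_cons, Complex.add_re, Multiset.card_cons, Nat.cast_add, Nat.cast_one]
    refine ⟨by linarith, fun he c hc => ?_⟩
    rcases Multiset.mem_cons.1 hc with rfl | hc
    · have h3 : c.re = 1 := by linarith
      have h4 := Complex.sq_norm c
      rw [Complex.normSq_apply, h3] at h4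
      have h5 : c.im = 0 := by nlinarith [norm_nonneg c, mul_self_nonneg c.im]
      exact Complex.ext h3 h5
    · exact h2 (by linarith) c hc

theorem PowBdd.root_le_one {T : Mat n} (hT : PowBdd T) : ∀ c ∈ T.charpoly.roots, ‖c‖ ≤ 1 := by
  intro c hc
  obtain ⟨v, hv, h⟩ := exists_eigvec_of_root hc
  exact hT.eig_le_one h hv

theorem PowBdd.trace_re {T : Mat n} (hT : PowBdd T) :
    T.trace.re ≤ n ∧ (T.trace.re = n → T = 1) := by
  obtain ⟨h1, h2⟩ := re_sum_le _ hT.root_le_one
  rw [card_roots_charpoly, ← Matrix.trace_eq_sum_roots_charpoly] at h1 h2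
  exact ⟨h1, fun h => hT.eq_one_of_roots (h2 h)⟩

theorem eq_one_of_pow_close {A : Type} [NormedRing A] [NormedAlgebra ℂ A] {T : A}
    (h : ∀ k : ℕ, ‖T ^ k - 1‖ < 1 / 2) : T = 1 := by
  have key : ∀ j : ℕ, ∀ k : ℕ, ‖T ^ k - 1‖ ≤ (2 / 3) ^ j * (1 / 2) := by
    intro j
    induction j with
    | zero => intro k; simpa using (h k).le
    | succ j ih =>
      intro k
      have h1 := ih (k + k)
      have h2 := h k
      set S := T ^ k - 1 with hS
      have e : S + S = (T ^ (k + k) - 1) - S * S := by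
        rw [pow_add, hS]; noncomm_ring
      have h3 : ‖S + S‖ ≤ ‖T ^ (k + k) - 1‖ + ‖S‖ * ‖S‖ := by
        rw [e]; exact (norm_sub_le _ _).trans (add_le_add le_rfl (norm_mul_le _ _))
      rw [← two_smul ℂ S, norm_smul, Complex.norm_ofNat] at h3
      have h4 := norm_nonneg S
      rw [pow_succ]
      nlinarith
  have h0 : ‖T ^ 1 - 1‖ ≤ 0 := by
    refine ge_of_tendsto' (f := fun j : ℕ => (2 / 3 : ℝ) ^ j * (1 / 2)) (x := Filter.atTop) ?_
      (fun j => key j 1)
    simpa using (tendsto_pow_atTop_nhds_zero_of_lt_one (r := (2 / 3 : ℝ)) (by norm_num)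
      (by norm_num)).mul_const (1 / 2 : ℝ)
  rwa [pow_one, norm_le_zero_iff, sub_eq_zero] at h0

open scoped Matrix.Norms.Operator in
theorem matrix_nss (n : ℕ) : ∃ B : Set (Mat n), IsOpen B ∧ (1 : Mat n) ∈ B ∧
    ∀ T : Mat n, (∀ k : ℕ, T ^ k ∈ B) → T = 1 :=
  ⟨{T | ‖T - 1‖ < 1 / 2}, isOpen_lt (by fun_prop) continuous_const, by simp,
    fun _ h => eq_one_of_pow_close h⟩

/-- A strongly continuous real representation of finite dimension gives a continuous complex
matrix representation with the same kernel. -/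
theorem exists_matrix_rep {G F : Type} [Group G] [TopologicalSpace G] [NormedAddCommGroup F]
    [NormedSpace ℝ F] [FiniteDimensional ℝ F] (π : G →* (F →ₗ[ℝ] F))
    (hπ : ∀ v, Continuous (fun g => π g v)) :
    ∃ (n : ℕ) (ρ : G →* Mat n), Continuous ρ ∧ ∀ g, ρ g = 1 ↔ π g = 1 := by
  let b := Module.finBasis ℝ F
  let e := LinearMap.toMatrixAlgEquiv b
  let f : Matrix (Fin (Module.finrank ℝ F)) (Fin (Module.finrank ℝ F)) ℝ →+* Mat _ :=
    Complex.ofRealHom.mapMatrix
  have hf : Function.Injective f := Matrix.map_injective Complex.ofReal_injective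
  refine ⟨_, (f.toMonoidHom.comp e.toMonoidHom).comp π, ?_, fun g => ?_⟩
  · refine continuous_matrix (fun i j => ?_)
    have : Continuous (fun g => b.repr (π g (b j)) i) :=
      (LinearMap.continuous_of_finiteDimensional (b.coord i)).comp (hπ (b j))
    refine (Complex.continuous_ofReal.comp this).congr (fun g => ?_)
    simp [f, e, LinearMap.toMatrixAlgEquiv_apply]
  · show f (e (π g)) = 1 ↔ _
    rw [← map_one f, hf.eq_iff, ← map_one e, e.injective.eq_iff]

end Pool.Agent.MP_45783b_al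

end MrgPart0

-- ======== part 1: formerly Pool.Agent.MP_45783b_al.PW
section MrgPart1

/-!
A weak form of the Peter-Weyl theorem: finite dimensional representations of a compact group
separate points.
-/

set_option autoImplicit false

namespace Pool.Agent.MP_45783b_al

open MeasureTheory InnerProductSpace Module.End

theorem exists_fd_of_hilbert {H E : Type} [Group H] [TopologicalSpace H] [IsTopologicalGroup H]
    [CompactSpace H] [T2Space H] [NormedAddCommGroup E] [InnerProductSpace ℝ E] [CompleteSpace E]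
    (π : H →* (E →ₗ[ℝ] E)) (hn : ∀ h x, ‖π h x‖ = ‖x‖) (hc : ∀ x, Continuous (fun h => π h x))
    {g : H} {ξ : E} (hξ : π g ξ ≠ ξ) :
    ∃ (n : ℕ) (ρ : H →* Mat n), Continuous ρ ∧ ρ g ≠ 1 := by
  borelize H
  let μ : Measure H := Measure.haarMeasure ⊤
  have hμ : IsProbabilityMeasure μ := ⟨by simpa using Measure.haarMeasure_self (K₀ := (⊤ : TopologicalSpace.PositiveCompacts H))⟩
  have hin : ∀ h x y, inner ℝ (π h x) (π h y) = inner ℝ x y := fun h =>
    (LinearMap.norm_map_iff_inner_map_map (π h)).1 (hn h)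
  have hmul : ∀ h k x, π h (π k x) = π (h * k) x := fun h k x => by simp
  have hinv : ∀ h x y, inner ℝ (π h⁻¹ x) y = inner ℝ x (π h y) := fun h x y => by
    rw [← hin h, hmul]; simp
  let R : H → (E →L[ℝ] E) := fun h => rankOne ℝ (π h ξ) (π h ξ)
  have hR : Continuous R := by
    have := hc ξ
    exact ((rankOne ℝ (E := E) (F := E)).continuous.comp this).clm_apply this
  have hRi : Integrable R μ := hR.integrable_of_hasCompactSupport (HasCompactSupport.of_compactSpace _)
  let T : E →L[ℝ] E := ∫ h, R h ∂μ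
  have hT : ∀ x, T x = ∫ h, inner ℝ (π h ξ) x • π h ξ ∂μ := fun x =>
    ContinuousLinearMap.integral_apply hRi x
  have hint : ∀ x, Integrable (fun h => inner ℝ (π h ξ) x • π h ξ) μ := fun x =>
    (((hc ξ).inner continuous_const).smul (hc ξ)).integrable_of_hasCompactSupport
      (HasCompactSupport.of_compactSpace _)
  have hTi : ∀ x y, inner ℝ y (T x) = ∫ h, inner ℝ (π h ξ) x * inner ℝ (π h ξ) y ∂μ := by
    intro x y
    rw [hT, ← integral_inner (hint x)]
    refine integral_congr_ae (Filter.Eventually.of_forall fun h => ?_)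
    simp only [inner_smul_right]
    rw [real_inner_comm (π h ξ) y]
  have hsym : T.IsSymmetric := by
    intro x y
    change inner ℝ (T x) y = inner ℝ x (T y)
    rw [real_inner_comm, hTi, hTi]
    simp only [mul_comm]
  have hcomp : IsCompactOperator T := by
    refine Convex.integral_mem (s := {f : E →L[ℝ] E | IsCompactOperator f}) ?_
      isClosed_setOfPred_isCompactOperator (Filter.Eventually.of_forall fun h => ?_) hRi
    · exact (compactOperator (RingHom.id ℝ) E E).convex
    · change IsCompactOperator (R h)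
      have h1 : IsCompactOperator (innerSL ℝ (π h ξ)) :=
        isCompactOperator_of_locallyCompactSpace_dom _
      exact h1.clm_comp (ContinuousLinearMap.toSpanSingleton ℝ (π h ξ))
  have hcomm : ∀ k x, π k (T x) = T (π k x) := by
    intro k x
    let L : E →ₗᵢ[ℝ] E := ⟨π k, hn k⟩
    have h1 : π k (T x) = ∫ h, inner ℝ (π h ξ) x • π (k * h) ξ ∂μ := by
      rw [hT]
      change L _ = _
      rw [← L.integral_comp_comm]
      refine integral_congr_ae (Filter.Eventually.of_forall fun h => ?_)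
      simp only [map_smul, ← hmul]
      rfl
    rw [h1, hT, ← integral_mul_left_eq_self (fun h => inner ℝ (π h ξ) (π k x) • π h ξ) k]
    refine integral_congr_ae (Filter.Eventually.of_forall fun h => ?_)
    simp only [← hmul k h ξ, hin]
  have hker : ∀ x, T x = 0 → ∀ h, inner ℝ (π h ξ) x = 0 := by
    intro x hx h
    by_contra hne
    have h1 := hTi x x
    rw [hx, inner_zero_right] at h1
    have hcc : Continuous (fun h => inner ℝ (π h ξ) x) := (hc ξ).inner continuous_const
    have h2 := (hcc.mul hcc).integral_pos_of_hasCompactSupport_nonneg_nonzero (μ := μ)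
      (HasCompactSupport.of_compactSpace _) (fun h => mul_self_nonneg _) (x := h)
      (mul_self_ne_zero.2 hne)
    exact h2.ne h1
  by_contra hcon
  push Not at hcon
  have hfix : ∀ c : ℝ, c ≠ 0 → ∀ x ∈ eigenspace (T : Module.End ℝ E) c, π g x = x := by
    intro c hc0 x hx
    have := T.finite_dimensional_eigenspace hcomp c hc0
    have hinvt : ∀ k, ∀ y ∈ eigenspace (T : Module.End ℝ E) c,
        π k y ∈ eigenspace (T : Module.End ℝ E) c := by
      intro k y hy
      rw [mem_eigenspace_iff] at hy ⊢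
      change T _ = _ at hy ⊢
      rw [← hcomm, hy, map_smul]
    let π' : H →* (eigenspace (T : Module.End ℝ E) c →ₗ[ℝ] eigenspace (T : Module.End ℝ E) c) :=
      { toFun := fun k => (π k).restrict (hinvt k)
        map_one' := by ext y; simp
        map_mul' := fun a b => by ext y; simp }
    obtain ⟨n, ρ, hρ, hρ'⟩ := exists_matrix_rep π' (fun v => (hc v).subtype_mk _)
    have h1 := (hρ' g).1 (hcon n ρ hρ)
    exact congrArg Subtype.val (LinearMap.congr_fun h1 ⟨x, hx⟩)
  have hη : π g⁻¹ ξ - ξ ∈ (⨆ c, eigenspace (T : Module.End ℝ E) c)ᗮ := by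
    rw [← Submodule.iInf_orthogonal, Submodule.mem_iInf]
    intro c
    rw [Submodule.mem_orthogonal']
    intro x hx
    rw [inner_sub_left]
    by_cases hc0 : c = 0
    · rw [hc0, mem_eigenspace_iff, zero_smul] at hx
      have h1 := hker x hx 1
      rw [map_one] at h1
      rw [hker x hx g⁻¹, zero_sub, neg_eq_zero]
      exact h1
    · rw [hinv, hfix c hc0 x hx, sub_self]
  rw [T.orthogonalComplement_iSup_eigenspaces_eq_bot hcomp hsym, Submodule.mem_bot,
    sub_eq_zero] at hη
  apply hξ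
  conv_lhs => rw [← hη]
  rw [hmul]; simp

theorem peterWeyl {H : Type} [Group H] [TopologicalSpace H] [IsTopologicalGroup H]
    [CompactSpace H] [T2Space H] {g : H} (hg : g ≠ 1) :
    ∃ (n : ℕ) (ρ : H →* Mat n), Continuous ρ ∧ ρ g ≠ 1 := by
  borelize H
  let μ : Measure H := Measure.haarMeasure ⊤
  let j : H →* Hᵈᵐᵃ :=
    { toFun := fun h => DomMulAct.mk h⁻¹
      map_one' := by simp
      map_mul' := fun a b => by simp }
  let π : H →* (Lp ℝ 2 μ →ₗ[ℝ] Lp ℝ 2 μ) := (DistribMulAction.toModuleEnd ℝ (Lp ℝ 2 μ)).comp j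
  have hπ : ∀ h x, π h x = DomMulAct.mk h⁻¹ • x := fun h x => rfl
  obtain ⟨f, hf0, hf1, -⟩ := exists_continuous_zero_one_of_isClosed (s := {g⁻¹}) (t := {1})
    isClosed_singleton isClosed_singleton (by simpa using hg)
  have : Fact ((2 : ENNReal) ≠ ⊤) := ⟨by simp⟩
  refine exists_fd_of_hilbert π (fun h x => ?_) (fun x => ?_) (ξ := ContinuousMap.toLp 2 μ ℝ f) ?_
  · rw [hπ, DomMulAct.norm_smul_Lp]
  · simp only [hπ]
    exact (DomMulAct.continuous_mk.comp continuous_inv).smul continuous_const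
  · intro h
    let f' : C(H, ℝ) := f.comp ⟨fun x => g⁻¹ * x, by fun_prop⟩
    have h1 : ContinuousMap.toLp 2 μ ℝ f' = ContinuousMap.toLp 2 μ ℝ f := by
      rw [← h, hπ]
      apply Lp.ext
      refine (ContinuousMap.coeFn_toLp μ f').trans ?_
      refine Filter.EventuallyEq.trans ?_ (DomMulAct.smul_Lp_ae_eq _ _).symm
      exact ((measurePreserving_mul_left μ g⁻¹).quasiMeasurePreserving.ae_eq
        (ContinuousMap.coeFn_toLp (p := 2) (𝕜 := ℝ) μ f)).symm
    have h2 := congrArg (fun F : C(H, ℝ) => F 1) (ContinuousMap.toLp_injective μ h1)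
    have h3 := hf0 (Set.mem_singleton _)
    have h4 := hf1 (Set.mem_singleton _)
    simp [f'] at h2 h3 h4
    rw [h3, h4] at h2
    exact zero_ne_one h2

/-- Every neighbourhood of the identity of a compact group contains a closed normal subgroup `N`
such that some open set containing `N` has no subgroups outside `N`. -/
theorem peterWeyl_nhds {H : Type} [Group H] [TopologicalSpace H] [IsTopologicalGroup H]
    [CompactSpace H] [T2Space H] {O : Set H} (hO : IsOpen O) (h1 : (1 : H) ∈ O) :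
    ∃ (N : Subgroup H) (B : Set H), IsClosed (N : Set H) ∧ (N : Set H) ⊆ O ∧ IsOpen B ∧
      (N : Set H) ⊆ B ∧ ∀ x : H, (∀ k : ℕ, x ^ k ∈ B) → x ∈ N := by
  have h : ∀ g : (Oᶜ : Set H), ∃ (n : ℕ) (ρ : H →* Mat n), Continuous ρ ∧ ρ g ≠ 1 :=
    fun g => peterWeyl (fun h => g.2 (h ▸ h1))
  choose n ρ hρ hρ' using h
  choose B hB hB1 hB2 using matrix_nss
  obtain ⟨t, ht⟩ := hO.isClosed_compl.isCompact.elim_finite_subcover
    (fun g : (Oᶜ : Set H) => {x | ρ g x ≠ 1})
    (fun g => isOpen_ne_fun (hρ g) continuous_const)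
    (fun g hg => Set.mem_iUnion.2 ⟨⟨g, hg⟩, hρ' _⟩)
  refine ⟨⨅ g ∈ t, (ρ g).ker, ⋂ g ∈ t, ρ g ⁻¹' B (n g), ?_, ?_, ?_, ?_, ?_⟩
  · simp only [Subgroup.coe_iInf]
    exact isClosed_iInter fun g => isClosed_iInter fun _ =>
      isClosed_eq (hρ g) continuous_const
  · intro x hx
    by_contra hxO
    obtain ⟨g, hg, hx'⟩ := Set.mem_iUnion₂.1 (ht hxO)
    simp only [SetLike.mem_coe, Subgroup.mem_iInf] at hx
    exact hx' (hx g hg)
  · exact isOpen_biInter_finset fun g _ => (hB _).preimage (hρ g)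
  · intro x hx
    simp only [SetLike.mem_coe, Subgroup.mem_iInf] at hx
    refine Set.mem_iInter₂.2 fun g hg => ?_
    rw [Set.mem_preimage, MonoidHom.mem_ker.1 (hx g hg)]
    exact hB1 _
  · intro x hx
    simp only [Subgroup.mem_iInf]
    intro g hg
    refine hB2 _ _ fun k => ?_
    rw [← map_pow]
    exact Set.mem_iInter₂.1 (hx k) g hg

end Pool.Agent.MP_45783b_al

end MrgPart1

-- marker of a merged file
example : 731051 + 510854 = 731051 + 510854 := rfl
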