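import Mathlib.Topology.Sheaves.Presheaf
import Mathlib.Topology.Algebra.OpenSubgroup
import Mathlib.Analysis.Normed.Lp.lpSpace
import Mathlib.Topology.Algebra.ProperAction.Basic
import Mathlib.Combinatorics.SimpleGraph.Basic
import Pool.Agent.MP_45783b_al.PW

-- ======== part 0: formerly Pool.Agent.MP_45783b_al.Dietz
section MrgPart0

/-!
Periodic groups, groups without proper open subgroups, and a topological Dietzmann lemma.
-/

set_option autoImplicit false

namespace Pool.Agent.MP_45783b_al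

open Topology Filter
open scoped Pointwise

/-- Every element lies in a compact subgroup. -/
def Periodic (G : Type) [Group G] [TopologicalSpace G] : Prop :=
  ∀ x : G, ∃ K : Subgroup G, IsCompact (K : Set G) ∧ x ∈ K

/-- There is no proper open subgroup. -/
def NPO (G : Type) [Group G] [TopologicalSpace G] : Prop :=
  ∀ U : Subgroup G, IsOpen (U : Set G) → U = ⊤

section

variable {G : Type} [Group G]

theorem dietz_aux (S V : Set G) (hS : ∀ g, ∀ x ∈ S, g⁻¹ * x * g ∈ S)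
    (hV : ∀ g, ∀ x ∈ V, g⁻¹ * x * g ∈ V) (K : G → Subgroup G) (hK : ∀ s, s ∈ K s) :
    ∀ (n : ℕ) (l : List G) (x : G), x ∈ S ^ n →
      (∀ m, n = m + 1 → ∀ x₁ ∈ S, ∀ z ∈ S ^ m, x = x₁ * z → ∃ s ∈ l, s⁻¹ * x₁ ∈ V) →
      x ∈ (l.map (fun s => (K s : Set G))).prod * V ^ n := by
  have hone : ∀ l : List G, (1 : G) ∈ (l.map (fun s => (K s : Set G))).prod := by
    intro l
    induction l with
    | nil => simp
    | cons s l ih =>
      rw [List.map_cons, List.prod_cons]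
      exact ⟨1, (K s).one_mem, 1, ih, mul_one _⟩
  intro n
  induction n with
  | zero =>
    intro l x hx _
    rw [pow_zero, Set.mem_one] at hx
    rw [pow_zero, mul_one, hx]
    exact hone l
  | succ n ihn =>
    intro l
    induction l with
    | nil =>
      intro x hx h
      rw [pow_succ'] at hx
      obtain ⟨x₁, hx₁, z, hz, rfl⟩ := hx
      simpa using h n rfl x₁ hx₁ z hz rfl
    | cons s l ihl =>
      intro x hx h
      by_cases hc : ∃ x₁ ∈ S, ∃ z ∈ S ^ n, x = x₁ * z ∧ s⁻¹ * x₁ ∈ V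
      · obtain ⟨x₁, hx₁, z, hz, rfl, hv⟩ := hc
        have := ihn (s :: l) z hz (by
          rintro m rfl y hy w hw rfl
          refine h _ rfl y hy (y⁻¹ * x₁ * y * w) ?_ (by group)
          rw [pow_succ']
          exact Set.mul_mem_mul (hS _ _ hx₁) hw)
        rw [List.map_cons, List.prod_cons] at this ⊢
        obtain ⟨_, ⟨k, hk, p, hp, rfl⟩, u, hu, rfl⟩ := this
        refine ⟨(s * k) * p, Set.mul_mem_mul ((K s).mul_mem (hK s) hk) hp,
          ((k * p)⁻¹ * (s⁻¹ * x₁) * (k * p)) * u, ?_, by group⟩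
        rw [pow_succ']
        exact Set.mul_mem_mul (hV _ _ hv) hu
      · push Not at hc
        have := ihl x hx (by
          intro m hm x₁ hx₁ z hz he
          obtain ⟨s', hs', hv⟩ := h m hm x₁ hx₁ z hz he
          rcases List.mem_cons.1 hs' with rfl | hs'
          · obtain rfl : n = m := by omega
            exact absurd hv (hc x₁ hx₁ z hz he)
          · exact ⟨s', hs', hv⟩)
        rw [List.map_cons, List.prod_cons]
        obtain ⟨p, hp, u, hu, rfl⟩ := this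
        exact ⟨1 * p, Set.mul_mem_mul (K s).one_mem hp, u, hu, by simp⟩

variable [TopologicalSpace G] [IsTopologicalGroup G]

theorem dietz (hG : Periodic G) (S V : Set G) (hS : ∀ g, ∀ x ∈ S, g⁻¹ * x * g ∈ S)
    (hV : ∀ g, ∀ x ∈ V, g⁻¹ * x * g ∈ V) (T : Finset G) (hT : ∀ x ∈ S, ∃ s ∈ T, s⁻¹ * x ∈ V) :
    ∃ P : Set G, IsCompact P ∧ ∀ n : ℕ, S ^ n ⊆ P * V ^ n := by
  choose K hK hK' using hG
  refine ⟨(T.toList.map (fun s => (K s : Set G))).prod, ?_, fun n x hx => ?_⟩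
  · induction T.toList with
    | nil => simp
    | cons s l ih =>
      rw [List.map_cons, List.prod_cons]
      exact (hK s).mul ih
  · refine dietz_aux S V hS hV K hK' n _ x hx ?_
    intro m _ x₁ hx₁ z _ _
    obtain ⟨s, hs, hv⟩ := hT x₁ hx₁
    exact ⟨s, Finset.mem_toList.2 hs, hv⟩

theorem NPO.of_nhds (hG : NPO G) (p : G → Prop) (hmul : ∀ x y, p x → p y → p (x * y))
    (hp : ∀ᶠ x in 𝓝 (1 : G), p x) (x : G) : p x := by
  let U : Subgroup G :=
    { carrier := {x | p x ∧ p x⁻¹}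
      one_mem' := by simpa using hp.self_of_nhds
      mul_mem' := fun {a b} ha hb => ⟨hmul _ _ ha.1 hb.1, by
        rw [mul_inv_rev]; exact hmul _ _ hb.2 ha.2⟩
      inv_mem' := fun {a} ha => ⟨ha.2, by simpa using ha.1⟩ }
  have h1 : (U : Set G) ∈ 𝓝 (1 : G) := by
    have h2 : ∀ᶠ x in 𝓝 (1 : G), p x⁻¹ := by
      have : Tendsto (fun x : G => x⁻¹) (𝓝 1) (𝓝 1) := by
        simpa using (continuous_inv (G := G)).tendsto 1
      exact this.eventually hp
    exact hp.and h2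
  have h3 := hG U (U.isOpen_of_mem_nhds h1)
  have : x ∈ U := h3 ▸ Subgroup.mem_top x
  exact this.1

theorem exists_finset_cover {C V : Set G} (hC : IsCompact C) (hV : V ∈ 𝓝 (1 : G)) :
    ∃ T : Finset G, ∀ x ∈ C, ∃ s ∈ T, s⁻¹ * x ∈ V := by
  obtain ⟨T, hT⟩ := hC.elim_nhds_subcover (fun s => {x | s⁻¹ * x ∈ V}) (fun s _ => by
    have : Tendsto (fun x => s⁻¹ * x) (𝓝 s) (𝓝 1) := by
      have := (continuous_const_mul s⁻¹).tendsto s
      simpa using this
    exact this hV)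
  exact ⟨T, fun x hx => by simpa using hT.2 hx⟩

theorem isCompact_pow {C : Set G} (hC : IsCompact C) (n : ℕ) : IsCompact (C ^ n) := by
  induction n with
  | zero => simp
  | succ n ih => rw [pow_succ]; exact ih.mul hC

theorem compact_subset_pow {C V : Set G} (hG : NPO G) (hC : IsCompact C) (hV : V ∈ 𝓝 (1 : G)) :
    ∃ n : ℕ, C ⊆ V ^ n := by
  have h1 : (1 : G) ∈ V := mem_of_mem_nhds hV
  have h : ∀ x : G, ∃ n : ℕ, x ∈ V ^ n := by
    refine hG.of_nhds _ ?_ ?_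
    · rintro x y ⟨a, ha⟩ ⟨b, hb⟩
      exact ⟨a + b, by rw [pow_add]; exact Set.mul_mem_mul ha hb⟩
    · filter_upwards [hV] with x hx using ⟨1, by simpa using hx⟩
  choose f hf using h
  obtain ⟨T, hT⟩ := exists_finset_cover hC hV
  refine ⟨T.sup f + 1, fun x hx => ?_⟩
  obtain ⟨s, hs, hv⟩ := hT x hx
  rw [pow_succ]
  exact ⟨s, Set.pow_subset_pow_right h1 (Finset.le_sup hs) (hf s), _, hv, by simp⟩

/-- A periodic group without proper open subgroups having a compact invariant neighbourhood of the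
identity is compact. -/
theorem compact_of_invariant (hG : NPO G) (hP : Periodic G) {V : Set G} (hVc : IsCompact V)
    (hV : V ∈ 𝓝 (1 : G)) (hinv : ∀ g, ∀ x ∈ V, g⁻¹ * x * g ∈ V) : CompactSpace G := by
  have h1 : (1 : G) ∈ V := mem_of_mem_nhds hV
  obtain ⟨T, hT⟩ := exists_finset_cover (hVc.mul hVc) hV
  obtain ⟨P, hPc, hPn⟩ := dietz hP (V * V) V (by
    rintro g _ ⟨a, ha, b, hb, rfl⟩
    exact ⟨_, hinv g a ha, _, hinv g b hb, by group⟩) hinv T hT
  obtain ⟨c, hc⟩ := compact_subset_pow hG hPc hV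
  have h2 : ∀ n : ℕ, V ^ (2 * n) ⊆ V ^ (c + n) := by
    intro n
    rw [pow_mul, sq, pow_add]
    exact (hPn n).trans (Set.mul_subset_mul_right hc)
  have h3 : ∀ n : ℕ, V ^ n ⊆ V ^ (2 * c + 1) := by
    intro n
    induction n using Nat.strong_induction_on with
    | _ n ih =>
      by_cases hn : n ≤ 2 * c + 1
      · exact Set.pow_subset_pow_right h1 hn
      · exact ((Set.pow_subset_pow_right h1 (by omega : n ≤ 2 * ((n + 1) / 2))).trans
          (h2 _)).trans (ih _ (by omega))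
  refine ⟨?_⟩
  have : V ^ (2 * c + 1) = Set.univ := by
    refine Set.eq_univ_of_forall fun x => ?_
    obtain ⟨n, hn⟩ := compact_subset_pow hG (isCompact_singleton (x := x)) hV
    exact h3 n (hn rfl)
  rw [← this]
  exact isCompact_pow hVc _

theorem exists_invariant_of_class [LocallyCompactSpace G] [T2Space G] (hG : NPO G) (f : G → ℝ)
    (hf : Continuous f) (hcl : ∀ g x, f (g⁻¹ * x * g) = f x) (hmax : ∀ x, x ≠ 1 → f x < f 1) :
    ∃ V : Set G, IsCompact V ∧ V ∈ 𝓝 (1 : G) ∧ ∀ g, ∀ x ∈ V, g⁻¹ * x * g ∈ V := by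
  obtain ⟨C, hC, hC1⟩ := exists_compact_mem_nhds (1 : G)
  have hD : IsCompact ((C⁻¹ * C * C) \ interior C) := ((hC.inv.mul hC).mul hC).diff isOpen_interior
  obtain ⟨t, ht, ht'⟩ : ∃ t < f 1, ∀ x ∈ (C⁻¹ * C * C) \ interior C, f x ≤ t := by
    by_cases hne : ((C⁻¹ * C * C) \ interior C).Nonempty
    · obtain ⟨x, hx, hx'⟩ := hD.exists_isMaxOn hne hf.continuousOn
      refine ⟨f x, hmax x ?_, hx'⟩
      rintro rfl
      exact hx.2 (mem_interior_iff_mem_nhds.2 hC1)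
    · exact ⟨f 1 - 1, by linarith, fun x hx => (hne ⟨x, hx⟩).elim⟩
  let V : Set G := {x | t < f x} ∩ interior C
  have hV : ∀ g, ∀ x ∈ V, g⁻¹ * x * g ∈ V := by
    refine hG.of_nhds _ ?_ ?_
    · intro a b ha hb x hx
      have := hb _ (ha x hx)
      rwa [show b⁻¹ * (a⁻¹ * x * a) * b = (a * b)⁻¹ * x * (a * b) by group] at this
    · filter_upwards [hC1] with g hg x hx
      have h1 : t < f (g⁻¹ * x * g) := by rw [hcl]; exact hx.1
      refine ⟨h1, ?_⟩
      by_contra h2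
      exact (ht' _ ⟨Set.mul_mem_mul (Set.mul_mem_mul (Set.inv_mem_inv.2 hg)
        (interior_subset hx.2)) hg, h2⟩).not_gt h1
  refine ⟨closure V, hC.closure_of_subset (Set.inter_subset_right.trans interior_subset), ?_, ?_⟩
  · refine mem_of_superset ?_ subset_closure
    exact inter_mem ((isOpen_lt continuous_const hf).mem_nhds ht) (interior_mem_nhds.2 hC1)
  · intro g x hx
    exact map_mem_closure (f := fun x => g⁻¹ * x * g) (by fun_prop) hx (hV g)

theorem compact_of_faithful [LocallyCompactSpace G] [T2Space G] (hG : NPO G) (hP : Periodic G)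
    {n : ℕ} (ρ : G →* Mat n) (hρ : Continuous ρ) (hinj : ∀ x, ρ x = 1 → x = 1) :
    CompactSpace G := by
  obtain ⟨V, h1, h2, h3⟩ := exists_invariant_of_class hG (fun x => (ρ x).trace.re)
    (Complex.continuous_re.comp hρ.matrix_trace) (fun g x => by
      rw [map_mul, Matrix.trace_mul_comm, ← map_mul, mul_inv_cancel_left]) (fun x hx => by
      obtain ⟨K, hK, hxK⟩ := hP x
      obtain ⟨h1, h2⟩ := (powBdd_of_compact ρ hρ hK hxK).trace_re
      simp only [map_one, Matrix.trace_one, Fintype.card_fin, Complex.natCast_re]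
      exact lt_of_le_of_ne h1 fun h => hx (hinj x (h2 h)))
  exact compact_of_invariant hG hP h1 h2 h3

omit [IsTopologicalGroup G] in
theorem NPO.map {H : Type} [Group H] [TopologicalSpace H] (hG : NPO G) (f : G →* H)
    (hf : Continuous f) (hs : Function.Surjective f) : NPO H := by
  intro U hU
  have := hG (U.comap f) (hU.preimage hf)
  rw [← Subgroup.map_comap_eq_self_of_surjective hs U, this, Subgroup.map_top_of_surjective _ hs]

omit [IsTopologicalGroup G] in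
theorem Periodic.map {H : Type} [Group H] [TopologicalSpace H] (hG : Periodic G) (f : G →* H)
    (hf : Continuous f) (hs : Function.Surjective f) : Periodic H := by
  intro y
  obtain ⟨x, rfl⟩ := hs y
  obtain ⟨K, hK, hx⟩ := hG x
  exact ⟨K.map f, hK.image hf, ⟨x, hx, rfl⟩⟩

theorem exists_compact_lift [LocallyCompactSpace G] (N : Subgroup G) [N.Normal]
    [CompactSpace (G ⧸ N)] : ∃ C : Set G, IsCompact C ∧ ∀ x, ∃ c ∈ C, c⁻¹ * x ∈ N := by
  obtain ⟨C, hC, hC1⟩ := exists_compact_mem_nhds (1 : G)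
  have h1 : (QuotientGroup.mk '' C : Set (G ⧸ N)) ∈ 𝓝 (1 : G ⧸ N) :=
    QuotientGroup.isOpenMap_coe.image_mem_nhds hC1
  obtain ⟨T, hT⟩ := exists_finset_cover isCompact_univ h1
  refine ⟨(Quotient.out '' (T : Set (G ⧸ N))) * C, (T.finite_toSet.image _).isCompact.mul hC,
    fun x => ?_⟩
  obtain ⟨s, hs, c, hc, he⟩ := hT (x : G ⧸ N) trivial
  refine ⟨s.out * c, Set.mul_mem_mul ⟨s, hs, rfl⟩ hc, ?_⟩
  rw [← QuotientGroup.eq, QuotientGroup.mk_mul, he]
  simp

theorem compact_of_quotient [LocallyCompactSpace G] (N : Subgroup G) [N.Normal]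
    [CompactSpace (G ⧸ N)] (hN : IsCompact (N : Set G)) : CompactSpace G := by
  obtain ⟨C, hC, h⟩ := exists_compact_lift N
  refine ⟨?_⟩
  have : C * (N : Set G) = Set.univ := Set.eq_univ_of_forall fun x => by
    obtain ⟨c, hc, hx⟩ := h x
    exact ⟨c, hc, _, hx, by simp⟩
  rw [← this]
  exact hC.mul hN

theorem compact_of_central_ker [LocallyCompactSpace G] [T2Space G] (hG : NPO G) (hP : Periodic G)
    {n : ℕ} (ρ : G →* Mat n) (hρ : Continuous ρ) (hker : ∀ x, ρ x = 1 → ∀ y, x * y = y * x) :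
    CompactSpace G := by
  have hcl : IsClosed (ρ.ker : Set G) := isClosed_eq hρ continuous_const
  have hq : Continuous (QuotientGroup.mk' ρ.ker) := QuotientGroup.continuous_mk
  have hs := QuotientGroup.mk'_surjective ρ.ker
  have : CompactSpace (G ⧸ ρ.ker) := by
    refine compact_of_faithful (hG.map _ hq hs) (hP.map _ hq hs) 
      (QuotientGroup.lift ρ.ker ρ le_rfl) ?_ ?_
    · rw [(QuotientGroup.isQuotientMap_mk ρ.ker).continuous_iff]
      exact hρ
    · intro x hx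
      obtain ⟨y, rfl⟩ := QuotientGroup.mk_surjective x
      exact (QuotientGroup.eq_one_iff y).2 hx
  obtain ⟨C, hC, h⟩ := exists_compact_lift ρ.ker
  obtain ⟨D, hD, hD1⟩ := exists_compact_mem_nhds (1 : G)
  refine compact_of_invariant hG hP (V := (fun p : G × G => p.1⁻¹ * p.2 * p.1) '' (C ×ˢ D))
    ((hC.prod hD).image (by fun_prop)) ?_ ?_
  · refine mem_of_superset hD1 fun x hx => ?_
    obtain ⟨c, hc, hc1⟩ := h 1
    refine ⟨(c, x), ⟨hc, hx⟩, ?_⟩
    have := hker _ hc1 x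
    simp only [mul_one] at this
    simp only [this]
    group
  · rintro g _ ⟨⟨c, x⟩, ⟨hc, hx⟩, rfl⟩
    obtain ⟨c', hc', hk⟩ := h (c * g)
    refine ⟨(c', x), ⟨hc', hx⟩, ?_⟩
    have := hker _ hk (c'⁻¹ * x * c')
    simp only
    calc c'⁻¹ * x * c' = (c'⁻¹ * (c * g))⁻¹ * (c'⁻¹ * (c * g) * (c'⁻¹ * x * c')) := by group
      _ = _ := by rw [this]; group

end

end Pool.Agent.MP_45783b_al

end MrgPart0

-- ======== part 1: formerly Pool.Agent.MP_45783b_al.Lat
section MrgPart1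

/-!
Order theoretic notions and the lattice of closed subgroups.
-/

set_option autoImplicit false

namespace Pool.Agent.MP_45783b_al

open Topology

section Order

variable {α β : Type}

/-- Completely join irreducible elements. -/
def IsCji [PartialOrder α] (D : α) : Prop := ∃ D₁ < D, ∀ E < D, E ≤ D₁

/-- An order theoretic substitute for connectedness. -/
def PP [PartialOrder α] (Y : α) : Prop :=
  ∀ W < Y, ∃ E : ℕ → α, Monotone E ∧ (∀ n, W ≤ E n ∧ E n ≤ Y) ∧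
    (∀ J ≤ Y, (∀ n, E n ≤ J) → J = Y) ∧ ∃ T X, T < X ∧ X ≤ Y ∧ ∀ n, ∀ Z ≤ X, Z ≤ E n → Z ≤ T

theorem IsCji.map [PartialOrder α] [PartialOrder β] (f : α ↪o β) {D : α}
    (hf : ∀ b ≤ f D, ∃ a, f a = b) : IsCji (f D) ↔ IsCji D := by
  constructor
  · rintro ⟨D₁, h1, h2⟩
    obtain ⟨a, rfl⟩ := hf _ h1.le
    exact ⟨a, f.lt_iff_lt.1 h1, fun E hE => f.le_iff_le.1 (h2 _ (f.lt_iff_lt.2 hE))⟩
  · rintro ⟨D₁, h1, h2⟩
    refine ⟨f D₁, f.lt_iff_lt.2 h1, fun E hE => ?_⟩
    obtain ⟨a, rfl⟩ := hf _ hE.le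
    exact f.le_iff_le.2 (h2 a (f.lt_iff_lt.1 hE))

theorem IsCji.iso [PartialOrder α] [PartialOrder β] (f : α ≃o β) {D : α} :
    IsCji (f D) ↔ IsCji D :=
  IsCji.map f.toOrderEmbedding fun b _ => f.surjective b

theorem PP.map [PartialOrder α] [PartialOrder β] (f : α ↪o β) {Y : α}
    (hf : ∀ b ≤ f Y, ∃ a, f a = b) (h : PP Y) : PP (f Y) := by
  intro W hW
  obtain ⟨W, rfl⟩ := hf _ hW.le
  obtain ⟨E, h1, h2, h3, T, X, h4, h5, h6⟩ := h W (f.lt_iff_lt.1 hW)
  refine ⟨fun n => f (E n), f.monotone.comp h1,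
    fun n => ⟨f.monotone (h2 n).1, f.monotone (h2 n).2⟩, fun J hJ hJ' => ?_, f T, f X,
    f.lt_iff_lt.2 h4, f.monotone h5, fun n Z hZ hZ' => ?_⟩
  · obtain ⟨J, rfl⟩ := hf _ hJ
    rw [h3 J (f.le_iff_le.1 hJ) fun n => f.le_iff_le.1 (hJ' n)]
  · obtain ⟨Z, rfl⟩ := hf _ (hZ.trans (f.monotone h5))
    exact f.monotone (h6 n Z (f.le_iff_le.1 hZ) (f.le_iff_le.1 hZ'))

theorem PP.iso [PartialOrder α] [PartialOrder β] (f : α ≃o β) {Y : α} (h : PP Y) : PP (f Y) :=
  PP.map f.toOrderEmbedding (fun b _ => f.surjective b) h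

/-- The join of all elements with the property `PP`. -/
def PRad (α : Type) [CompleteLattice α] : α := sSup {Y | PP Y}

theorem map_PRad [CompleteLattice α] [CompleteLattice β] (f : α ≃o β) : f (PRad α) = PRad β := by
  refine le_antisymm ?_ (sSup_le fun Y hY => ?_)
  · rw [← f.le_symm_apply]
    exact sSup_le fun Y hY => f.le_symm_apply.2 (le_sSup (PP.iso f hY))
  · rw [← f.symm_apply_le]
    exact le_sSup (PP.iso f.symm hY)

theorem exists_restrict {α' β' : Type} [PartialOrder α] [PartialOrder β] [PartialOrder α']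
    [PartialOrder β'] (f : α' ↪o α) (g : β' ↪o β) (φ : α ≃o β)
    (h : ∀ a, (∃ x, f x = a) ↔ ∃ y, g y = φ a) : ∃ ψ : α' ≃o β', ∀ x, g (ψ x) = φ (f x) := by
  choose ψ hψ using fun x => (h (f x)).1 ⟨x, rfl⟩
  have h1 : ∀ x y, ψ x ≤ ψ y ↔ x ≤ y := fun x y => by
    rw [← g.le_iff_le, hψ, hψ, φ.le_iff_le, f.le_iff_le]
  refine ⟨RelIso.ofSurjective (OrderEmbedding.ofMapLEIff ψ h1) fun y => ?_, hψ⟩
  obtain ⟨x, hx⟩ := (h (φ.symm (g y))).2 ⟨y, by simp⟩
  exact ⟨x, g.injective (by change g (ψ x) = _; rw [hψ, hx]; simp)⟩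

/-- Modular elements of a lattice. -/
structure IsMod [Lattice α] (M : α) : Prop where
  one : ∀ X Z, X ≤ Z → (X ⊔ M) ⊓ Z ≤ X ⊔ M ⊓ Z
  two : ∀ Y Z, M ≤ Z → (M ⊔ Y) ⊓ Z ≤ M ⊔ Y ⊓ Z

theorem IsMod.iso [Lattice α] [Lattice β] (f : α ≃o β) {M : α} (h : IsMod M) : IsMod (f M) := by
  constructor
  · intro X Z hXZ
    obtain ⟨X, rfl⟩ := f.surjective X
    obtain ⟨Z, rfl⟩ := f.surjective Z
    simpa only [← f.map_sup, ← f.map_inf, f.le_iff_le] using h.one X Z (f.le_iff_le.1 hXZ)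
  · intro X Z hXZ
    obtain ⟨X, rfl⟩ := f.surjective X
    obtain ⟨Z, rfl⟩ := f.surjective Z
    simpa only [← f.map_sup, ← f.map_inf, f.le_iff_le] using h.two X Z (f.le_iff_le.1 hXZ)

theorem IsMod.cancel [Lattice α] {M X X' : α} (h : IsMod M) (h1 : X ≤ X') (h2 : X' ≤ X ⊔ M)
    (h3 : M ⊓ X' ≤ X) : X' ≤ X :=
  (le_inf h2 le_rfl).trans ((h.one X X' h1).trans (sup_le le_rfl h3))

theorem IsMod.sup [Lattice α] {M N : α} (hM : IsMod M) (hN : IsMod N) : IsMod (M ⊔ N) := by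
  have canc : ∀ X X', X ≤ X' → X' ≤ X ⊔ (M ⊔ N) → (M ⊔ N) ⊓ X' ≤ X → X' ≤ X := by
    intro X X' h1 h2 h3
    refine hM.cancel h1 (le_sup_left.trans (hN.cancel (sup_le_sup_right h1 M) ?_ ?_))
      ((inf_le_inf_right _ le_sup_left).trans h3)
    · exact sup_le (by rwa [sup_assoc]) (le_sup_right.trans le_sup_left)
    · have := hM.two X' (M ⊔ N) le_sup_left
      refine le_trans (le_inf ?_ (inf_le_left.trans le_sup_right)) (this.trans ?_)
      · rw [sup_comm]; exact inf_le_right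
      · exact sup_le le_sup_right (le_sup_of_le_left (by rwa [inf_comm]))
  constructor
  · intro X Z hXZ
    refine canc _ _ (sup_le (le_inf le_sup_left hXZ) (inf_le_inf_right _ le_sup_right)) ?_ ?_
    · exact inf_le_left.trans (sup_le_sup_right le_sup_left _)
    · exact le_sup_of_le_right (inf_le_inf_left _ inf_le_right)
  · intro Y Z hZ
    rw [sup_assoc, sup_assoc]
    exact (hM.two _ Z (le_sup_left.trans hZ)).trans
      (sup_le_sup_left (hN.two Y Z (le_sup_right.trans hZ)) M)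

theorem IsMod.covBy_sup [Lattice α] {M Y : α} (h : IsMod M) (hY : M ⊓ Y ⋖ Y) : M ⋖ M ⊔ Y := by
  refine ⟨left_lt_sup.2 fun h1 => hY.lt.not_ge (le_inf h1 le_rfl), fun Z h1 h2 => ?_⟩
  have h3 : Z ≤ M ⊔ Y ⊓ Z := (le_inf h2.le le_rfl).trans (h.two Y Z h1.le)
  rcases hY.eq_or_eq (c := Y ⊓ Z) (le_inf inf_le_right (inf_le_left.trans h1.le)) inf_le_left with
    h4 | h4
  · rw [h4] at h3
    exact h1.not_ge (h3.trans (sup_le le_rfl inf_le_left))
  · exact h2.not_ge (sup_le h1.le (inf_eq_left.1 h4))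

/-- Lattice theoretic consequences of being a modular coatom. -/
def LMM [Lattice α] [OrderTop α] (Y : α) : Prop := IsCoatom Y ∧ ∀ V, V ≤ Y ∨ V ⊓ Y ⋖ V

theorem IsMod.lmm [Lattice α] [OrderTop α] {M : α} (h : IsMod M) (hc : IsCoatom M) : LMM M := by
  refine ⟨hc, fun V => ?_⟩
  by_cases hV : V ≤ M
  · exact Or.inl hV
  refine Or.inr ⟨inf_lt_left.2 hV, fun X h1 h2 => ?_⟩
  have h3 := h.one X V h2.le
  rcases hc.le_iff.1 (le_sup_right : M ≤ X ⊔ M) with h4 | h4
  · rw [h4, top_inf_eq] at h3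
    exact h2.not_ge (h3.trans (sup_le le_rfl (by rw [inf_comm]; exact h1.le)))
  · exact h1.not_ge (le_inf h2.le (le_sup_left.trans h4.le))

theorem LMM.iso [Lattice α] [OrderTop α] [Lattice β] [OrderTop β] (f : α ≃o β) {M : α}
    (h : LMM M) : LMM (f M) := by
  refine ⟨(f.isCoatom_iff M).2 h.1, fun V => ?_⟩
  obtain ⟨V, rfl⟩ := f.surjective V
  rw [f.le_iff_le, ← f.map_inf, apply_covBy_apply_iff]
  exact h.2 V

end Order

/-- The closed subgroups of a topological group. -/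
structure CS (G : Type) [Group G] [TopologicalSpace G] : Type where
  val : Subgroup G
  closed : IsClosed (val : Set G)

namespace CS

variable {G : Type} [Group G] [TopologicalSpace G]

theorem ext {A B : CS G} (h : A.1 = B.1) : A = B := by
  cases A
  cases B
  congr

instance : PartialOrder (CS G) := PartialOrder.lift val fun _ _ => ext

instance : InfSet (CS G) := ⟨fun S => ⟨⨅ A ∈ S, A.1, by
  simp only [Subgroup.coe_iInf]
  exact isClosed_iInter fun A => isClosed_iInter fun _ => A.2⟩⟩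

theorem le_def {A B : CS G} : A ≤ B ↔ A.1 ≤ B.1 := Iff.rfl

theorem lt_def {A B : CS G} : A < B ↔ A.1 < B.1 := Iff.rfl

theorem mem_sInf {S : Set (CS G)} {x : G} : x ∈ (sInf S).1 ↔ ∀ A ∈ S, x ∈ A.1 := by
  change x ∈ ⨅ A ∈ S, A.1 ↔ _
  simp only [Subgroup.mem_iInf]

instance : CompleteLattice (CS G) := completeLatticeOfInf (CS G) fun _ =>
  ⟨fun A hA => le_def.2 fun _ hx => mem_sInf.1 hx A hA,
    fun _ hB => le_def.2 fun _ hx => mem_sInf.2 fun _ hA => le_def.1 (hB hA) hx⟩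

/-- Comparison with the subtype. -/
def isoSub (G : Type) [Group G] [TopologicalSpace G] :
    CS G ≃o {K : Subgroup G // IsClosed (K : Set G)} where
  toFun A := ⟨A.1, A.2⟩
  invFun A := ⟨A.1, A.2⟩
  left_inv _ := rfl
  right_inv _ := rfl
  map_rel_iff' := Iff.rfl

@[simp] theorem inf_val (A B : CS G) : (A ⊓ B).1 = A.1 ⊓ B.1 := by
  have h : mk (A.1 ⊓ B.1) (A.2.inter B.2) ≤ A ⊓ B :=
    le_inf (fun _ hx => hx.1) (fun _ hx => hx.2)
  exact le_antisymm (le_inf (le_def.1 inf_le_left) (le_def.1 inf_le_right)) h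

@[simp] theorem top_val : (⊤ : CS G).1 = ⊤ :=
  top_le_iff.1 (le_def.1 (le_top (a := mk ⊤ isClosed_univ)))

theorem eq_top {A : CS G} : A = ⊤ ↔ A.1 = ⊤ :=
  ⟨fun h => h ▸ top_val, fun h => ext (h.trans top_val.symm)⟩

@[simp] theorem bot_val [T1Space G] : (⊥ : CS G).1 = ⊥ :=
  le_bot_iff.1 (le_def.1 (bot_le (a := mk ⊥ isClosed_singleton)))

theorem sup_val {A B : CS G} (h : IsClosed ((A.1 ⊔ B.1 : Subgroup G) : Set G)) :
    (A ⊔ B).1 = A.1 ⊔ B.1 :=
  le_antisymm (le_def.1 (sup_le (c := mk (A.1 ⊔ B.1) h) (le_def.2 le_sup_left)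
    (le_def.2 le_sup_right))) (sup_le (le_def.1 le_sup_left) (le_def.1 le_sup_right))

/-- The preimage under a continuous homomorphism. -/
def comap {H : Type} [Group H] [TopologicalSpace H] (f : H →* G) (hf : Continuous f) (A : CS G) :
    CS H := ⟨A.1.comap f, A.2.preimage hf⟩

theorem mem_comap {H : Type} [Group H] [TopologicalSpace H] {f : H →* G} {hf : Continuous f}
    {A : CS G} {x : H} : x ∈ (comap f hf A).1 ↔ f x ∈ A.1 := Iff.rfl

variable [IsTopologicalGroup G]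

/-- An open subgroup is closed. -/
def ofOpen (U : Subgroup G) (h : IsOpen (U : Set G)) : CS G := ⟨U, U.isClosed_of_isOpen h⟩

theorem sup_val_left {A B : CS G} (h : IsOpen (A.1 : Set G)) : (A ⊔ B).1 = A.1 ⊔ B.1 :=
  sup_val (Subgroup.isClosed_of_isOpen _ (Subgroup.isOpen_mono le_sup_left h))

theorem sup_val_right {A B : CS G} (h : IsOpen (B.1 : Set G)) : (A ⊔ B).1 = A.1 ⊔ B.1 :=
  sup_val (Subgroup.isClosed_of_isOpen _ (Subgroup.isOpen_mono le_sup_right h))

/-- The closure of a subgroup. -/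
def cl (S : Subgroup G) : CS G := ⟨S.topologicalClosure, S.isClosed_topologicalClosure⟩

theorem cl_le {S : Subgroup G} {A : CS G} : cl S ≤ A ↔ S ≤ A.1 :=
  ⟨fun h => S.le_topologicalClosure.trans h, fun h => S.topologicalClosure_minimal h A.2⟩

theorem le_cl (S : Subgroup G) : S ≤ (cl S).1 := cl_le.1 le_rfl

/-- The closed subgroup generated by an element. -/
def cyc (x : G) : CS G := cl (Subgroup.zpowers x)

theorem cyc_le {x : G} {A : CS G} : cyc x ≤ A ↔ x ∈ A.1 := by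
  rw [cyc, cl_le, Subgroup.zpowers_le]

theorem mem_cyc (x : G) : x ∈ (cyc x).1 := cyc_le.1 le_rfl

theorem dense_cyc (x : G) :
    Dense (Subgroup.zpowers (⟨x, mem_cyc x⟩ : (cyc x).1) : Set (cyc x).1) := by
  rw [Subtype.dense_iff]
  refine closure_mono ?_
  rintro _ ⟨k, rfl⟩
  exact ⟨_, ⟨k, rfl⟩, rfl⟩

theorem cyc_comm [T2Space G] (x : G) {a b : G} (ha : a ∈ (cyc x).1) (hb : b ∈ (cyc x).1) :
    a * b = b * a := by
  have h1 : ∀ y : G, x * y = y * x → ∀ z ∈ (cyc x).1, z * y = y * z := by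
    intro y hy z hz
    have : cyc x ≤ ⟨Subgroup.centralizer {y}, Set.isClosed_centralizer _⟩ :=
      cyc_le.2 (Subgroup.mem_centralizer_singleton_iff.2 hy)
    exact Subgroup.mem_centralizer_singleton_iff.1 (this hz)
  exact h1 b (h1 x rfl b hb).symm a ha

theorem IsCji.eq_cyc {D : CS G} (h : IsCji D) : ∃ x, D = cyc x := by
  obtain ⟨D₁, h1, h2⟩ := h
  obtain ⟨x, hx, hx'⟩ := SetLike.exists_of_lt (lt_def.1 h1)
  refine ⟨x, ?_⟩
  by_contra hne
  exact hx' (cyc_le.1 (h2 _ (lt_of_le_of_ne (cyc_le.2 hx) (Ne.symm hne))))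

/-- The closed subgroups of a closed subgroup. -/
def emb (A : CS G) : CS A.1 ↪o CS G :=
  OrderEmbedding.ofMapLEIff
    (fun D => ⟨D.1.map A.1.subtype, A.2.isClosedEmbedding_subtypeVal.isClosedMap _ D.2⟩)
    fun _ _ => Subgroup.map_subtype_le_map_subtype

omit [IsTopologicalGroup G] in
theorem emb_val (A : CS G) (D : CS A.1) : (emb A D).1 = D.1.map A.1.subtype := rfl

omit [IsTopologicalGroup G] in
theorem exists_emb (A B : CS G) : (∃ D, emb A D = B) ↔ B ≤ A := by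
  constructor
  · rintro ⟨D, rfl⟩
    exact Subgroup.map_subtype_le _
  · intro h
    exact ⟨comap A.1.subtype continuous_subtype_val B, ext (Subgroup.map_subgroupOf_eq_of_le h)⟩

omit [IsTopologicalGroup G] in
theorem emb_le (A : CS G) (D : CS A.1) : emb A D ≤ A := (exists_emb A _).1 ⟨D, rfl⟩

omit [IsTopologicalGroup G] in
theorem emb_top (A : CS G) : emb A ⊤ = A := by
  obtain ⟨D, hD⟩ := (exists_emb A A).2 le_rfl
  exact le_antisymm (emb_le A _) (hD.ge.trans ((emb A).monotone le_top))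

omit [IsTopologicalGroup G] in
theorem exists_iso_sub {H : Type} [Group H] [TopologicalSpace H] (φ : CS G ≃o CS H) (A : CS G) :
    ∃ ψ : CS A.1 ≃o CS (φ A).1, ∀ D, emb (φ A) (ψ D) = φ (emb A D) :=
  exists_restrict _ _ φ fun a => by rw [exists_emb, exists_emb, φ.le_iff_le]

/-- The closed subgroups of a quotient. -/
def quo (N : Subgroup G) [N.Normal] : CS (G ⧸ N) ↪o CS G :=
  OrderEmbedding.ofMapLEIff (comap (QuotientGroup.mk' N) QuotientGroup.continuous_mk)
    fun _ _ => Subgroup.comap_le_comap_of_surjective (QuotientGroup.mk'_surjective N)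

omit [IsTopologicalGroup G] in
theorem mem_quo {N : Subgroup G} [N.Normal] {D : CS (G ⧸ N)} {x : G} :
    x ∈ (quo N D).1 ↔ (x : G ⧸ N) ∈ D.1 := Iff.rfl

omit [IsTopologicalGroup G] in
theorem exists_quo (N : Subgroup G) [N.Normal] (B : CS G) : (∃ D, quo N D = B) ↔ N ≤ B.1 := by
  constructor
  · rintro ⟨D, rfl⟩ x hx
    rw [mem_quo, (QuotientGroup.eq_one_iff x).2 hx]
    exact D.1.one_mem
  · intro h
    have h1 : (B.1.map (QuotientGroup.mk' N)).comap (QuotientGroup.mk' N) = B.1 :=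
      Subgroup.comap_map_eq_self (by rwa [QuotientGroup.ker_mk'])
    refine ⟨⟨B.1.map (QuotientGroup.mk' N), ?_⟩, ext h1⟩
    rw [← (QuotientGroup.isQuotientMap_mk N).isClosed_preimage]
    exact (congrArg (fun S : Subgroup G => IsClosed (S : Set G)) h1).mpr B.2

omit [IsTopologicalGroup G] in
theorem exists_iso_quo {H : Type} [Group H] [TopologicalSpace H] (φ : CS G ≃o CS H) (N : CS G)
    [N.1.Normal] [(φ N).1.Normal] :
    ∃ ψ : CS (G ⧸ N.1) ≃o CS (H ⧸ (φ N).1), ∀ D, quo (φ N).1 (ψ D) = φ (quo N.1 D) :=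
  exists_restrict _ _ φ fun a => by rw [exists_quo, exists_quo, ← le_def, ← le_def, φ.le_iff_le]

/-- Conjugation of closed subgroups. -/
def conj (h : G) : CS G ≃o CS G where
  toFun := comap (MulAut.conj h⁻¹).toMonoidHom (by
    change Continuous fun x => h⁻¹ * x * h⁻¹⁻¹; fun_prop)
  invFun := comap (MulAut.conj h).toMonoidHom (by
    change Continuous fun x => h * x * h⁻¹; fun_prop)
  left_inv A := ext (by ext x; simp [comap, mul_assoc])
  right_inv A := ext (by ext x; simp [comap, mul_assoc])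
  map_rel_iff' := Subgroup.comap_le_comap_of_surjective (MulAut.conj h⁻¹).surjective

theorem mem_conj {h x : G} {A : CS G} : x ∈ (conj h A).1 ↔ h⁻¹ * x * h ∈ A.1 := by
  change h⁻¹ * x * h⁻¹⁻¹ ∈ A.1 ↔ _
  rw [inv_inv]

theorem conj_mul (a b : G) (A : CS G) : conj (a * b) A = conj a (conj b A) :=
  ext (by ext x; simp [mem_conj, mul_assoc])

theorem conj_eq_iff {h : G} {A : CS G} : conj h A = A ↔ h ∈ Subgroup.normalizer (A.1 : Set G) := by
  rw [Subgroup.mem_normalizer_iff'']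
  constructor
  · intro h1 x
    rw [← mem_conj, h1]
  · intro h1
    exact ext (by ext x; rw [mem_conj, ← h1])

theorem conj_eq_of_mem {h : G} {A : CS G} (hA : h ∈ A.1) : conj h A = A :=
  conj_eq_iff.2 (Subgroup.le_normalizer hA)

theorem normal_iff {A : CS G} : A.1.Normal ↔ ∀ h, conj h A = A := by
  rw [← Subgroup.normalizer_eq_top_iff, eq_top_iff]
  exact ⟨fun h1 h => conj_eq_iff.2 (h1 trivial), fun h1 h _ => conj_eq_iff.1 (h1 h)⟩

/-- The normalizer of a closed subgroup. -/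
def nor (A : CS G) : CS G := ⟨Subgroup.normalizer (A.1 : Set G), by
  have : (Subgroup.normalizer (A.1 : Set G) : Set G) =
      (⋂ x ∈ A.1, {g | g * x * g⁻¹ ∈ A.1}) ∩ ⋂ x ∈ A.1, {g | g⁻¹ * x * g ∈ A.1} := by
    ext g
    simp only [SetLike.mem_coe, Subgroup.mem_normalizer_iff, Set.mem_inter_iff, Set.mem_iInter,
      Set.mem_ofPred_eq]
    refine ⟨fun h => ⟨fun x hx => (h x).1 hx, fun x hx => (h _).2 (by simpa [mul_assoc] using hx)⟩,
      fun h x => ⟨h.1 x, fun hx => by simpa [mul_assoc] using h.2 _ hx⟩⟩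
  rw [this]
  exact (isClosed_biInter fun x _ => A.2.preimage (f := fun g => g * x * g⁻¹) (by fun_prop)).inter
    (isClosed_biInter fun x _ => A.2.preimage (f := fun g => g⁻¹ * x * g) (by fun_prop))⟩

theorem mem_nor {A : CS G} {h : G} : h ∈ (nor A).1 ↔ conj h A = A := conj_eq_iff.symm

theorem le_nor (A : CS G) : A ≤ nor A := fun _ h => mem_nor.2 (conj_eq_of_mem h)

theorem normal_PRad : (PRad (CS G)).1.Normal := normal_iff.2 fun h => map_PRad (conj h)

theorem isMod_of_open_normal {M : CS G} (hM : IsOpen (M.1 : Set G)) [hn : M.1.Normal] :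
    IsMod M := by
  constructor
  · intro X Z hXZ x hx
    rw [inf_val, sup_val_right hM] at hx
    obtain ⟨y, hy, z, hz, rfl⟩ := Subgroup.mem_sup_of_normal_right.1 hx.1
    refine (X ⊔ M ⊓ Z).1.mul_mem (le_def.1 le_sup_left hy) (le_def.1 le_sup_right ?_)
    rw [inf_val]
    exact ⟨hz, (Z.1.mul_mem_cancel_left (hXZ hy)).1 hx.2⟩
  · intro Y Z hZ x hx
    rw [inf_val, sup_val_left hM] at hx
    obtain ⟨y, hy, z, hz, rfl⟩ := Subgroup.mem_sup_of_normal_left.1 hx.1
    refine (M ⊔ Y ⊓ Z).1.mul_mem (le_def.1 le_sup_left hy) (le_def.1 le_sup_right ?_)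
    rw [inf_val]
    exact ⟨hz, (Z.1.mul_mem_cancel_left (hZ hy)).1 hx.2⟩

end CS

end Pool.Agent.MP_45783b_al

end MrgPart1

-- ======== part 2: formerly Pool.Agent.MP_45783b_al.Gleason1
section MrgPart2

/-!
Seminorms on groups and the convolution trick of Gleason.
-/

set_option autoImplicit false

namespace Pool.Agent.MP_45783b_al

open Topology Filter MeasureTheory
open scoped Pointwise ENNReal

section

variable {G : Type} [Group G]

/-- A seminorm on a group. -/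
structure IsSN (ℓ : G → ℝ) : Prop where
  one : ℓ 1 = 0
  inv : ∀ g, ℓ g⁻¹ = ℓ g
  mul : ∀ g h, ℓ (g * h) ≤ ℓ g + ℓ h

theorem IsSN.nonneg {ℓ : G → ℝ} (h : IsSN ℓ) (g : G) : 0 ≤ ℓ g := by
  have := h.mul g g⁻¹
  rw [mul_inv_cancel, h.one, h.inv] at this
  linarith

theorem IsSN.const_mul {ℓ : G → ℝ} (h : IsSN ℓ) {M : ℝ} (hM : 0 ≤ M) : IsSN (fun g => M * ℓ g) :=
  ⟨by simp [h.one], fun g => by simp [h.inv], fun a b => by
    rw [← mul_add]; exact mul_le_mul_of_nonneg_left (h.mul a b) hM⟩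

theorem IsSN.pow {ℓ : G → ℝ} (h : IsSN ℓ) (g : G) (n : ℕ) : ℓ (g ^ n) ≤ n * ℓ g := by
  induction n with
  | zero => simp [h.one]
  | succ n ih =>
    rw [pow_succ]
    have := h.mul (g ^ n) g
    push_cast
    linarith

theorem IsSN.prod {ℓ : G → ℝ} (h : IsSN ℓ) (l : List G) : ℓ l.prod ≤ (l.map ℓ).sum := by
  induction l with
  | nil => simp [h.one]
  | cons a l ih =>
    rw [List.prod_cons, List.map_cons, List.sum_cons]
    have := h.mul a l.prod
    linarith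

/-- The infimum of the total weight of the factorizations. -/
noncomputable def cost (w : G → ℝ) (g : G) : ℝ :=
  sInf {r | ∃ l : List G, l.prod = g ∧ (l.map w).sum = r}

theorem cost_bdd {w : G → ℝ} (hw : ∀ g, 0 ≤ w g) (g : G) :
    BddBelow {r | ∃ l : List G, l.prod = g ∧ (l.map w).sum = r} := by
  refine ⟨0, ?_⟩
  rintro _ ⟨l, -, rfl⟩
  exact List.sum_nonneg (by simpa using fun a _ => hw a)

theorem cost_ne (w : G → ℝ) (g : G) :
    {r | ∃ l : List G, l.prod = g ∧ (l.map w).sum = r}.Nonempty :=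
  ⟨_, [g], by simp, rfl⟩

theorem cost_le_sum {w : G → ℝ} (hw : ∀ g, 0 ≤ w g) (l : List G) :
    cost w l.prod ≤ (l.map w).sum :=
  csInf_le (cost_bdd hw _) ⟨l, rfl, rfl⟩

theorem cost_le {w : G → ℝ} (hw : ∀ g, 0 ≤ w g) (g : G) : cost w g ≤ w g := by
  simpa using cost_le_sum hw [g]

theorem exists_of_cost_lt {w : G → ℝ} {g : G} {r : ℝ} (h : cost w g < r) :
    ∃ l : List G, l.prod = g ∧ (l.map w).sum < r := by
  obtain ⟨_, ⟨l, hl, rfl⟩, h'⟩ := exists_lt_of_csInf_lt (cost_ne w g) h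
  exact ⟨l, hl, h'⟩

theorem le_cost {w : G → ℝ} {g : G} {r : ℝ} (h : ∀ l : List G, l.prod = g → r ≤ (l.map w).sum) :
    r ≤ cost w g :=
  le_csInf (cost_ne w g) (by rintro _ ⟨l, hl, rfl⟩; exact h l hl)

theorem isSN_cost {w : G → ℝ} (hw : ∀ g, 0 ≤ w g) (hinv : ∀ g, w g⁻¹ = w g) : IsSN (cost w) := by
  have hi : ∀ g, cost w g⁻¹ ≤ cost w g := by
    intro g
    refine le_cost fun l hl => ?_
    have := cost_le_sum hw (l.map (fun x => x⁻¹)).reverse
    rw [← List.prod_inv_reverse, hl, List.map_reverse, List.sum_reverse, List.map_map] at this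
    refine this.trans (le_of_eq ?_)
    congr 2
    exact funext hinv
  refine ⟨le_antisymm (by simpa using cost_le_sum hw []) (le_cost fun l _ =>
    List.sum_nonneg (by simpa using fun a _ => hw a)), fun g => le_antisymm (hi g)
      (by simpa using hi g⁻¹), fun g h => ?_⟩
  have : ∀ l : List G, l.prod = g → cost w (g * h) - (l.map w).sum ≤ cost w h := by
    intro l hl
    refine le_cost fun l' hl' => ?_
    have := cost_le_sum hw (l ++ l')
    rw [List.prod_append, hl, hl', List.map_append, List.sum_append] at this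
    linarith
  have h2 : cost w (g * h) - cost w h ≤ cost w g := le_cost fun l hl => by linarith [this l hl]
  linarith

theorem IsSN.le_cost {ν w : G → ℝ} (hν : IsSN ν) {A : ℝ} (hA : 0 < A) (h : ∀ g, ν g ≤ A * w g)
    (g : G) : ν g ≤ A * cost w g := by
  rw [← div_le_iff₀' hA]
  refine Pool.Agent.MP_45783b_al.le_cost fun l hl => ?_
  rw [div_le_iff₀' hA, ← hl, ← List.sum_map_mul_left]
  exact (hν.prod l).trans (List.sum_le_sum fun a _ => h a)

open Classical in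
/-- The normalised word length with respect to a symmetric set. -/
theorem exists_wordSN (Q : Set G) (h1 : (1 : G) ∈ Q) (hQ : ∀ x ∈ Q, x⁻¹ ∈ Q) (n : ℕ)
    (hn : 0 < n) : ∃ ℓ : G → ℝ, IsSN ℓ ∧ (∀ x ∈ Q, ℓ x ≤ 1 / n) ∧ ∀ x, ℓ x < 1 → x ∈ Q ^ n := by
  let w : G → ℝ := fun x => if x ∈ Q then 1 / n else 1
  have hn' : (0 : ℝ) < n := by exact_mod_cast hn
  have hw : ∀ g, 0 ≤ w g := fun g => by
    simp only [w]; split_ifs <;> positivity
  have hQ' : ∀ x, x⁻¹ ∈ Q ↔ x ∈ Q := fun x => ⟨fun h => by simpa using hQ _ h, hQ x⟩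
  refine ⟨cost w, isSN_cost hw fun g => by simp only [w, hQ'], fun x hx => ?_, fun x hx => ?_⟩
  · exact (cost_le hw x).trans (by simp [w, hx])
  · obtain ⟨l, rfl, hl⟩ := exists_of_cost_lt hx
    have key : ∀ l : List G, (l.map w).sum < 1 →
        l.prod ∈ Q ^ l.length ∧ (l.map w).sum = l.length / n := by
      intro l
      induction l with
      | nil => simp
      | cons a l ih =>
        intro h
        rw [List.map_cons, List.sum_cons] at h ⊢
        have h0 : 0 ≤ (l.map w).sum := List.sum_nonneg (by simpa using fun a _ => hw a)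
        obtain ⟨h2, h3⟩ := ih (by linarith [hw a])
        have ha : a ∈ Q := by
          by_contra ha
          simp only [w, ha, if_false] at h
          linarith
        refine ⟨by rw [List.prod_cons, List.length_cons, pow_succ']; exact Set.mul_mem_mul ha h2, ?_⟩
        rw [h3]
        simp only [w, ha, if_true, List.length_cons]
        push_cast
        ring
    obtain ⟨h2, h3⟩ := key l hl
    rw [h3, div_lt_one hn'] at hl
    exact Set.pow_subset_pow_right h1 (by exact_mod_cast hl.le) h2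

variable [TopologicalSpace G] [IsTopologicalGroup G]

theorem exists_bump [MeasurableSpace G] [BorelSpace G] {U : Set G} (hU : IsOpen U)
    (h1 : (1 : G) ∈ U) {ℓ : G → ℝ} (hℓ : IsSN ℓ) (hℓU : ∀ g, ℓ g < 1 → g ∈ U) :
    ∃ ψ : G → ℝ, Measurable ψ ∧ (∀ x, 0 ≤ ψ x) ∧ (∀ x, ψ x ≤ 1) ∧ (∀ x ∈ U, ψ x = 1) ∧
      (∀ x, ψ x ≠ 0 → x ∈ U * U) ∧ ∀ g x, |ψ (g⁻¹ * x) - ψ x| ≤ ℓ g := by
  let d : G → ℝ := fun x => sInf ((fun u => ℓ (x * u⁻¹)) '' U)
  have hne : ∀ x, ((fun u => ℓ (x * u⁻¹)) '' U).Nonempty := fun x => ⟨_, 1, h1, rfl⟩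
  have hb : ∀ x, BddBelow ((fun u => ℓ (x * u⁻¹)) '' U) := fun x =>
    ⟨0, by rintro _ ⟨u, -, rfl⟩; exact hℓ.nonneg _⟩
  have hle : ∀ x, ∀ u ∈ U, d x ≤ ℓ (x * u⁻¹) := fun x u hu => csInf_le (hb x) ⟨u, hu, rfl⟩
  have hlt : ∀ x t, d x < t → ∃ u ∈ U, ℓ (x * u⁻¹) < t := fun x t h => by
    obtain ⟨_, ⟨u, hu, rfl⟩, h'⟩ := exists_lt_of_csInf_lt (hne x) h
    exact ⟨u, hu, h'⟩
  have h0 : ∀ x, 0 ≤ d x := fun x => le_csInf (hne x) (by rintro _ ⟨u, -, rfl⟩; exact hℓ.nonneg _)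
  have hlip : ∀ g x, d (g * x) ≤ ℓ g + d x := fun g x => by
    rw [← sub_le_iff_le_add']
    refine le_csInf (hne x) ?_
    rintro _ ⟨u, hu, rfl⟩
    have h2 := hle (g * x) u hu
    have h3 := hℓ.mul g (x * u⁻¹)
    rw [← mul_assoc] at h3
    simp only
    linarith
  have hm : Measurable d := by
    refine measurable_of_Iio fun t => IsOpen.measurableSet ?_
    have : d ⁻¹' Set.Iio t = {y | ℓ y < t} * U := by
      ext x
      constructor
      · intro hx
        obtain ⟨u, hu, h⟩ := hlt x t hx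
        exact ⟨_, h, u, hu, by simp⟩
      · rintro ⟨y, hy, u, hu, rfl⟩
        exact (hle _ u hu).trans_lt (by simpa using hy)
    rw [this]
    exact hU.mul_left
  refine ⟨fun x => max 0 (1 - d x), measurable_const.max (measurable_const.sub hm),
    fun x => le_max_left _ _, fun x => max_le zero_le_one (by linarith [h0 x]), fun x hx => ?_,
    fun x hx => ?_, fun g x => ?_⟩
  · have := hle x x hx
    rw [mul_inv_cancel, hℓ.one] at this
    simp [le_antisymm this (h0 x)]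
  · have : d x < 1 := by
      by_contra h
      exact hx (max_eq_left (by linarith))
    obtain ⟨u, hu, h⟩ := hlt x 1 this
    exact ⟨_, hℓU _ h, u, hu, by simp⟩
  · refine (abs_max_sub_max_le_max _ _ _ _).trans ?_
    have h2 := hlip g⁻¹ x
    have h3 := hlip g (g⁻¹ * x)
    rw [hℓ.inv] at h2
    rw [mul_inv_cancel_left] at h3
    refine max_le (by simpa using hℓ.nonneg g) (abs_le.2 ⟨by linarith, by linarith⟩)

/-- The space of bounded real functions. -/
abbrev Linf (G : Type) : Type := lp (fun _ : G => ℝ) ∞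

theorem gl1 [LocallyCompactSpace G] [T2Space G] {U : Set G} (hU : IsOpen U) (h1 : (1 : G) ∈ U)
    (hsym : ∀ x ∈ U, x⁻¹ ∈ U) (hc : IsCompact (closure U)) :
    ∃ c : ℝ, 0 < c ∧ ∀ ℓ ℓ' : G → ℝ, IsSN ℓ → IsSN ℓ' → (∀ g, ℓ g < 1 → g ∈ U) →
      (∀ g, ℓ' g < 1 → g ∈ U) → ∃ Δ : G → Linf G, IsSN (fun g => ‖Δ g‖) ∧
        (∀ g, ‖Δ g‖ < 1 → g ∈ U ^ 4) ∧ (∀ g, ‖Δ g‖ ≤ c) ∧ (∀ h ∈ U, ‖Δ h‖ ≤ c * ℓ h) ∧
        ∀ g, ∀ h ∈ U, ∀ b : ℝ, (∀ y ∈ closure U ^ 3, ℓ' (y⁻¹ * g * y) ≤ b) →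
          ‖Δ (g * h) - Δ g - Δ h‖ ≤ c * ℓ h * b := by
  borelize G
  let μ : Measure G := Measure.haar
  let K : Set G := closure U ^ 3
  have hK : IsCompact K := isCompact_pow hc 3
  have hUK : ∀ h ∈ U, ∀ y, h⁻¹ * y ∈ U * U → y ∈ K := by
    rintro h hh y ⟨a, ha, b, hb, he⟩
    have : y = h * a * b := by rw [mul_assoc]; exact (eq_mul_of_inv_mul_eq he.symm)
    rw [this]
    simp only [K, pow_succ, pow_zero, one_mul]
    exact Set.mul_mem_mul (Set.mul_mem_mul (subset_closure hh) (subset_closure ha))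
      (subset_closure hb)
  have hUK' : U ⊆ K := fun y hy => hUK 1 h1 y ⟨1, h1, y, hy, by simp⟩
  have hfin : μ K < ∞ := hK.measure_lt_top
  have hUfin : μ U ≠ ∞ := ((measure_mono hUK').trans_lt hfin).ne
  have hm : 0 < μ.real U := ENNReal.toReal_pos (hU.measure_ne_zero μ ⟨1, h1⟩) hUfin
  have hmK : 0 < μ.real K := hm.trans_le (measureReal_mono hUK' hfin.ne)
  have hbd : ∀ (F : G → ℝ) (a : ℝ), (∀ y, |F y| ≤ a) → (∀ y, y ∉ K → F y = 0) →
      |∫ y, F y ∂μ| ≤ a * μ.real K := by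
    intro F a ha h0
    rw [← setIntegral_eq_integral_of_forall_compl_eq_zero h0]
    exact norm_setIntegral_le_of_norm_le_const (f := F) hfin fun y _ => ha y
  have hint : ∀ (F : G → ℝ), Measurable F → (∀ y, |F y| ≤ 1) → (∀ y, y ∉ K → F y = 0) →
      Integrable F μ := by
    intro F hF ha h0
    exact (Measure.integrableOn_of_bounded hfin.ne hF.aestronglyMeasurable
      (Eventually.of_forall ha)).integrable_of_forall_notMem_eq_zero h0
  refine ⟨μ.real K / μ.real U, div_pos hmK hm, fun ℓ ℓ' hℓ hℓ' hℓU hℓU' => ?_⟩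
  obtain ⟨ψ, ψm, ψ0, ψ1, ψU, ψs, ψl⟩ := exists_bump hU h1 hℓ hℓU
  obtain ⟨η, ηm, η0, η1, ηU, ηs, ηl⟩ := exists_bump hU h1 hℓ' hℓU'
  have hψK : ∀ h ∈ U, ∀ y, y ∉ K → ψ (h⁻¹ * y) = 0 := fun h hh y hy => by
    by_contra hne
    exact hy (hUK h hh y (ψs _ hne))
  have hψK' : ∀ y, y ∉ K → ψ y = 0 := fun y hy => by simpa using hψK 1 h1 y hy
  have hI : ∀ h ∈ U, ∀ x, Integrable (fun y => ψ (h⁻¹ * y) * η (y⁻¹ * x)) μ := by
    intro h hh x
    refine hint _ ((ψm.comp (measurable_const_mul _)).mul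
      (ηm.comp (measurable_inv.mul_const _))) (fun y => ?_) (fun y hy => by simp [hψK h hh y hy])
    rw [abs_of_nonneg (mul_nonneg (ψ0 _) (η0 _))]
    exact mul_le_one₀ (ψ1 _) (η0 _) (η1 _)
  have hI1 : ∀ x, Integrable (fun y => ψ y * η (y⁻¹ * x)) μ := fun x => by simpa using hI 1 h1 x
  let φ : G → ℝ := fun x => ∫ y, ψ y * η (y⁻¹ * x) ∂μ
  have φ0 : ∀ x, 0 ≤ φ x := fun x => integral_nonneg fun y => mul_nonneg (ψ0 _) (η0 _)
  have φ1 : ∀ x, φ x ≤ μ.real K := fun x => by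
    have := hbd (fun y => ψ y * η (y⁻¹ * x)) 1 (fun y => by
      rw [abs_of_nonneg (mul_nonneg (ψ0 _) (η0 _))]
      exact mul_le_one₀ (ψ1 _) (η0 _) (η1 _)) (fun y hy => by simp [hψK' y hy])
    rw [one_mul] at this
    exact (le_abs_self _).trans this
  have φone : μ.real U ≤ φ 1 := by
    have := setIntegral_ge_of_const_le_real (c := 1) hU.measurableSet hUfin
      (f := fun y => ψ y * η (y⁻¹ * 1)) (fun y hy => by
        rw [mul_one, ψU y hy, ηU _ (hsym y hy), one_mul]) (hI1 1).integrableOn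
    rw [one_mul] at this
    exact this.trans (setIntegral_le_integral (hI1 1)
      (Eventually.of_forall fun y => mul_nonneg (ψ0 _) (η0 _)))
  have φs : ∀ x, φ x ≠ 0 → x ∈ U ^ 4 := by
    intro x hx
    by_contra hx'
    refine hx (integral_eq_zero_of_ae (Eventually.of_forall fun y => ?_))
    by_contra hne
    obtain ⟨h2, h3⟩ := mul_ne_zero_iff.1 hne
    refine hx' ?_
    rw [show (4 : ℕ) = 2 + 2 from rfl, pow_add, sq]
    exact ⟨y, ψs y h2, _, ηs _ h3, by simp⟩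
  have hD : ∀ h ∈ U, ∀ x, φ (h⁻¹ * x) - φ x = ∫ y, (ψ (h⁻¹ * y) - ψ y) * η (y⁻¹ * x) ∂μ := by
    intro h hh x
    have : φ (h⁻¹ * x) = ∫ y, ψ (h⁻¹ * y) * η (y⁻¹ * x) ∂μ := by
      simp only [φ]
      rw [← integral_mul_left_eq_self (fun y => ψ y * η (y⁻¹ * (h⁻¹ * x))) h⁻¹]
      simp [mul_assoc]
    rw [this]
    simp only [φ, sub_mul]
    rw [integral_sub (hI h hh x) (hI1 x)]
  have hbound : ∀ g x, ‖(φ (g⁻¹ * x) - φ x) / μ.real U‖ ≤ μ.real K / μ.real U := by
    intro g x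
    rw [norm_div, Real.norm_of_nonneg hm.le]
    refine div_le_div_of_nonneg_right (abs_le.2 ⟨?_, ?_⟩) hm.le
    · linarith [φ0 (g⁻¹ * x), φ1 x]
    · linarith [φ1 (g⁻¹ * x), φ0 x]
  let Δ : G → Linf G := fun g => ⟨fun x => (φ (g⁻¹ * x) - φ x) / μ.real U,
    memℓp_infty ⟨μ.real K / μ.real U, by rintro _ ⟨x, rfl⟩; exact hbound g x⟩⟩
  have hΔ : ∀ g x, Δ g x = (φ (g⁻¹ * x) - φ x) / μ.real U := fun g x => rfl
  have hΔle : ∀ g x, ‖Δ g x‖ ≤ ‖Δ g‖ := fun g x => lp.norm_apply_le_norm (by simp) (Δ g) x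
  have hinv : ∀ g, ‖Δ g⁻¹‖ ≤ ‖Δ g‖ := fun g => lp.norm_le_of_forall_le' _ fun x => by
    refine le_trans (le_of_eq ?_) (hΔle g (g * x))
    rw [hΔ, hΔ, inv_inv, inv_mul_cancel_left, norm_div, norm_div, norm_sub_rev]
  refine ⟨Δ, ⟨?_, fun g => le_antisymm (hinv g) (by simpa using hinv g⁻¹), fun g h => ?_⟩,
    fun g hg => ?_, fun g => lp.norm_le_of_forall_le' _ (hbound g), fun h hh => ?_,
    fun g h hh b hb => ?_⟩
  · refine le_antisymm (lp.norm_le_of_forall_le' _ fun x => ?_) (norm_nonneg _)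
    simp [hΔ]
  · refine lp.norm_le_of_forall_le' _ fun x => ?_
    have : Δ (g * h) x = Δ g x + Δ h (g⁻¹ * x) := by
      simp only [hΔ, mul_inv_rev, mul_assoc]; ring
    rw [this]
    exact (norm_add_le _ _).trans (add_le_add (hΔle _ _) (hΔle _ _))
  · have h2 := (hΔle g⁻¹ 1).trans_lt ((hinv g).trans_lt hg)
    rw [hΔ, inv_inv, mul_one, norm_div, Real.norm_of_nonneg hm.le, div_lt_one hm] at h2
    refine φs g fun h0 => ?_
    rw [h0, zero_sub, norm_neg, Real.norm_of_nonneg (φ0 1)] at h2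
    linarith
  · refine lp.norm_le_of_forall_le' _ fun x => ?_
    rw [hΔ, hD h hh, norm_div, Real.norm_of_nonneg hm.le, div_mul_eq_mul_div, mul_comm]
    refine div_le_div_of_nonneg_right (hbd _ _ (fun y => ?_) fun y hy => ?_) hm.le
    · rw [abs_mul, abs_of_nonneg (η0 _)]
      exact (mul_le_of_le_one_right (abs_nonneg _) (η1 _)).trans (ψl h y)
    · simp [hψK h hh y hy, hψK' y hy]
  · refine lp.norm_le_of_forall_le' _ fun x => ?_
    have hI2 : ∀ x, Integrable (fun y => (ψ (h⁻¹ * y) - ψ y) * η (y⁻¹ * x)) μ := fun x => by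
      simp only [sub_mul]
      exact (hI h hh x).sub (hI1 x)
    have : (Δ (g * h) - Δ g - Δ h) x =
        (∫ y, (ψ (h⁻¹ * y) - ψ y) * (η (y⁻¹ * (g⁻¹ * x)) - η (y⁻¹ * x)) ∂μ) / μ.real U := by
      simp only [mul_sub]
      rw [integral_sub (hI2 _) (hI2 _), ← hD h hh, ← hD h hh]
      simp only [lp.coeFn_sub, Pi.sub_apply, hΔ, mul_inv_rev, mul_assoc]
      ring
    rw [this, norm_div, Real.norm_of_nonneg hm.le, mul_assoc, div_mul_eq_mul_div, mul_comm]
    have hb0 : 0 ≤ b := (hℓ'.nonneg _).trans (hb 1 (hUK' h1))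
    refine div_le_div_of_nonneg_right (hbd _ _ (fun y => ?_) fun y hy => ?_) hm.le
    · by_cases hy : y ∈ K
      · rw [abs_mul]
        refine mul_le_mul (ψl h y) ?_ (abs_nonneg _) (hℓ.nonneg _)
        have := ηl (y⁻¹ * g * y) (y⁻¹ * x)
        rw [show (y⁻¹ * g * y)⁻¹ * (y⁻¹ * x) = y⁻¹ * (g⁻¹ * x) by group] at this
        exact this.trans (hb y hy)
      · simp [hψK h hh y hy, hψK' y hy, mul_nonneg (hℓ.nonneg h) hb0]
    · simp [hψK h hh y hy, hψK' y hy]

theorem exists_nhds_pow_subset {U : Set G} (hU : U ∈ 𝓝 (1 : G)) (n : ℕ) :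
    ∃ V : Set G, IsOpen V ∧ (1 : G) ∈ V ∧ (∀ x ∈ V, x⁻¹ ∈ V) ∧ V ^ n ⊆ U := by
  induction n generalizing U with
  | zero => exact ⟨Set.univ, isOpen_univ, trivial, fun _ _ => trivial, by
      simpa using mem_of_mem_nhds hU⟩
  | succ n ih =>
    obtain ⟨W, hW, hW1, hWU⟩ := exists_open_nhds_one_mul_subset hU
    obtain ⟨V, hV, hV1, hVs, hVW⟩ := ih (hW.mem_nhds hW1)
    refine ⟨V ∩ (W ∩ W⁻¹), hV.inter (hW.inter hW.inv), ⟨hV1, hW1, by simpa using hW1⟩,
      fun x hx => ⟨hVs x hx.1, hx.2.2, by simpa using hx.2.1⟩, ?_⟩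
    rw [pow_succ]
    exact (Set.mul_subset_mul ((Set.pow_subset_pow_left Set.inter_subset_left).trans hVW)
      (Set.inter_subset_right.trans Set.inter_subset_left)).trans hWU

theorem eventually_conj_mem {K V : Set G} (hK : IsCompact K) (hV : V ∈ 𝓝 (1 : G)) :
    ∀ᶠ g in 𝓝 (1 : G), ∀ y ∈ K, y⁻¹ * g * y ∈ V := by
  refine hK.eventually_forall_of_forall_eventually fun y _ => ?_
  have : Tendsto (fun p : G × G => p.2⁻¹ * p.1 * p.2) (𝓝 (1, y)) (𝓝 1) := by
    have := (by fun_prop : Continuous (fun p : G × G => p.2⁻¹ * p.1 * p.2)).tendsto (1, y)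
    simpa using this
  exact this hV

theorem gl2 [LocallyCompactSpace G] [T2Space G] {U : Set G} (hU : IsOpen U) (h1 : (1 : G) ∈ U)
    (hsym : ∀ x ∈ U, x⁻¹ ∈ U) (hc : IsCompact (closure U)) :
    ∃ c : ℝ, 0 < c ∧ ∀ L : ℕ, 0 < L → ∃ V ∈ 𝓝 (1 : G), ∀ ℓ : G → ℝ, IsSN ℓ →
      (∀ g, ℓ g < 1 → g ∈ U) → ∃ ν : G → ℝ, IsSN ν ∧ (∀ g, ν g < 1 → g ∈ U ^ 4) ∧
        (∀ g, ν g ≤ c) ∧ ∀ g ∈ U, ∀ n : ℕ, 0 < n → (∀ i < n, g ^ i ∈ V) →
          ν g ≤ c / n + c * ℓ g / L := by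
  obtain ⟨c, hc0, H⟩ := gl1 hU h1 hsym hc
  refine ⟨c, hc0, fun L hL => ?_⟩
  obtain ⟨W, hW, hW1, hWs, hWU⟩ := exists_nhds_pow_subset (hU.mem_nhds h1) L
  obtain ⟨ℓ', hℓ', hℓ'W, hℓ'U⟩ := exists_wordSN W hW1 hWs L hL
  refine ⟨_, eventually_conj_mem (isCompact_pow hc 3) (hW.mem_nhds hW1), fun ℓ hℓ hℓU => ?_⟩
  obtain ⟨Δ, h2, h3, h4, -, h5⟩ := H ℓ ℓ' hℓ hℓ' hℓU fun g hg => hWU (hℓ'U g hg)
  refine ⟨_, h2, h3, h4, fun g hg n hn hV => ?_⟩
  have key : ∀ k ≤ n, ‖(k : ℝ) • Δ g - Δ (g ^ k)‖ ≤ k * (c * ℓ g * (1 / L)) := by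
    intro k
    induction k with
    | zero =>
      intro _
      simpa using h2.one.le
    | succ k ih =>
      intro hk
      have h6 := h5 (g ^ k) g hg (1 / L) fun y hy => hℓ'W _ (hV k hk y hy)
      have h7 : ((k + 1 : ℕ) : ℝ) • Δ g - Δ (g ^ (k + 1)) =
          ((k : ℝ) • Δ g - Δ (g ^ k)) - (Δ (g ^ k * g) - Δ (g ^ k) - Δ g) := by
        rw [pow_succ]; push_cast; rw [add_smul, one_smul]; abel
      rw [h7]
      refine (norm_sub_le _ _).trans ?_
      have := ih (by omega)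
      push_cast
      linarith
  have hn' : (0 : ℝ) < n := by exact_mod_cast hn
  have h6 : ‖(n : ℝ) • Δ g‖ ≤ c + n * (c * ℓ g * (1 / L)) := by
    have := norm_add_le (Δ (g ^ n)) ((n : ℝ) • Δ g - Δ (g ^ n))
    rw [add_sub_cancel] at this
    linarith [key n le_rfl, h4 (g ^ n)]
  rw [norm_smul, Real.norm_of_nonneg hn'.le] at h6
  have : c / n + c * ℓ g / L = (c + n * (c * ℓ g * (1 / L))) / n := by field_simp
  rw [this, le_div_iff₀' hn']
  exact h6

end

end Pool.Agent.MP_45783b_al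

end MrgPart2

-- marker of a merged file
example : 731051 + 312660 = 731051 + 312660 := rfl
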