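import Mathlib.Tactic.Monotonicity.Lemmas
import Pool.Agent.MP_45783b_al.Gleason1
import Pool.Agent.MP_45783b_al.PW

-- ======== part 0: formerly Pool.Agent.MP_45783b_al.Trap
section MrgPart0

/-!
Subgroup trapping in locally compact groups.
-/

set_option autoImplicit false

namespace Pool.Agent.MP_45783b_al

open Topology Filter
open scoped Pointwise

section

variable {G : Type} [Group G]

/-- The union of the subgroups contained in a set. -/
def QS (V : Set G) : Set G := {x | ∀ k : ℤ, x ^ k ∈ V}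

theorem QS_subset (V : Set G) : QS V ⊆ V := fun x hx => by simpa using hx 1

theorem QS_mono {V W : Set G} (h : V ⊆ W) : QS V ⊆ QS W := fun _ hx k => h (hx k)

theorem QS_inv (V : Set G) : ∀ x ∈ QS V, x⁻¹ ∈ QS V := fun x hx k => by
  simpa using hx (-k)

theorem one_mem_QS {V : Set G} (h : (1 : G) ∈ V) : (1 : G) ∈ QS V := fun k => by simpa using h

theorem inv_mem_pow {Q : Set G} (hQ : ∀ x ∈ Q, x⁻¹ ∈ Q) (n : ℕ) : ∀ x ∈ Q ^ n, x⁻¹ ∈ Q ^ n := by
  induction n with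
  | zero => simp
  | succ n ih =>
    intro x hx
    rw [pow_succ] at hx
    obtain ⟨a, ha, b, hb, rfl⟩ := hx
    rw [pow_succ']
    exact ⟨_, hQ b hb, _, ih a ha, by simp⟩

theorem IsSN.le_of_mem_pow {ν : G → ℝ} (hν : IsSN ν) {Q : Set G} {a : ℝ} (h : ∀ x ∈ Q, ν x ≤ a)
    (n : ℕ) : ∀ x ∈ Q ^ n, ν x ≤ n * a := by
  induction n with
  | zero => simp [hν.one]
  | succ n ih =>
    intro x hx
    rw [pow_succ] at hx
    obtain ⟨y, hy, b, hb, rfl⟩ := hx
    have := hν.mul y b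
    push_cast
    linarith [ih y hy, h b hb]

variable [TopologicalSpace G] [IsTopologicalGroup G]

theorem finite_trap [LocallyCompactSpace G] [T2Space G] {U : Set G} (hU : IsOpen U)
    (h1 : (1 : G) ∈ U) (hsym : ∀ x ∈ U, x⁻¹ ∈ U) (hc : IsCompact (closure U)) (m : ℕ) :
    ∃ V₀ ∈ 𝓝 (1 : G), ∀ V : Set G, (1 : G) ∈ V → V ⊆ V₀ → ∀ n : ℕ, 0 < n → QS V ^ n ⊆ U →
      QS V ^ (m * n) ⊆ U ^ 4 := by
  obtain ⟨c, hc0, H⟩ := gl2 hU h1 hsym hc
  obtain ⟨L, hL⟩ := exists_nat_gt (c * m)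
  have hL0 : (0 : ℝ) < L := lt_of_le_of_lt (by positivity) hL
  obtain ⟨V₀, hV₀, H⟩ := H L (by exact_mod_cast hL0)
  refine ⟨V₀, hV₀, fun V hV1 hV n hn hQ x hx => ?_⟩
  obtain ⟨ℓ, hℓ, hℓQ, hℓU⟩ := exists_wordSN (QS V) (one_mem_QS hV1) (QS_inv V) n hn
  obtain ⟨ν, hν, hν1, -, hν2⟩ := H ℓ hℓ fun g hg => hQ (hℓU g hg)
  have hn' : (0 : ℝ) < n := by exact_mod_cast hn
  have h2 : ∀ q ∈ QS V, ν q ≤ c * (1 / n) / L := by
    intro q hq
    have hqU : q ∈ U := hQ (Set.subset_pow (one_mem_QS hV1) hn.ne' hq)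
    have h3 : ∀ N : ℕ, 0 < N → ν q ≤ c / N + c * (1 / n) / L := fun N hN =>
      (hν2 q hqU N hN fun i _ => hV (by simpa using hq i)).trans (by
        gcongr
        exact hℓQ q hq)
    have h4 : Tendsto (fun N : ℕ => c / N + c * (1 / n) / L) atTop (𝓝 (0 + c * (1 / n) / L)) :=
      (tendsto_const_div_atTop_nhds_zero_nat c).add_const _
    rw [zero_add] at h4
    exact ge_of_tendsto h4 (eventually_atTop.2 ⟨1, h3⟩)
  refine hν1 x ((hν.le_of_mem_pow h2 _ x hx).trans_lt ?_)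
  have : ((m * n : ℕ) : ℝ) * (c * (1 / n) / L) = c * m / L := by
    push_cast; field_simp
  rw [this, div_lt_one hL0]
  exact hL

theorem pw_subgroup [T2Space G] {K : Subgroup G} (hK : IsCompact (K : Set G)) {O : Set G}
    (hO : IsOpen O) (h1 : (1 : G) ∈ O) :
    ∃ (N : Subgroup G) (B : Set G), IsCompact (N : Set G) ∧ (N : Set G) ⊆ O ∧ IsOpen B ∧
      (N : Set G) ⊆ B ∧ ∀ x ∈ K, (∀ k : ℕ, x ^ k ∈ B) → x ∈ N := by
  have : CompactSpace K := isCompact_iff_compactSpace.1 hK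
  obtain ⟨N, B, hN, hNO, hB, hNB, h⟩ := peterWeyl_nhds (H := K) (O := Subtype.val ⁻¹' O)
    (hO.preimage continuous_subtype_val) h1
  obtain ⟨B', hB', rfl⟩ := isOpen_induced_iff.1 hB
  refine ⟨N.map K.subtype, B', hN.isCompact.image continuous_subtype_val, ?_, hB', ?_, ?_⟩
  · rintro _ ⟨x, hx, rfl⟩
    exact hNO hx
  · rintro _ ⟨x, hx, rfl⟩
    exact hNB hx
  · intro x hx hk
    exact ⟨⟨x, hx⟩, h _ hk, rfl⟩

theorem exists_thick {N : Subgroup G} (hN : IsCompact (N : Set G)) {B : Set G} (hB : IsOpen B)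
    (hNB : (N : Set G) ⊆ B) :
    ∃ W : Set G, IsOpen W ∧ (N : Set G) ⊆ W ∧ (∀ x ∈ W, x⁻¹ ∈ W) ∧ W * W ⊆ B := by
  obtain ⟨u, v, hu, hv, hNu, hNv, h⟩ := generalized_tube_lemma hN hN
    (n := (fun p : G × G => p.1 * p.2) ⁻¹' B) (hB.preimage continuous_mul)
    (fun p hp => hNB (N.mul_mem hp.1 hp.2))
  refine ⟨(u ∩ v) ∩ (u ∩ v)⁻¹, (hu.inter hv).inter (hu.inter hv).inv,
    fun x hx => ⟨⟨hNu hx, hNv hx⟩, hNu (N.inv_mem hx), hNv (N.inv_mem hx)⟩,
    fun x hx => ⟨hx.2, by simpa using hx.1⟩, ?_⟩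
  rintro _ ⟨a, ha, b, hb, rfl⟩
  exact h (Set.mk_mem_prod ha.1.1 hb.1.2)

theorem exists_good_nhds [LocallyCompactSpace G] [T2Space G] {U : Set G} (hU : U ∈ 𝓝 (1 : G)) :
    ∃ W : Set G, IsOpen W ∧ (1 : G) ∈ W ∧ (∀ x ∈ W, x⁻¹ ∈ W) ∧ IsCompact (closure W) ∧ W ⊆ U := by
  obtain ⟨C, hC, hC1⟩ := exists_compact_mem_nhds (1 : G)
  obtain ⟨W, h1, h2, h3, h4⟩ := exists_nhds_pow_subset (inter_mem hU hC1) 1
  rw [pow_one] at h4
  exact ⟨W, h1, h2, h3, hC.closure_of_subset (h4.trans Set.inter_subset_right),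
    h4.trans Set.inter_subset_left⟩

theorem subgroup_trap [LocallyCompactSpace G] [T2Space G] {U₀ : Set G} (hU₀ : U₀ ∈ 𝓝 (1 : G)) :
    ∃ V ∈ 𝓝 (1 : G), ∀ n : ℕ, QS V ^ n ⊆ U₀ := by
  obtain ⟨U, hU, hU1, hUs, hUc, hUU⟩ := exists_good_nhds hU₀
  by_contra hcon
  push Not at hcon
  have hN : ∀ V W : Set G, ∃ N : ℕ, V ∈ 𝓝 (1 : G) → V ⊆ W → W ⊆ U →
      0 < N ∧ QS V ^ N ⊆ W ∧ ¬ QS V ^ (N + 1) ⊆ W := by
    intro V W
    by_cases h : V ∈ 𝓝 (1 : G) ∧ V ⊆ W ∧ W ⊆ U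
    · have hex : ∃ n, ¬ QS V ^ (n + 1 + 1) ⊆ W := by
        obtain ⟨n, hn⟩ := hcon V h.1
        exact ⟨n, fun h' => hn ((Set.pow_subset_pow_right (one_mem_QS (mem_of_mem_nhds h.1))
          (by omega)).trans (h'.trans (h.2.2.trans hUU)))⟩
      classical
      refine ⟨Nat.find hex + 1, fun _ _ _ => ⟨by omega, ?_, Nat.find_spec hex⟩⟩
      rcases Nat.eq_zero_or_pos (Nat.find hex) with h0 | h0
      · rw [h0, zero_add, pow_one]
        exact (QS_subset V).trans h.2.1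
      · have := Nat.find_min hex (m := Nat.find hex - 1) (by omega)
        rwa [not_not, Nat.sub_add_cancel h0] at this
    · exact ⟨0, fun h1 h2 h3 => (h ⟨h1, h2, h3⟩).elim⟩
  choose N hN using hN
  have hne : ((𝓝 (1 : G)).smallSets ⊓ 𝓟 {V | V ∈ 𝓝 (1 : G)}).NeBot :=
    frequently_iff_neBot.1 (frequently_smallSets_mem _)
  let 𝒰 : Ultrafilter (Set G) := Ultrafilter.of ((𝓝 (1 : G)).smallSets ⊓ 𝓟 {V | V ∈ 𝓝 (1 : G)})
  have h𝒰 : ∀ W ∈ 𝓝 (1 : G), ∀ᶠ V in (𝒰 : Filter (Set G)), V ∈ 𝓝 (1 : G) ∧ V ⊆ W := by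
    intro W hW
    have h1 := Ultrafilter.of_le ((𝓝 (1 : G)).smallSets ⊓ 𝓟 {V | V ∈ 𝓝 (1 : G)})
    exact Eventually.and (h1.trans inf_le_right (mem_principal_self _))
      (h1.trans inf_le_left (eventually_smallSets_subset.2 hW))
  let H : Set G → Subgroup G := fun W =>
    { carrier := {x | ∃ (m : ℕ) (f : Set G → G),
        (∀ᶠ V in (𝒰 : Filter (Set G)), f V ∈ QS V ^ (m * N V W)) ∧ Tendsto f 𝒰 (𝓝 x)}
      one_mem' := ⟨0, fun _ => 1, Eventually.of_forall fun V => by simp, tendsto_const_nhds⟩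
      mul_mem' := by
        rintro a b ⟨m, f, hf, hf'⟩ ⟨m', f', hg, hg'⟩
        refine ⟨m + m', fun V => f V * f' V, ?_, hf'.mul hg'⟩
        filter_upwards [hf, hg] with V h1 h2
        rw [add_mul, pow_add]
        exact Set.mul_mem_mul h1 h2
      inv_mem' := by
        rintro a ⟨m, f, hf, hf'⟩
        refine ⟨m, fun V => (f V)⁻¹, ?_, hf'.inv⟩
        filter_upwards [hf] with V h1
        exact inv_mem_pow (QS_inv V) _ _ h1 }
  have htrap : ∀ W : Set G, IsOpen W → (1 : G) ∈ W → (∀ x ∈ W, x⁻¹ ∈ W) → W ⊆ U → ∀ m : ℕ,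
      ∀ᶠ V in (𝒰 : Filter (Set G)), QS V ^ (m * N V W) ⊆ W ^ 4 := by
    intro W hW hW1 hWs hWU m
    obtain ⟨V₀, hV₀, h⟩ := finite_trap hW hW1 hWs
      (hUc.of_isClosed_subset isClosed_closure (closure_mono hWU)) m
    filter_upwards [h𝒰 V₀ hV₀, h𝒰 W (hW.mem_nhds hW1)] with V h1 h2
    obtain ⟨h3, h4, -⟩ := hN V W h1.1 h2.2 hWU
    exact h V (mem_of_mem_nhds h1.1) h1.2 _ h3 h4
  have hH1 : ∀ W : Set G, IsOpen W → (1 : G) ∈ W → (∀ x ∈ W, x⁻¹ ∈ W) → W ⊆ U →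
      (H W : Set G) ⊆ closure (W ^ 4) := by
    rintro W hW hW1 hWs hWU x ⟨m, f, hf, hf'⟩
    refine mem_closure_of_tendsto hf' ?_
    filter_upwards [hf, htrap W hW hW1 hWs hWU m] with V h1 h2 using h2 h1
  have hK : IsCompact ((H U).topologicalClosure : Set G) := by
    refine (isCompact_pow hUc 4).of_isClosed_subset (Subgroup.isClosed_topologicalClosure _) ?_
    refine closure_minimal ((hH1 U hU hU1 hUs subset_rfl).trans (closure_minimal
      (Set.pow_subset_pow_left subset_closure) ?_)) ?_ <;> exact (isCompact_pow hUc 4).isClosed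
  obtain ⟨M, B, hM, hMU, hB, hMB, hMx⟩ := pw_subgroup hK hU hU1
  obtain ⟨W₁, hW₁, hMW₁, -, hW₁B⟩ := exists_thick hM (hB.inter hU) (Set.subset_inter hMB hMU)
  obtain ⟨W₂, hW₂, hMW₂, -, hW₂B⟩ := exists_thick hM hW₁ hMW₁
  obtain ⟨W, hW, hMW, hWs, hWB⟩ := exists_thick hM hW₂ hMW₂
  have hW1 : (1 : G) ∈ W := hMW M.one_mem
  have h4 : W ^ 4 ⊆ W₁ := by
    rw [show (4 : ℕ) = 2 + 2 from rfl, pow_add, sq]
    exact (Set.mul_subset_mul hWB hWB).trans hW₂B
  have h5 : closure (W ^ 4) ⊆ B ∩ U :=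
    (closure_mono h4).trans ((closure_subset_mul_self_of_mem_nhds_one
      (hW₁.mem_nhds (hMW₁ M.one_mem))).trans hW₁B)
  have hWU : W ⊆ U := (Set.subset_pow hW1 (by norm_num)).trans
    (subset_closure.trans (h5.trans Set.inter_subset_right))
  have hex : ∀ V : Set G, ∃ y, V ∈ 𝓝 (1 : G) → V ⊆ W → y ∈ QS V ^ (2 * N V W) ∧ y ∉ W := by
    intro V
    by_cases h : V ∈ 𝓝 (1 : G) ∧ V ⊆ W
    · obtain ⟨h1, -, h3⟩ := hN V W h.1 h.2 hWU
      obtain ⟨y, hy, hy'⟩ := Set.not_subset.1 h3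
      exact ⟨y, fun _ _ => ⟨Set.pow_subset_pow_right (one_mem_QS (mem_of_mem_nhds h.1))
        (by omega) hy, hy'⟩⟩
    · exact ⟨1, fun h1 h2 => (h ⟨h1, h2⟩).elim⟩
  choose f hf using hex
  have hf1 : ∀ᶠ V in (𝒰 : Filter (Set G)), f V ∈ QS V ^ (2 * N V W) ∧ f V ∉ W := by
    filter_upwards [h𝒰 W (hW.mem_nhds hW1)] with V h using hf V h.1 h.2
  obtain ⟨x, -, hx⟩ := hUc.ultrafilter_le_nhds (𝒰.map f) (by
    rw [le_principal_iff, Ultrafilter.coe_map, mem_map]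
    filter_upwards [hf1, htrap W hW hW1 hWs hWU 2] with V h1 h2
    exact subset_closure (h5 (subset_closure (h2 h1.1))).2)
  have hxH : x ∈ H W := ⟨2, f, hf1.mono fun V h => h.1, hx⟩
  have hxW : x ∉ W := hW.isClosed_compl.mem_of_tendsto hx (hf1.mono fun V h => h.2)
  have hxU : x ∈ H U := by
    refine ⟨2, f, ?_, hx⟩
    filter_upwards [hf1, h𝒰 W (hW.mem_nhds hW1)] with V h1 h2
    have h1V := one_mem_QS (mem_of_mem_nhds h2.1)
    refine Set.pow_subset_pow_right h1V ?_ h1.1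
    obtain ⟨-, h3, -⟩ := hN V W h2.1 h2.2 hWU
    obtain ⟨-, -, h6⟩ := hN V U h2.1 (h2.2.trans hWU) subset_rfl
    by_contra hlt
    exact h6 ((Set.pow_subset_pow_right h1V (by omega)).trans (h3.trans hWU))
  exact hxW (hMW (hMx x ((H U).le_topologicalClosure hxU) fun k =>
    (h5 (hH1 W hW hW1 hWs hWU ((H W).pow_mem hxH k))).1))

theorem trap_main [LocallyCompactSpace G] [T2Space G] :
    ∃ (N : Subgroup G) (O : Set G), IsCompact (N : Set G) ∧ IsOpen O ∧ (N : Set G) ⊆ O ∧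
      QS O ⊆ N := by
  obtain ⟨C, hC, hC1⟩ := exists_compact_mem_nhds (1 : G)
  obtain ⟨V₀, hV₀, hV⟩ := subgroup_trap hC1
  obtain ⟨V, hVV, hVo, hV1⟩ := mem_nhds_iff.1 hV₀
  let H : Subgroup G :=
    { carrier := {x | ∃ n : ℕ, x ∈ QS V ^ n}
      one_mem' := ⟨0, by simp⟩
      mul_mem' := by
        rintro a b ⟨m, hm⟩ ⟨n, hn⟩
        exact ⟨m + n, by rw [pow_add]; exact Set.mul_mem_mul hm hn⟩
      inv_mem' := by
        rintro a ⟨m, hm⟩
        exact ⟨m, inv_mem_pow (QS_inv V) _ _ hm⟩ }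
  have hK : IsCompact (H.topologicalClosure : Set G) := by
    refine hC.closure_of_subset ?_
    rintro x ⟨n, hn⟩
    exact hV n (Set.pow_subset_pow_left (QS_mono hVV) hn)
  obtain ⟨M, B, hM, hMU, hB, hMB, hMx⟩ := pw_subgroup hK hVo hV1
  refine ⟨M, V ∩ B, hM, hVo.inter hB, Set.subset_inter hMU hMB, fun x hx => ?_⟩
  refine hMx x (H.le_topologicalClosure ⟨1, ?_⟩) fun k => ?_
  · rw [pow_one]
    exact QS_mono Set.inter_subset_left hx
  · simpa using (hx k).2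

/-- No small subgroups. -/
def NSS (G : Type) [Group G] [TopologicalSpace G] : Prop :=
  ∃ O ∈ 𝓝 (1 : G), ∀ x ∈ QS O, x = 1

theorem exists_nss_quotient [LocallyCompactSpace G] [T2Space G] (hG : NPO G) :
    ∃ (N : Subgroup G) (_ : N.Normal), IsCompact (N : Set G) ∧ NSS (G ⧸ N) := by
  obtain ⟨N, O, hN, hO, hNO, hQ⟩ := trap_main (G := G)
  have h1 : ∀ g : G, ∀ x ∈ N, g⁻¹ * x * g ∈ N := by
    refine hG.of_nhds _ ?_ ?_
    · intro a b ha hb x hx
      have := hb _ (ha x hx)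
      rwa [show b⁻¹ * (a⁻¹ * x * a) * b = (a * b)⁻¹ * x * (a * b) by group] at this
    · have : ∀ᶠ g in 𝓝 (1 : G), ∀ x ∈ (N : Set G), g⁻¹ * x * g ∈ O := by
        refine hN.eventually_forall_of_forall_eventually fun x hx => ?_
        have h2 := (by fun_prop : Continuous (fun p : G × G => p.1⁻¹ * p.2 * p.1)).tendsto (1, x)
        exact h2 (hO.mem_nhds (by simpa using hNO hx))
      filter_upwards [this] with g hg x hx
      refine hQ fun k => ?_
      have h3 := hg _ (N.zpow_mem hx k)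
      rwa [show g⁻¹ * x ^ k * g = (g⁻¹ * x * g) ^ k by
        have := (conj_zpow (a := g⁻¹) (b := x) (i := k))
        rw [inv_inv] at this
        exact this.symm] at h3
  have hn : N.Normal := ⟨fun x hx g => by simpa using h1 g⁻¹ x hx⟩
  refine ⟨N, hn, hN, QuotientGroup.mk '' {g | ∀ x ∈ (N : Set G), g * x ∈ O},
    QuotientGroup.isOpenMap_coe.image_mem_nhds ?_, fun x hx => ?_⟩
  · refine hN.eventually_forall_of_forall_eventually fun x hx => ?_
    have h2 := (continuous_mul (M := G)).tendsto (1, x)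
    exact h2 (hO.mem_nhds (by simpa using hNO hx))
  · obtain ⟨y, rfl⟩ := QuotientGroup.mk_surjective x
    refine (QuotientGroup.eq_one_iff y).2 (hQ fun k => ?_)
    obtain ⟨z, hz, he⟩ := hx k
    rw [← QuotientGroup.mk_zpow, QuotientGroup.eq] at he
    simpa using hz _ he

end

end Pool.Agent.MP_45783b_al

end MrgPart0

-- ======== part 1: formerly Pool.Agent.MP_45783b_al.NSS
section MrgPart1

/-!
Gleason metrics on groups without small subgroups.
-/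

set_option autoImplicit false

namespace Pool.Agent.MP_45783b_al

open Topology Filter
open scoped Pointwise

section

variable {G : Type} [Group G]

/-- The escape norm. -/
noncomputable def esc (U : Set G) (g : G) : ℝ :=
  sInf {r | ∃ n : ℕ, (∀ i ≤ n, g ^ i ∈ U) ∧ r = 1 / (n + 1)}

theorem esc_bdd (U : Set G) (g : G) :
    ∀ r ∈ {r : ℝ | ∃ n : ℕ, (∀ i ≤ n, g ^ i ∈ U) ∧ r = 1 / (n + 1)}, 0 ≤ r := by
  rintro _ ⟨n, -, rfl⟩
  positivity

theorem esc_nonneg (U : Set G) (g : G) : 0 ≤ esc U g := Real.sInf_nonneg (esc_bdd U g)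

theorem esc_le {U : Set G} {g : G} {n : ℕ} (h : ∀ i ≤ n, g ^ i ∈ U) : esc U g ≤ 1 / (n + 1) :=
  csInf_le ⟨0, esc_bdd U g⟩ ⟨n, h, rfl⟩

theorem esc_le_one {U : Set G} (h1 : (1 : G) ∈ U) (g : G) : esc U g ≤ 1 := by
  simpa using esc_le (U := U) (g := g) (n := 0) (by simpa using h1)

theorem pow_mem_of_esc {U : Set G} (h1 : (1 : G) ∈ U) {g : G} {n : ℕ} (h : n * esc U g < 1) :
    ∀ i ≤ n, g ^ i ∈ U := by
  rcases Nat.eq_zero_or_pos n with rfl | hn
  · simpa using h1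
  have hn' : (0 : ℝ) < n := by exact_mod_cast hn
  rw [← lt_div_iff₀' hn'] at h
  obtain ⟨_, ⟨k, hk, rfl⟩, h'⟩ := exists_lt_of_csInf_lt
    (s := {r : ℝ | ∃ n : ℕ, (∀ i ≤ n, g ^ i ∈ U) ∧ r = 1 / (n + 1)})
    ⟨_, 0, by simpa using h1, rfl⟩ h
  have : (n : ℝ) < k + 1 := lt_of_one_div_lt_one_div (by positivity) h'
  have : n < k + 1 := by exact_mod_cast this
  exact fun i hi => hk i (by omega)

theorem mem_of_esc {U : Set G} (h1 : (1 : G) ∈ U) {g : G} (h : esc U g < 1) : g ∈ U := by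
  simpa using pow_mem_of_esc h1 (n := 1) (by simpa using h) 1 le_rfl

theorem esc_le_of {U : Set G} {g : G} {a : ℝ} (ha : 0 ≤ a)
    (h : ∀ n : ℕ, n * a < 1 → ∀ i ≤ n, g ^ i ∈ U) : esc U g ≤ a := by
  by_contra hlt
  push Not at hlt
  have he : 0 < esc U g := ha.trans_lt hlt
  have h1 : (⌊1 / esc U g⌋₊ : ℝ) ≤ 1 / esc U g := Nat.floor_le (by positivity)
  have h2 := Nat.lt_floor_add_one (1 / esc U g)
  have h3 := esc_le (h ⌊1 / esc U g⌋₊ (by
    calc (⌊1 / esc U g⌋₊ : ℝ) * a ≤ 1 / esc U g * a := by gcongr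
      _ < 1 := by rw [one_div_mul_eq_div, div_lt_one he]; exact hlt))
  rw [le_div_iff₀ (by positivity)] at h3
  rw [div_lt_iff₀' he] at h2
  linarith

theorem esc_conj {U V : Set G} (h1 : (1 : G) ∈ V) {y : G} (h : ∀ x ∈ V, y⁻¹ * x * y ∈ U) (g : G) :
    esc U (y⁻¹ * g * y) ≤ esc V g := by
  refine esc_le_of (esc_nonneg _ _) fun n hn i hi => ?_
  have := h _ (pow_mem_of_esc h1 hn i hi)
  have h2 := conj_pow (a := y⁻¹) (b := g) (i := i)
  rw [inv_inv] at h2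
  rwa [h2]

theorem esc_inv {U : Set G} (hs : ∀ x ∈ U, x⁻¹ ∈ U) (g : G) : esc U g⁻¹ = esc U g := by
  have hQ' : ∀ x, x⁻¹ ∈ U ↔ x ∈ U := fun x => ⟨fun h => by simpa using hs _ h, hs x⟩
  simp only [esc, inv_pow, hQ']

theorem esc_one {U : Set G} (h1 : (1 : G) ∈ U) : esc U 1 = 0 :=
  le_antisymm (esc_le_of le_rfl fun _ _ i _ => by simpa using h1) (esc_nonneg _ _)

theorem esc_le_sn {D : Set G} {ν : G → ℝ} (hν : IsSN ν) (h : ∀ g, ν g < 1 → g ∈ D) (g : G) :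
    esc D g ≤ ν g := by
  refine esc_le_of (hν.nonneg g) fun n hn i hi => h _ ((hν.pow g i).trans_lt (lt_of_le_of_lt ?_ hn))
  exact mul_le_mul_of_nonneg_right (by exact_mod_cast hi) (hν.nonneg g)

variable [TopologicalSpace G] [IsTopologicalGroup G]

theorem esc_compare [T2Space G] {D V : Set G} (hD : IsCompact D) (h1 : (1 : G) ∈ D)
    (hnss : ∀ x : G, (∀ k : ℕ, x ^ k ∈ D) → x = 1) (hV : V ∈ 𝓝 (1 : G)) :
    ∃ m : ℝ, 0 < m ∧ ∀ g, esc V g ≤ m * esc D g := by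
  have : ∃ m : ℕ, ∀ g, (∀ i ≤ m + 1, g ^ i ∈ D) → g ∈ V := by
    by_contra hcon
    push Not at hcon
    have hcl : ∀ m : ℕ, IsClosed ((interior V)ᶜ ∩ {g | ∀ i ≤ m + 1, g ^ i ∈ D}) := by
      intro m
      refine isOpen_interior.isClosed_compl.inter ?_
      simp only [Set.ofPred_forall]
      exact isClosed_iInter fun i => isClosed_iInter fun _ =>
        hD.isClosed.preimage (continuous_pow i)
    obtain ⟨x, hx⟩ := IsCompact.nonempty_iInter_of_sequence_nonempty_isCompact_isClosed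
      (fun m : ℕ => (interior V)ᶜ ∩ {g | ∀ i ≤ m + 1, g ^ i ∈ D})
      (fun m g hg => ⟨hg.1, fun i hi => hg.2 i (by omega)⟩)
      (fun m => by
        obtain ⟨g, hg, hg'⟩ := hcon m
        exact ⟨g, fun h => hg' (interior_subset h), hg⟩)
      (hD.of_isClosed_subset (hcl 0) fun g hg => by simpa using hg.2 1 le_rfl) hcl
    rw [Set.mem_iInter] at hx
    have h2 := hnss x fun k => (hx k).2 k (by omega)
    exact (hx 0).1 (h2 ▸ mem_interior_iff_mem_nhds.2 hV)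
  obtain ⟨m, hm⟩ := this
  refine ⟨(m + 1 : ℕ), by positivity, fun g => esc_le_of
    (mul_nonneg (by positivity) (esc_nonneg _ _)) fun n hn j hj => hm _ fun i hi => ?_⟩
  rw [← pow_mul]
  refine pow_mem_of_esc h1 (n := n * (m + 1)) ?_ _ (Nat.mul_le_mul hj hi)
  rw [Nat.cast_mul, mul_assoc]
  exact hn

theorem approx_triangle [LocallyCompactSpace G] [T2Space G] {U : Set G} (hU : IsOpen U)
    (h1 : (1 : G) ∈ U) (hsym : ∀ x ∈ U, x⁻¹ ∈ U) (hc : IsCompact (closure U))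
    (hnss : ∀ x : G, (∀ k : ℕ, x ^ k ∈ closure U ^ 4) → x = 1) :
    ∃ M : ℝ, 0 < M ∧ ∀ g, esc U g ≤ M * cost (esc U) g := by
  have hD := isCompact_pow hc 4
  have hD1 : (1 : G) ∈ closure U ^ 4 := Set.one_mem_pow (subset_closure h1)
  have hUD : U ⊆ closure U ^ 4 :=
    subset_closure.trans (Set.subset_pow (subset_closure h1) (by norm_num))
  obtain ⟨c, hc0, H⟩ := gl2 hU h1 hsym hc
  obtain ⟨m, hm0, hm⟩ := esc_compare hD hD1 hnss (hU.mem_nhds h1)
  obtain ⟨L, hL⟩ := exists_nat_gt (2 * c * m)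
  have hL0 : (0 : ℝ) < L := lt_of_le_of_lt (by positivity) hL
  obtain ⟨V, hV, H⟩ := H L (by exact_mod_cast hL0)
  obtain ⟨m', hm0', hm'⟩ := esc_compare hD hD1 hnss hV
  have hV1 := mem_of_mem_nhds hV
  have hDU : ∀ g, esc (closure U ^ 4) g ≤ esc U g := fun g => by
    simpa using esc_conj (U := closure U ^ 4) h1 (y := 1) (fun x hx => by simpa using hUD hx) g
  set B : ℝ := m * (c * m' + c) with hB
  have hB0 : 0 < B := by positivity
  have key : ∀ ε : ℝ, 0 < ε → ∀ g, esc U g ≤ 2 * B * cost (fun x => esc U x + ε) g := by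
    intro ε hε
    set w : G → ℝ := fun x => esc U x + ε with hw
    have hw0 : ∀ x, 0 ≤ w x := fun x => add_nonneg (esc_nonneg _ _) hε.le
    have hwsn : IsSN (cost w) := isSN_cost hw0 fun x => by simp only [hw, esc_inv hsym]
    have step : ∀ M : ℝ, 0 < M → (∀ g, esc U g ≤ M * cost w g) →
        ∀ g, esc U g ≤ (B + M / 2) * cost w g := by
      intro M hM hP
      obtain ⟨ν, hν, hν1, hν2, hν3⟩ := H _ (hwsn.const_mul hM.le)
        fun g hg => mem_of_esc h1 ((hP g).trans_lt hg)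
      have h2 : ∀ g, ν g ≤ (c * m' + c + c * M / L) * w g := by
        intro g
        have h4 : esc U g ≤ w g := by simp [hw, hε.le]
        by_cases hg : g ∈ U
        · have h3 : ν g - c * (M * cost w g) / L ≤ c * esc V g := by
            rw [← div_le_iff₀' hc0]
            refine le_csInf ⟨_, 0, by simpa using hV1, rfl⟩ ?_
            rintro _ ⟨n, hn, rfl⟩
            have := hν3 g hg (n + 1) n.succ_pos fun i hi => hn i (by omega)
            rw [div_le_iff₀' hc0, mul_one_div]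
            push_cast at this
            linarith
          have h5 : esc V g ≤ m' * w g :=
            (hm' g).trans (mul_le_mul_of_nonneg_left ((hDU g).trans h4) hm0'.le)
          have h6 : c * (M * cost w g) / L ≤ c * (M * w g) / L := by
            gcongr
            exact cost_le hw0 g
          have h7 : c * esc V g ≤ c * (m' * w g) := mul_le_mul_of_nonneg_left h5 hc0.le
          have h8 : 0 ≤ c * w g := mul_nonneg hc0.le (hw0 g)
          have h9 : (c * m' + c + c * M / L) * w g = c * (m' * w g) + c * w g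
            + c * (M * w g) / L := by ring
          linarith
        · have h3 : 1 ≤ w g := by
            by_contra h
            exact hg (mem_of_esc h1 (h4.trans_lt (not_le.1 h)))
          have h5 : c ≤ c * m' + c + c * M / L := by
            have : 0 ≤ c * m' := by positivity
            have : 0 ≤ c * M / L := by positivity
            linarith
          exact (hν2 g).trans (h5.trans (le_mul_of_one_le_right (by positivity) h3))
      intro g
      have h3 := hν.le_cost (by positivity) h2 g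
      have h4 := esc_le_sn hν (fun g hg => Set.pow_subset_pow_left subset_closure (hν1 g hg)) g
      refine (hm g).trans ((mul_le_mul_of_nonneg_left (h4.trans h3) hm0.le).trans ?_)
      rw [← mul_assoc]
      refine mul_le_mul_of_nonneg_right ?_ (hwsn.nonneg g)
      have : m * (c * M / L) ≤ M / 2 := by
        rw [← mul_div_assoc, div_le_div_iff₀ hL0 two_pos]
        nlinarith
      rw [mul_add, ← hB]
      linarith
    have base : ∀ g, esc U g ≤ 1 / ε * cost w g := by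
      intro g
      rw [one_div_mul_eq_div, le_div_iff₀ hε]
      refine le_cost fun l hl => ?_
      cases l with
      | nil =>
        rw [← hl]
        simp [esc_one h1]
      | cons a l =>
        rw [List.map_cons, List.sum_cons]
        have h0 : 0 ≤ (l.map w).sum := List.sum_nonneg (by simpa using fun a _ => hw0 a)
        have h2 := esc_le_one h1 g
        have h3 : ε ≤ w a := by simp [hw, esc_nonneg]
        nlinarith
    have iter : ∀ k : ℕ, ∀ g, esc U g ≤ (2 * B + 1 / ε * (1 / 2) ^ k) * cost w g := by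
      intro k
      induction k with
      | zero =>
        intro g
        refine (base g).trans (mul_le_mul_of_nonneg_right ?_ (hwsn.nonneg g))
        simp [hB0.le]
      | succ k ih =>
        intro g
        refine (step _ (by positivity) ih g).trans (le_of_eq ?_)
        ring
    intro g
    have h2 : Tendsto (fun k : ℕ => (2 * B + 1 / ε * (1 / 2 : ℝ) ^ k) * cost w g) atTop
        (𝓝 ((2 * B + 1 / ε * 0) * cost w g)) :=
      (((tendsto_pow_atTop_nhds_zero_of_lt_one (by norm_num) (by norm_num)).const_mul _).const_add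
        _).mul_const _
    rw [mul_zero, add_zero] at h2
    exact ge_of_tendsto' h2 fun k => iter k g
  refine ⟨2 * B, by positivity, fun g => ?_⟩
  rw [← div_le_iff₀' (by positivity)]
  refine le_cost fun l hl => ?_
  refine le_of_forall_pos_le_add fun δ hδ => ?_
  have h2 := key (δ / (l.length + 1)) (by positivity) g
  rw [← div_le_iff₀' (by positivity)] at h2
  refine h2.trans ?_
  rw [← hl]
  refine (cost_le_sum (fun x => add_nonneg (esc_nonneg _ _) (by positivity)) l).trans ?_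
  rw [List.sum_map_add]
  refine add_le_add le_rfl ?_
  rw [List.map_const', List.sum_replicate, nsmul_eq_mul, ← mul_div_assoc, div_le_iff₀ (by positivity)]
  nlinarith

/-- An approximately additive embedding of a neighbourhood of the identity in a normed space. -/
structure GlData {E : Type} [NormedAddCommGroup E] (Δ : G → E) : Prop where
  sn : IsSN (fun g => ‖Δ g‖)
  add : ∀ g h, ‖Δ h‖ ≤ 1 → ‖Δ (g * h) - Δ g - Δ h‖ ≤ ‖Δ g‖ * ‖Δ h‖
  nhds : ∀ r : ℝ, 0 < r → ∀ᶠ g in 𝓝 (1 : G), ‖Δ g‖ < r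
  basis : ∀ V ∈ 𝓝 (1 : G), ∃ r : ℝ, 0 < r ∧ ∀ g, ‖Δ g‖ < r → g ∈ V
  compact : ∃ K : Set G, IsCompact K ∧ ∀ g, ‖Δ g‖ ≤ 1 → g ∈ K

theorem exists_glData [LocallyCompactSpace G] [T2Space G] (hG : NSS G) :
    ∃ Δ : G → Linf G, GlData Δ := by
  obtain ⟨O, hO, hO'⟩ := hG
  obtain ⟨W, hW, hW1, hWs, hWO⟩ := exists_nhds_pow_subset hO 1
  rw [pow_one] at hWO
  obtain ⟨U₁, hU₁, hU₁1, -, hU₁W⟩ := exists_nhds_pow_subset (hW.mem_nhds hW1) (2 * 4)
  obtain ⟨U, hU, h1, hsym, hc, hUU⟩ := exists_good_nhds (hU₁.mem_nhds hU₁1)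
  have hnss : ∀ x : G, (∀ k : ℕ, x ^ k ∈ closure U ^ 4) → x = 1 := by
    intro x hx
    have h2 : closure U ^ 4 ⊆ W := by
      refine subset_trans ?_ hU₁W
      rw [pow_mul, sq]
      exact Set.pow_subset_pow_left ((closure_subset_mul_self_of_mem_nhds_one
        (hU.mem_nhds h1)).trans (Set.mul_subset_mul hUU hUU))
    refine hO' x fun k => hWO ?_
    obtain ⟨n, rfl | rfl⟩ := Int.eq_nat_or_neg k
    · simpa using h2 (hx n)
    · simpa using hWs _ (h2 (hx n))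
  have hD := isCompact_pow hc 4
  have hD1 : (1 : G) ∈ closure U ^ 4 := Set.one_mem_pow (subset_closure h1)
  obtain ⟨M, hM0, hM⟩ := approx_triangle hU h1 hsym hc hnss
  have hℓ := (isSN_cost (esc_nonneg U) (esc_inv hsym)).const_mul hM0.le
  have hℓU : ∀ g, M * cost (esc U) g < 1 → g ∈ U := fun g hg => mem_of_esc h1 ((hM g).trans_lt hg)
  have hℓe : ∀ g, M * cost (esc U) g ≤ M * esc U g := fun g =>
    mul_le_mul_of_nonneg_left (cost_le (esc_nonneg U) g) hM0.le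
  obtain ⟨c, hc0, H⟩ := gl1 hU h1 hsym hc
  obtain ⟨Δ, hΔ, hΔ1, -, hΔ2, hΔ3⟩ := H _ _ hℓ hℓ hℓU hℓU
  have hcmp : ∀ V ∈ 𝓝 (1 : G), ∃ m : ℝ, 0 < m ∧ ∀ g, esc V g ≤ m * ‖Δ g‖ := by
    intro V hV
    obtain ⟨m, hm0, hm⟩ := esc_compare hD hD1 hnss hV
    exact ⟨m, hm0, fun g => (hm g).trans (mul_le_mul_of_nonneg_left (esc_le_sn hΔ
      (fun g hg => Set.pow_subset_pow_left subset_closure (hΔ1 g hg)) g) hm0.le)⟩
  obtain ⟨m, hm0, hm⟩ := hcmp U (hU.mem_nhds h1)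
  have hV := eventually_conj_mem (isCompact_pow hc 3) (hU.mem_nhds h1)
  obtain ⟨m', hm0', hm'⟩ := hcmp _ hV
  set t : ℝ := c * (M * m) * (M * m') + m + 2 with ht
  have ht1 : 0 ≤ c * (M * m) * (M * m') := by positivity
  have ht0 : 0 < t := by positivity
  have hn : ∀ g, ‖t • Δ g‖ = t * ‖Δ g‖ := fun g => by rw [norm_smul, Real.norm_of_nonneg ht0.le]
  refine ⟨fun g => t • Δ g, ?_, fun g h hh => ?_, fun r hr => ?_, fun V hV => ?_,
    _, hD, fun g hg => ?_⟩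
  · simp only [hn]
    exact hΔ.const_mul ht0.le
  · simp only [hn] at hh ⊢
    have h2 := norm_nonneg (Δ h)
    have h3 := norm_nonneg (Δ g)
    have hhU : h ∈ U := mem_of_esc h1 ((hm h).trans_lt (by
      by_contra hcon
      nlinarith))
    have h4 := hΔ3 g h hhU (M * (m' * ‖Δ g‖)) fun y hy => (hℓe _).trans
      (mul_le_mul_of_nonneg_left ((esc_conj (mem_of_mem_nhds hV) (fun x hx => hx y hy) g).trans
        (hm' g)) hM0.le)
    rw [← smul_sub, ← smul_sub, norm_smul, Real.norm_of_nonneg ht0.le, mul_assoc]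
    refine mul_le_mul_of_nonneg_left (h4.trans ?_) ht0.le
    have h5 : M * cost (esc U) h ≤ M * (m * ‖Δ h‖) :=
      (hℓe h).trans (mul_le_mul_of_nonneg_left (hm h) hM0.le)
    calc c * (M * cost (esc U) h) * (M * (m' * ‖Δ g‖))
        ≤ c * (M * (m * ‖Δ h‖)) * (M * (m' * ‖Δ g‖)) := by gcongr
      _ = ‖Δ g‖ * ((c * (M * m) * (M * m')) * ‖Δ h‖) := by ring
      _ ≤ _ := by gcongr; linarith
  · obtain ⟨n, hn'⟩ := exists_nat_gt (t * (c * M) / r)
    have : ∀ᶠ g in 𝓝 (1 : G), ∀ i ∈ Finset.range (n + 2), g ^ i ∈ U := by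
      rw [eventually_all_finset]
      intro i _
      exact (continuous_pow i).continuousAt.preimage_mem_nhds (hU.mem_nhds (by simpa using h1))
    filter_upwards [this] with g hg
    have h2 := esc_le (U := U) (g := g) (n := n) fun i hi => hg i (Finset.mem_range.2 (by omega))
    have h3 := hΔ2 g (by simpa using hg 1 (Finset.mem_range.2 (by omega)))
    rw [hn]
    rw [div_lt_iff₀ hr] at hn'
    calc t * ‖Δ g‖ ≤ t * (c * (M * (1 / (n + 1)))) := by
          gcongr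
          exact h3.trans (mul_le_mul_of_nonneg_left ((hℓe g).trans
            (mul_le_mul_of_nonneg_left h2 hM0.le)) hc0.le)
      _ = t * (c * M) / (n + 1) := by field_simp
      _ < r := by rw [div_lt_iff₀ (by positivity)]; nlinarith
  · obtain ⟨a, ha0, ha⟩ := hcmp V hV
    refine ⟨t / a, by positivity, fun g hg => mem_of_esc (mem_of_mem_nhds hV)
      ((ha g).trans_lt ?_)⟩
    rw [hn, lt_div_iff₀ ha0, mul_assoc, mul_lt_iff_lt_one_right ht0] at hg
    rwa [mul_comm]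
  · refine Set.pow_subset_pow_left subset_closure (hΔ1 g ?_)
    rw [hn] at hg
    by_contra hcon
    nlinarith

end

end Pool.Agent.MP_45783b_al

end MrgPart1

-- ======== part 2: formerly Pool.Agent.MP_45783b_al.Tangent
section MrgPart2

/-!
The tangent cone of a Gleason embedding and the adjoint representation.
-/

set_option autoImplicit false

namespace Pool.Agent.MP_45783b_al

open Topology Filter

variable {G : Type} [Group G] [TopologicalSpace G]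
  {E : Type} [NormedAddCommGroup E] {Δ : G → E}

namespace GlData

theorem map_one (h : GlData Δ) : Δ 1 = 0 := norm_eq_zero.1 h.sn.one

theorem continuous [IsTopologicalGroup G] (h : GlData Δ) : Continuous Δ := by
  refine continuous_iff_continuousAt.2 fun g => Metric.tendsto_nhds.2 fun ε hε => ?_
  have h1 : Tendsto (fun x => g⁻¹ * x) (𝓝 g) (𝓝 1) := by
    simpa using (continuous_const_mul g⁻¹).tendsto g
  have hg := norm_nonneg (Δ g)
  filter_upwards [h1.eventually (h.nhds _ one_pos),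
    h1.eventually (h.nhds (ε / (1 + ‖Δ g‖)) (by positivity))] with x h2 h3
  have h4 := h.add g _ h2.le
  rw [mul_inv_cancel_left] at h4
  rw [lt_div_iff₀ (by positivity)] at h3
  have h5 := norm_add_le (Δ x - Δ g - Δ (g⁻¹ * x)) (Δ (g⁻¹ * x))
  rw [sub_add_cancel] at h5
  rw [dist_eq_norm]
  linarith

theorem tendsto_one (h : GlData Δ) {ι : Type} {l : Filter ι} {f : ι → G}
    (hf : Tendsto (fun i => ‖Δ (f i)‖) l (𝓝 0)) : Tendsto f l (𝓝 1) := by
  intro V hV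
  obtain ⟨r, hr, hr'⟩ := h.basis V hV
  exact (hf.eventually (gt_mem_nhds hr)).mono fun i hi => hr' _ hi

theorem inv_le (h : GlData Δ) {g : G} (hg : ‖Δ g‖ ≤ 1) : ‖Δ g⁻¹ + Δ g‖ ≤ ‖Δ g‖ * ‖Δ g‖ := by
  have := h.add g⁻¹ g hg
  rwa [inv_mul_cancel, h.map_one, sub_sub, zero_sub, norm_neg, show ‖Δ g⁻¹‖ = ‖Δ g‖ from h.sn.inv g]
    at this

theorem div_le (h : GlData Δ) {a y : G} (ha : ‖Δ a‖ ≤ 1 / 2) (hy : ‖Δ y‖ ≤ 1 / 2) :
    ‖Δ (a⁻¹ * y)‖ ≤ 2 * ‖Δ y - Δ a‖ := by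
  have h1 : ‖Δ (a⁻¹ * y)‖ ≤ ‖Δ a⁻¹‖ + ‖Δ y‖ := h.sn.mul _ _
  rw [show ‖Δ a⁻¹‖ = ‖Δ a‖ from h.sn.inv a] at h1
  have h2 := h.add a (a⁻¹ * y) (by linarith)
  rw [mul_inv_cancel_left] at h2
  have h3 := norm_sub_le (Δ y - Δ a) (Δ y - Δ a - Δ (a⁻¹ * y))
  rw [sub_sub_cancel] at h3
  nlinarith [norm_nonneg (Δ (a⁻¹ * y))]

theorem conj_sub (h : GlData Δ) {x g : G} (hx : ‖Δ x‖ ≤ 1) (hg : ‖Δ g‖ ≤ 1) :
    ‖Δ (x * g * x⁻¹) - Δ g‖ ≤ ‖Δ x‖ * (‖Δ g‖ + ‖Δ (x * g * x⁻¹)‖) := by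
  have h1 := h.add x g hg
  have h2 := h.add (x * g * x⁻¹) x hx
  rw [inv_mul_cancel_right] at h2
  have h3 := norm_sub_le (Δ (x * g) - Δ x - Δ g) (Δ (x * g) - Δ (x * g * x⁻¹) - Δ x)
  rw [show Δ (x * g) - Δ x - Δ g - (Δ (x * g) - Δ (x * g * x⁻¹) - Δ x) = Δ (x * g * x⁻¹) - Δ g by
    abel] at h3
  linarith

theorem conj_le (h : GlData Δ) {x : G} (hx : ‖Δ x‖ ≤ 1 / 2) (g : G) :
    ‖Δ (x * g * x⁻¹)‖ ≤ 3 * ‖Δ g‖ := by
  by_cases hg : ‖Δ g‖ ≤ 1
  · have h1 := h.conj_sub (x := x) (by linarith) hg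
    have h2 := norm_sub_norm_le (Δ (x * g * x⁻¹)) (Δ g)
    nlinarith [norm_nonneg (Δ g), norm_nonneg (Δ (x * g * x⁻¹))]
  · have h1 : ‖Δ (x * g * x⁻¹)‖ ≤ ‖Δ (x * g)‖ + ‖Δ x⁻¹‖ := h.sn.mul _ _
    have h2 : ‖Δ (x * g)‖ ≤ ‖Δ x‖ + ‖Δ g‖ := h.sn.mul _ _
    rw [show ‖Δ x⁻¹‖ = ‖Δ x‖ from h.sn.inv x] at h1
    linarith

theorem conj_bound [IsTopologicalGroup G] (h : GlData Δ) (hG : NPO G) (x : G) :
    ∃ C : ℝ, 0 < C ∧ ∀ g, ‖Δ (x * g * x⁻¹)‖ ≤ C * ‖Δ g‖ := by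
  refine hG.of_nhds (fun x => ∃ C : ℝ, 0 < C ∧ ∀ g, ‖Δ (x * g * x⁻¹)‖ ≤ C * ‖Δ g‖) ?_ ?_ x
  · rintro a b ⟨C, hC, ha⟩ ⟨D, hD, hb⟩
    refine ⟨C * D, by positivity, fun g => ?_⟩
    rw [show a * b * g * (a * b)⁻¹ = a * (b * g * b⁻¹) * a⁻¹ by group, mul_assoc C]
    exact (ha _).trans (mul_le_mul_of_nonneg_left (hb g) hC.le)
  · filter_upwards [h.nhds (1 / 2) (by norm_num)] with y hy using ⟨3, by norm_num, h.conj_le hy.le⟩

theorem pow_div_le (h : GlData Δ) (g g' : G) (k : ℕ) (hk : k * ‖Δ g‖ ≤ 1 / 2) :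
    ‖Δ ((g ^ k)⁻¹ * g' ^ k)‖ ≤ 3 * (k * ‖Δ (g⁻¹ * g')‖) := by
  induction k with
  | zero => simp [h.map_one]
  | succ k ih =>
    push_cast at hk ⊢
    have hk' : k * ‖Δ g‖ ≤ 1 / 2 := by nlinarith [norm_nonneg (Δ g)]
    have h1 : ‖Δ (g ^ k)⁻¹‖ ≤ 1 / 2 := (h.sn.inv _).le.trans ((h.sn.pow g k).trans hk')
    have h2 := h.conj_le h1 (g⁻¹ * g')
    have h3 : ‖Δ (((g ^ k)⁻¹ * (g⁻¹ * g') * (g ^ k)⁻¹⁻¹) * ((g ^ k)⁻¹ * g' ^ k))‖ ≤ _ :=
      h.sn.mul _ _
    rw [show ((g ^ k)⁻¹ * (g⁻¹ * g') * (g ^ k)⁻¹⁻¹) * ((g ^ k)⁻¹ * g' ^ k) =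
      (g ^ (k + 1))⁻¹ * g' ^ (k + 1) by rw [pow_succ', pow_succ']; group] at h3
    linarith [ih hk']

variable [NormedSpace ℝ E]

theorem pow_le (h : GlData Δ) {g : G} (hg : ‖Δ g‖ ≤ 1) (k : ℕ) :
    ‖Δ (g ^ k) - (k : ℝ) • Δ g‖ ≤ (k * ‖Δ g‖) ^ 2 := by
  induction k with
  | zero => simp [h.map_one]
  | succ k ih =>
    have h1 := h.add (g ^ k) g hg
    have h2 : ‖Δ (g ^ k)‖ ≤ k * ‖Δ g‖ := h.sn.pow g k
    have h3 := norm_add_le (Δ (g ^ k * g) - Δ (g ^ k) - Δ g) (Δ (g ^ k) - (k : ℝ) • Δ g)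
    rw [show Δ (g ^ k * g) - Δ (g ^ k) - Δ g + (Δ (g ^ k) - (k : ℝ) • Δ g) =
      Δ (g ^ (k + 1)) - ((k + 1 : ℕ) : ℝ) • Δ g by
        rw [pow_succ]; push_cast; rw [add_smul, one_smul]; abel] at h3
    push_cast at h3 ⊢
    have h4 := norm_nonneg (Δ g)
    have h5 : (0 : ℝ) ≤ k := k.cast_nonneg
    nlinarith [mul_le_mul_of_nonneg_right h2 h4, mul_nonneg h5 (mul_nonneg h4 h4)]

theorem exists_root (h : GlData Δ) {g : G} {s t R : ℝ} (hs : 0 < s) (ht : 0 < t) (hR : R ≤ t)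
    (hg : t * ‖Δ g‖ ≤ R) :
    ∃ a : G, ‖Δ a‖ ≤ R / s ∧ ‖s • Δ a - t • Δ g‖ ≤ R ^ 2 / s + s * R / t := by
  have h0 := norm_nonneg (Δ g)
  have h1 : (⌊t / s⌋₊ : ℝ) ≤ t / s := Nat.floor_le (by positivity)
  have h2 := Nat.lt_floor_add_one (t / s)
  set k := ⌊t / s⌋₊
  have h3 : k * ‖Δ g‖ ≤ R / s := by
    calc k * ‖Δ g‖ ≤ t / s * ‖Δ g‖ := by gcongr
      _ = t * ‖Δ g‖ / s := by ring
      _ ≤ R / s := by gcongr
  refine ⟨g ^ k, (h.sn.pow g k).trans h3, ?_⟩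
  have h4 := h.pow_le (g := g) (by nlinarith) k
  rw [show s • Δ (g ^ k) - t • Δ g = s • (Δ (g ^ k) - (k : ℝ) • Δ g) - (t - s * k) • Δ g by
    rw [smul_sub, sub_smul, mul_smul]; abel]
  refine (norm_sub_le _ _).trans (add_le_add ?_ ?_)
  · rw [norm_smul, Real.norm_of_nonneg hs.le]
    calc s * ‖Δ (g ^ k) - (k : ℝ) • Δ g‖ ≤ s * (R / s) ^ 2 := by
          gcongr
          exact h4.trans (by gcongr)
      _ = R ^ 2 / s := by field_simp
  · rw [le_div_iff₀' hs] at h1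
    rw [div_lt_iff₀' hs] at h2
    rw [norm_smul, Real.norm_of_nonneg (by linarith), le_div_iff₀ ht]
    calc (t - s * k) * ‖Δ g‖ * t = (t - s * k) * (t * ‖Δ g‖) := by ring
      _ ≤ s * R := mul_le_mul (by linarith) hg (by positivity) hs.le

theorem exists_lim [IsTopologicalGroup G] [CompleteSpace E] (h : GlData Δ) {ι : Type}
    (𝒰 : Ultrafilter ι) {t : ι → ℝ} (ht : Tendsto t 𝒰 atTop) {g : ι → G} {R : ℝ}
    (hg : ∀ᶠ i in (𝒰 : Filter ι), t i * ‖Δ (g i)‖ ≤ R) :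
    ∃ v, Tendsto (fun i => t i • Δ (g i)) 𝒰 (𝓝 v) := by
  obtain ⟨K, hK, hK'⟩ := h.compact
  have key : ∀ ε : ℝ, 0 < ε → ∃ w, ∀ᶠ i in (𝒰 : Filter ι), dist (t i • Δ (g i)) w < ε := by
    intro ε hε
    obtain ⟨s, hs1, hs2, hs⟩ : ∃ s : ℝ, R / s ≤ 1 ∧ R ^ 2 / s < ε / 3 ∧ 0 < s := by
      have h1 : Tendsto (fun s : ℝ => R / s) atTop (𝓝 0) := tendsto_const_nhds.div_atTop tendsto_id
      have h2 : Tendsto (fun s : ℝ => R ^ 2 / s) atTop (𝓝 0) :=
        tendsto_const_nhds.div_atTop tendsto_id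
      exact ((h1.eventually (ge_mem_nhds one_pos)).and ((h2.eventually (gt_mem_nhds
        (by positivity))).and (eventually_gt_atTop 0))).exists
    have h1 : ∀ i, ∃ a : G, 0 < t i → R ≤ t i → t i * ‖Δ (g i)‖ ≤ R →
        ‖Δ a‖ ≤ R / s ∧ ‖s • Δ a - t i • Δ (g i)‖ ≤ R ^ 2 / s + s * R / t i := by
      intro i
      by_cases hi : 0 < t i ∧ R ≤ t i ∧ t i * ‖Δ (g i)‖ ≤ R
      · obtain ⟨a, ha⟩ := h.exists_root hs hi.1 hi.2.1 hi.2.2
        exact ⟨a, fun _ _ _ => ha⟩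
      · exact ⟨1, fun h1 h2 h3 => (hi ⟨h1, h2, h3⟩).elim⟩
    choose a ha using h1
    have h2 : ∀ᶠ i in (𝒰 : Filter ι),
        ‖Δ (a i)‖ ≤ R / s ∧ ‖s • Δ (a i) - t i • Δ (g i)‖ ≤ R ^ 2 / s + s * R / t i := by
      filter_upwards [hg, ht.eventually (eventually_gt_atTop 0),
        ht.eventually (eventually_ge_atTop R)] with i h1 h2 h3 using ha i h2 h3 h1
    obtain ⟨b, -, hb⟩ := hK.ultrafilter_le_nhds (𝒰.map a) (by
      rw [le_principal_iff, Ultrafilter.coe_map, mem_map]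
      filter_upwards [h2] with i hi using hK' _ (hi.1.trans hs1))
    have h3 : Tendsto (fun i => s • Δ (a i)) 𝒰 (𝓝 (s • Δ b)) :=
      ((h.continuous.tendsto b).comp hb).const_smul s
    have h4 : Tendsto (fun i => s * R / t i) 𝒰 (𝓝 0) := tendsto_const_nhds.div_atTop ht
    refine ⟨s • Δ b, ?_⟩
    filter_upwards [h2, Metric.tendsto_nhds.1 h3 (ε / 3) (by positivity),
      h4.eventually (gt_mem_nhds (show (0 : ℝ) < ε / 3 by positivity))] with i h5 h6 h7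
    have h8 := dist_triangle_left (t i • Δ (g i)) (s • Δ b) (s • Δ (a i))
    rw [dist_eq_norm (s • Δ (a i)) (t i • Δ (g i))] at h8
    linarith [h5.2]
  rw [← cauchy_map_iff_exists_tendsto, Metric.cauchy_iff]
  refine ⟨inferInstance, fun ε hε => ?_⟩
  obtain ⟨w, hw⟩ := key (ε / 2) (by positivity)
  refine ⟨Metric.ball w (ε / 2), hw, fun x hx y hy => ?_⟩
  have := dist_triangle_right x y w
  rw [Metric.mem_ball] at hx hy
  linarith

theorem exists_approx (h : GlData Δ) {ι : Type} {l : Filter ι} [l.NeBot] {t : ι → ℝ}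
    (ht : Tendsto t l atTop) {g : ι → G} {v : E} (hv : Tendsto (fun i => t i • Δ (g i)) l (𝓝 v))
    {s : ℝ} (hs : 0 < s) : ∃ a : G, ‖s • Δ a - v‖ ≤ ((‖v‖ + 1) ^ 2 + 2) / s := by
  have h1 : Tendsto (fun i => s * (‖v‖ + 1) / t i) l (𝓝 0) := tendsto_const_nhds.div_atTop ht
  obtain ⟨i, h2, h3, h4, h5, h6⟩ := ((ht.eventually (eventually_gt_atTop 0)).and
    ((ht.eventually (eventually_ge_atTop (‖v‖ + 1))).and
    ((hv.norm.eventually (ge_mem_nhds (lt_add_one ‖v‖))).and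
    ((h1.eventually (gt_mem_nhds (show (0 : ℝ) < 1 / s by positivity))).and
    (Metric.tendsto_nhds.1 hv (1 / s) (by positivity)))))).exists
  rw [norm_smul, Real.norm_of_nonneg h2.le] at h4
  obtain ⟨a, -, ha⟩ := h.exists_root hs h2 h3 h4
  refine ⟨a, ?_⟩
  have h7 := norm_sub_le_norm_sub_add_norm_sub (s • Δ a) (t i • Δ (g i)) v
  rw [dist_eq_norm] at h6
  rw [show ((‖v‖ + 1) ^ 2 + 2) / s = (‖v‖ + 1) ^ 2 / s + 1 / s + 1 / s by ring]
  linarith

end GlData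

variable [NormedSpace ℝ E]

/-- The rescaled sequence converges along the hyperfilter. -/
def Lim (Δ : G → E) (γ : ℕ → G) (v : E) : Prop :=
  Tendsto (fun m : ℕ => (m : ℝ) • Δ (γ m)) (hyperfilter ℕ) (𝓝 v)

theorem tendsto_hyper : Tendsto (fun m : ℕ => (m : ℝ)) (hyperfilter ℕ) atTop :=
  tendsto_natCast_atTop_atTop.mono_left Nat.hyperfilter_le_atTop

omit [TopologicalSpace G] [Group G] in
theorem Lim.norm {γ : ℕ → G} {v : E} (hv : Lim Δ γ v) :
    Tendsto (fun m : ℕ => (m : ℝ) * ‖Δ (γ m)‖) (hyperfilter ℕ) (𝓝 ‖v‖) := by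
  simpa [norm_smul] using Tendsto.norm hv

omit [TopologicalSpace G] [Group G] in
theorem Lim.zero {γ : ℕ → G} {v : E} (hv : Lim Δ γ v) :
    Tendsto (fun m : ℕ => ‖Δ (γ m)‖) (hyperfilter ℕ) (𝓝 0) := by
  refine (hv.norm.div_atTop tendsto_hyper).congr' ?_
  filter_upwards [tendsto_hyper.eventually (eventually_gt_atTop 0)] with m hm
  field_simp

omit [TopologicalSpace G] [Group G] in
theorem Lim.small {γ : ℕ → G} {v : E} (hv : Lim Δ γ v) :
    ∀ᶠ m in (hyperfilter ℕ : Filter ℕ), ‖Δ (γ m)‖ ≤ 1 :=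
  hv.zero.eventually (ge_mem_nhds one_pos)

omit [TopologicalSpace G] [Group G] in
theorem Lim.unique {γ : ℕ → G} {v w : E} (hv : Lim Δ γ v) (hw : Lim Δ γ w) : v = w :=
  tendsto_nhds_unique hv hw

namespace GlData

theorem lim_mul (h : GlData Δ) {γ γ' : ℕ → G} {v v' : E} (hv : Lim Δ γ v) (hv' : Lim Δ γ' v') :
    Lim Δ (fun m => γ m * γ' m) (v + v') := by
  refine (Tendsto.add hv hv').congr_dist (squeeze_zero' (Eventually.of_forall fun _ => dist_nonneg)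
    ?_ (by simpa using hv.norm.mul hv'.zero))
  filter_upwards [hv'.small] with m hm
  rw [dist_comm, dist_eq_norm, ← smul_add, ← smul_sub, ← sub_sub, norm_smul, Real.norm_natCast,
    mul_assoc]
  exact mul_le_mul_of_nonneg_left (h.add _ _ hm) m.cast_nonneg

theorem lim_inv (h : GlData Δ) {γ : ℕ → G} {v : E} (hv : Lim Δ γ v) :
    Lim Δ (fun m => (γ m)⁻¹) (-v) := by
  refine (Tendsto.neg hv).congr_dist (squeeze_zero' (Eventually.of_forall fun _ => dist_nonneg)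
    ?_ (by simpa using hv.norm.mul hv.zero))
  filter_upwards [hv.small] with m hm
  rw [dist_comm, dist_eq_norm, sub_neg_eq_add, ← smul_add, norm_smul, Real.norm_natCast,
    mul_assoc]
  exact mul_le_mul_of_nonneg_left (h.inv_le hm) m.cast_nonneg

theorem exists_Lim (h : GlData Δ) {ι : Type} {l : Filter ι} [l.NeBot] {t : ι → ℝ}
    (ht : Tendsto t l atTop) {g : ι → G} {v : E} (hv : Tendsto (fun i => t i • Δ (g i)) l (𝓝 v)) :
    ∃ γ, Lim Δ γ v := by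
  have h1 : ∀ m : ℕ, ∃ a : G, 0 < m → ‖(m : ℝ) • Δ a - v‖ ≤ ((‖v‖ + 1) ^ 2 + 2) / m := by
    intro m
    by_cases hm : 0 < m
    · obtain ⟨a, ha⟩ := h.exists_approx ht hv (s := m) (by exact_mod_cast hm)
      exact ⟨a, fun _ => ha⟩
    · exact ⟨1, fun h => (hm h).elim⟩
  choose γ hγ using h1
  refine ⟨γ, tendsto_iff_norm_sub_tendsto_zero.2 (squeeze_zero'
    (Eventually.of_forall fun _ => norm_nonneg _) ?_
    ((tendsto_const_nhds (x := (‖v‖ + 1) ^ 2 + 2)).div_atTop tendsto_hyper))⟩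
  filter_upwards [tendsto_hyper.eventually (eventually_gt_atTop 0)] with m hm
  exact hγ m (by exact_mod_cast hm)

/-- The tangent space. -/
def tangent (h : GlData Δ) : Submodule ℝ E where
  carrier := {v | ∃ γ, Lim Δ γ v}
  zero_mem' := ⟨fun _ => 1, by simp [Lim, h.map_one]⟩
  add_mem' := by
    rintro v w ⟨γ, hv⟩ ⟨γ', hw⟩
    exact ⟨_, h.lim_mul hv hw⟩
  smul_mem' := by
    have key : ∀ c : ℝ, 0 < c → ∀ v, (∃ γ, Lim Δ γ v) → ∃ γ, Lim Δ γ (c • v) := by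
      rintro c hc v ⟨γ, hv⟩
      refine h.exists_Lim (tendsto_hyper.const_mul_atTop hc) (g := γ) ?_
      simpa only [mul_smul] using Tendsto.const_smul hv c
    rintro c v ⟨γ, hv⟩
    rcases lt_trichotomy c 0 with hc | rfl | hc
    · simpa using key (-c) (by linarith) _ ⟨_, h.lim_inv hv⟩
    · exact ⟨fun _ => 1, by simp [Lim, h.map_one]⟩
    · exact key c hc v ⟨γ, hv⟩

theorem finiteDimensional [IsTopologicalGroup G] (h : GlData Δ) :
    FiniteDimensional ℝ h.tangent := by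
  obtain ⟨K, hK, hK'⟩ := h.compact
  have h1 : TotallyBounded {v : E | v ∈ h.tangent ∧ ‖v‖ ≤ 1} := by
    refine Metric.totallyBounded_iff.2 fun ε hε => ?_
    obtain ⟨s, hs1, hs⟩ : ∃ s : ℝ, 6 / s < ε / 2 ∧ 3 ≤ s := by
      have h2 : Tendsto (fun s : ℝ => 6 / s) atTop (𝓝 0) :=
        tendsto_const_nhds.div_atTop tendsto_id
      exact ((h2.eventually (gt_mem_nhds (by positivity))).and (eventually_ge_atTop 3)).exists
    have hs0 : 0 < s := by linarith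
    obtain ⟨T, hT, hT'⟩ := Metric.totallyBounded_iff.1
      (hK.image (h.continuous.const_smul s)).totallyBounded (ε / 2) (by positivity)
    refine ⟨T, hT, ?_⟩
    rintro v ⟨⟨γ, hv⟩, hv1⟩
    obtain ⟨a, ha⟩ := h.exists_approx tendsto_hyper hv hs0
    have h2 : ((‖v‖ + 1) ^ 2 + 2) / s ≤ 6 / s := by
      gcongr
      nlinarith [norm_nonneg v]
    have h3 : 6 / s ≤ 2 := by rw [div_le_iff₀ hs0]; linarith
    have h4 := norm_sub_norm_le (s • Δ a) v
    rw [norm_smul, Real.norm_of_nonneg hs0.le] at h4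
    obtain ⟨y, hy, hy'⟩ := Set.mem_iUnion₂.1 (hT' ⟨a, hK' a (by nlinarith), rfl⟩)
    refine Set.mem_iUnion₂.2 ⟨y, hy, ?_⟩
    rw [Metric.mem_ball] at hy' ⊢
    have h5 := dist_triangle_left v y (s • Δ a)
    rw [dist_eq_norm (s • Δ a) v] at h5
    rw [Pi.smul_apply] at hy'
    linarith
  refine FiniteDimensional.of_totallyBounded_nhds_zero ℝ (U := Metric.closedBall 0 1)
    (Metric.closedBall_mem_nhds _ one_pos) ?_
  refine (totallyBounded_preimage isUniformEmbedding_subtype_val.isUniformInducing h1).subset ?_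
  intro v hv
  exact ⟨v.2, by simpa using hv⟩

omit [TopologicalSpace G] in
theorem lim_conj_le {x : G} {C : ℝ} (hC : ∀ g, ‖Δ (x * g * x⁻¹)‖ ≤ C * ‖Δ g‖) {γ : ℕ → G}
    {v w : E} (hv : Lim Δ γ v) (hw : Lim Δ (fun m => x * γ m * x⁻¹) w) : ‖w‖ ≤ C * ‖v‖ := by
  refine le_of_tendsto_of_tendsto' hw.norm (hv.norm.const_mul C) fun m => ?_
  rw [mul_left_comm]
  exact mul_le_mul_of_nonneg_left (hC _) m.cast_nonneg

theorem exists_ad [IsTopologicalGroup G] [CompleteSpace E] (h : GlData Δ) (hG : NPO G) (x : G)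
    (v : h.tangent) :
    ∃ w : h.tangent, ∀ γ, Lim Δ γ v → Lim Δ (fun m => x * γ m * x⁻¹) w := by
  obtain ⟨C, hC0, hC⟩ := h.conj_bound hG x
  have h1 : ∀ γ, Lim Δ γ v → ∃ w, Lim Δ (fun m => x * γ m * x⁻¹) w := by
    intro γ hγ
    refine h.exists_lim (hyperfilter ℕ) tendsto_hyper (R := C * (‖(v : E)‖ + 1)) ?_
    filter_upwards [hγ.norm.eventually (ge_mem_nhds (lt_add_one _))] with m hm
    refine (mul_le_mul_of_nonneg_left (hC _) m.cast_nonneg).trans ?_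
    rw [mul_left_comm]
    exact mul_le_mul_of_nonneg_left hm hC0.le
  obtain ⟨γ, hγ⟩ := v.2
  obtain ⟨w, hw⟩ := h1 γ hγ
  refine ⟨⟨w, _, hw⟩, fun γ' hγ' => ?_⟩
  obtain ⟨w', hw'⟩ := h1 γ' hγ'
  have h2 := h.lim_mul (h.lim_inv hγ) hγ'
  have h3 := h.lim_mul (h.lim_inv hw) hw'
  simp only [show ∀ m, (x * γ m * x⁻¹)⁻¹ * (x * γ' m * x⁻¹) = x * ((γ m)⁻¹ * γ' m) * x⁻¹ from
    fun m => by group] at h3
  have h4 := lim_conj_le hC h2 h3
  rw [neg_add_cancel, norm_zero, mul_zero, norm_le_zero_iff, neg_add_eq_zero] at h4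
  rwa [← h4] at hw'

theorem exists_exp [IsTopologicalGroup G] [T2Space G] (h : GlData Δ) {x : G} {γ : ℕ → G} {v : E}
    (hv : Lim Δ γ v) (hx : Lim Δ (fun m => x * γ m * x⁻¹) v) (hv1 : ‖v‖ < 1 / 2) :
    ∃ a : G, x * a = a * x ∧ ‖Δ a - v‖ ≤ ‖v‖ ^ 2 := by
  obtain ⟨K, hK, hK'⟩ := h.compact
  have h1 := hv.norm.eventually (ge_mem_nhds hv1)
  obtain ⟨a, -, ha⟩ := hK.ultrafilter_le_nhds ((hyperfilter ℕ).map fun m => γ m ^ m) (by
    rw [le_principal_iff, Ultrafilter.coe_map, mem_map]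
    filter_upwards [h1] with m hm using hK' _ ((h.sn.pow _ m).trans (by linarith)))
  replace ha : Tendsto (fun m => γ m ^ m) (hyperfilter ℕ) (𝓝 a) := ha
  refine ⟨a, ?_, ?_⟩
  · have h2 := h.lim_mul (h.lim_inv hv) hx
    have h3 : Tendsto (fun m => (γ m ^ m)⁻¹ * (x * γ m * x⁻¹) ^ m) (hyperfilter ℕ) (𝓝 1) := by
      refine h.tendsto_one (squeeze_zero' (Eventually.of_forall fun _ => norm_nonneg _) ?_
        (by simpa using h2.norm.const_mul 3))
      filter_upwards [h1] with m hm using h.pow_div_le _ _ m hm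
    simp only [conj_pow] at h3
    have h4 := tendsto_nhds_unique h3 (ha.inv.mul ((ha.const_mul x).mul_const x⁻¹))
    rw [eq_inv_mul_iff_mul_eq, mul_one, eq_mul_inv_iff_mul_eq] at h4
    exact h4.symm
  · refine le_of_tendsto_of_tendsto (((h.continuous.tendsto a).comp ha).sub hv).norm
      (hv.norm.pow 2) ?_
    filter_upwards [hv.small] with m hm using h.pow_le hm m

theorem mem_nhds_of_exp [IsTopologicalGroup G] [CompleteSpace E] (h : GlData Δ) (A : Subgroup G)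
    (hA : IsClosed (A : Set G))
    (hexp : ∀ v ∈ h.tangent, ‖v‖ < 1 / 2 → ∃ a ∈ A, ‖Δ a - v‖ ≤ ‖v‖ ^ 2) :
    (A : Set G) ∈ 𝓝 (1 : G) := by
  by_contra hcon
  have h1 : ∀ m : ℕ, ∃ z : G, 0 < ‖Δ z‖ ∧ ‖Δ z‖ < 2 * (1 / (m + 1)) ∧
      ∀ b ∈ A, ‖Δ z‖ < 2 * ‖Δ (b⁻¹ * z)‖ := by
    intro m
    obtain ⟨y, hy, hyA⟩ : ∃ y, ‖Δ y‖ < 1 / (m + 1) ∧ y ∉ A := by
      by_contra h2
      push Not at h2
      exact hcon (mem_of_superset (h.nhds _ Nat.one_div_pos_of_nat) h2)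
    obtain ⟨r, hr, hr'⟩ := h.basis {g | y * g⁻¹ ∉ A} (((hA.preimage
      (by fun_prop : Continuous fun g => y * g⁻¹)).isOpen_compl).mem_nhds (by simpa using hyA))
    have h2 : ∀ s ∈ (fun b => ‖Δ (b⁻¹ * y)‖) '' A, r ≤ s := by
      rintro _ ⟨b, hb, rfl⟩
      by_contra h3
      exact hr' _ (not_le.1 h3) (by simpa using hb)
    have hne : ((fun b => ‖Δ (b⁻¹ * y)‖) '' A).Nonempty := ⟨_, 1, A.one_mem, rfl⟩
    have h3 := le_csInf hne h2
    have h4 : ∀ b ∈ A, sInf ((fun b => ‖Δ (b⁻¹ * y)‖) '' A) ≤ ‖Δ (b⁻¹ * y)‖ :=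
      fun b hb => csInf_le ⟨r, h2⟩ ⟨b, hb, rfl⟩
    obtain ⟨_, ⟨a, ha, rfl⟩, ha'⟩ := exists_lt_of_csInf_lt hne
      (show _ < 2 * sInf ((fun b => ‖Δ (b⁻¹ * y)‖) '' A) by linarith)
    refine ⟨a⁻¹ * y, hr.trans_le (h2 _ ⟨a, ha, rfl⟩), ?_, fun b hb => ?_⟩
    · have h5 := h4 1 A.one_mem
      rw [inv_one, one_mul] at h5
      linarith
    · have h5 := h4 (a * b) (A.mul_mem ha hb)
      rw [mul_inv_rev, mul_assoc] at h5
      linarith
  choose z hz0 hz1 hz2 using h1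
  have h2 : Tendsto (fun m => ‖Δ (z m)‖) (hyperfilter ℕ) (𝓝 0) := by
    refine Tendsto.mono_left ?_ Nat.hyperfilter_le_atTop
    exact squeeze_zero (fun m => (hz0 m).le) (fun m => (hz1 m).le)
      (by simpa using (tendsto_one_div_add_atTop_nhds_zero_nat (𝕜 := ℝ)).const_mul 2)
  have h3 : Tendsto (fun m => ‖Δ (z m)‖⁻¹) (hyperfilter ℕ) atTop :=
    tendsto_inv_nhdsGT_zero.comp (tendsto_nhdsWithin_iff.2 ⟨h2, Eventually.of_forall hz0⟩)
  obtain ⟨v, hv⟩ := h.exists_lim (hyperfilter ℕ) h3 (g := z) (R := 1)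
    (Eventually.of_forall fun m => (inv_mul_cancel₀ (hz0 m).ne').le)
  have hv1 : ‖v‖ ≤ 1 := le_of_tendsto' hv.norm fun m => by
    rw [norm_smul, norm_inv, norm_norm, inv_mul_cancel₀ (hz0 m).ne']
  obtain ⟨m, h4, h5⟩ := ((h2.eventually (gt_mem_nhds (show (0 : ℝ) < 1 / 16 by norm_num))).and
    (Metric.tendsto_nhds.1 hv (1 / 16) (by norm_num))).exists
  have h6 := hz0 m
  have h7 : ‖‖Δ (z m)‖ • v‖ ≤ ‖Δ (z m)‖ := by
    rw [norm_smul, norm_norm]
    exact mul_le_of_le_one_right h6.le hv1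
  obtain ⟨b, hb, hb'⟩ := hexp _ (h.tangent.smul_mem ‖Δ (z m)‖ (h.exists_Lim h3 hv)) (by linarith)
  have h8 : ‖Δ (z m) - ‖Δ (z m)‖ • v‖ ≤ ‖Δ (z m)‖ * (1 / 16) := by
    rw [dist_eq_norm] at h5
    have : Δ (z m) - ‖Δ (z m)‖ • v = ‖Δ (z m)‖ • (‖Δ (z m)‖⁻¹ • Δ (z m) - v) := by
      rw [smul_sub, smul_inv_smul₀ h6.ne']
    rw [this, norm_smul, norm_norm]
    exact mul_le_mul_of_nonneg_left h5.le h6.le
  have h9 : ‖Δ b - ‖Δ (z m)‖ • v‖ ≤ ‖Δ (z m)‖ * (1 / 16) :=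
    hb'.trans (by nlinarith [norm_nonneg (‖Δ (z m)‖ • v)])
  have h10 := norm_sub_norm_le (Δ b) (‖Δ (z m)‖ • v)
  have h11 := h.div_le (a := b) (y := z m) (by linarith) (by linarith)
  have h12 := norm_sub_le (Δ (z m) - ‖Δ (z m)‖ • v) (Δ b - ‖Δ (z m)‖ • v)
  rw [sub_sub_sub_cancel_right] at h12
  linarith [hz2 m b hb]

theorem exists_rep [IsTopologicalGroup G] [T2Space G] [CompleteSpace E] (h : GlData Δ)
    (hG : NPO G) :
    ∃ (n : ℕ) (ρ : G →* Mat n), Continuous ρ ∧ ∀ x, ρ x = 1 → ∀ y, x * y = y * x := by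
  choose ad had using h.exists_ad hG
  have hadd : ∀ x v w, ad x (v + w) = ad x v + ad x w := by
    intro x v w
    obtain ⟨γ, hγ⟩ := v.2
    obtain ⟨γ', hγ'⟩ := w.2
    have h1 := had x (v + w) _ (h.lim_mul hγ hγ')
    have h2 := h.lim_mul (had x v γ hγ) (had x w γ' hγ')
    simp only [show ∀ m, (x * γ m * x⁻¹) * (x * γ' m * x⁻¹) = x * (γ m * γ' m) * x⁻¹ from
      fun m => by group] at h2
    exact Subtype.ext (h1.unique h2)
  have hbd : ∀ x, ∃ C : ℝ, ∀ v, ‖ad x v‖ ≤ C * ‖v‖ := by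
    intro x
    obtain ⟨C, -, hC⟩ := h.conj_bound hG x
    refine ⟨C, fun v => ?_⟩
    obtain ⟨γ, hγ⟩ := v.2
    exact lim_conj_le hC hγ (had x v γ hγ)
  let A : G → h.tangent →L[ℝ] h.tangent := fun x =>
    (AddMonoidHom.mk' (ad x) (hadd x)).toRealLinearMap
      (AddMonoidHomClass.continuous_of_bound _ _ (hbd x).choose_spec)
  have hA : ∀ x v, A x v = ad x v := fun x v => rfl
  have hone : ∀ v, ad 1 v = v := by
    intro v
    obtain ⟨γ, hγ⟩ := v.2
    have h1 := had 1 v γ hγ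
    simp only [one_mul, inv_one, mul_one] at h1
    exact Subtype.ext (h1.unique hγ)
  have hmul : ∀ x y v, ad (x * y) v = ad x (ad y v) := by
    intro x y v
    obtain ⟨γ, hγ⟩ := v.2
    have h1 := had (x * y) v γ hγ
    have h2 := had x _ _ (had y v γ hγ)
    simp only [show ∀ m, x * (y * γ m * y⁻¹) * x⁻¹ = x * y * γ m * (x * y)⁻¹ from
      fun m => by group] at h2
    exact Subtype.ext (h1.unique h2)
  let π : G →* (h.tangent →ₗ[ℝ] h.tangent) :=
    { toFun := fun x => A x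
      map_one' := LinearMap.ext hone
      map_mul' := fun x y => LinearMap.ext (hmul x y) }
  have hsmall : ∀ x, ‖Δ x‖ ≤ 1 / 2 → ∀ v, ‖ad x v - v‖ ≤ ‖Δ x‖ * (4 * ‖v‖) := by
    intro x hx v
    obtain ⟨γ, hγ⟩ := v.2
    refine le_of_tendsto_of_tendsto (Tendsto.sub (had x v γ hγ) hγ).norm
      ((hγ.norm.const_mul 4).const_mul ‖Δ x‖) ?_
    filter_upwards [hγ.small] with m hm
    rw [← smul_sub, norm_smul, Real.norm_natCast]
    have h1 := h.conj_sub (x := x) (by linarith) hm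
    have h2 := h.conj_le hx (γ m)
    have h3 : ‖Δ x‖ * (‖Δ (γ m)‖ + ‖Δ (x * γ m * x⁻¹)‖) ≤ ‖Δ x‖ * (4 * ‖Δ (γ m)‖) :=
      mul_le_mul_of_nonneg_left (by linarith) (norm_nonneg _)
    calc (m : ℝ) * ‖Δ (x * γ m * x⁻¹) - Δ (γ m)‖ ≤ m * (‖Δ x‖ * (4 * ‖Δ (γ m)‖)) :=
          mul_le_mul_of_nonneg_left (h1.trans h3) m.cast_nonneg
      _ = _ := by ring
  have hcont : ∀ v, Continuous fun x => π x v := by
    intro v
    have h1 : Tendsto (fun x => ad x v) (𝓝 1) (𝓝 v) := by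
      refine tendsto_iff_norm_sub_tendsto_zero.2 (squeeze_zero'
        (Eventually.of_forall fun _ => norm_nonneg _) ?_
        (by simpa [h.map_one] using (h.continuous.tendsto 1).norm.mul_const (4 * ‖v‖)))
      filter_upwards [h.nhds (1 / 2) (by norm_num)] with x hx using hsmall x hx.le v
    refine continuous_iff_continuousAt.2 fun y => ?_
    have h2 : Tendsto (fun x => y⁻¹ * x) (𝓝 y) (𝓝 1) := by
      simpa using (continuous_const_mul y⁻¹).tendsto y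
    refine (((A y).continuous.tendsto v).comp (h1.comp h2)).congr fun x => ?_
    change ad y (ad (y⁻¹ * x) v) = ad x v
    rw [← hmul, mul_inv_cancel_left]
  have := h.finiteDimensional
  obtain ⟨n, ρ, hρ, hρ'⟩ := exists_matrix_rep π hcont
  refine ⟨n, ρ, hρ, fun x hx y => ?_⟩
  have h1 : ∀ v, ad x v = v := LinearMap.congr_fun ((hρ' x).1 hx)
  have h2 := h.mem_nhds_of_exp (Subgroup.centralizer {x}) (Set.isClosed_centralizer _) (by
    rintro v ⟨γ, hγ⟩ hv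
    have h3 := had x ⟨v, γ, hγ⟩ γ hγ
    rw [h1] at h3
    obtain ⟨a, ha, ha'⟩ := h.exists_exp hγ h3 hv
    exact ⟨a, Subgroup.mem_centralizer_singleton_iff.2 ha.symm, ha'⟩)
  have h3 := hG _ (Subgroup.isOpen_of_mem_nhds _ h2)
  exact (Subgroup.mem_centralizer_singleton_iff.1 (h3 ▸ Subgroup.mem_top y)).symm

end GlData

/-- A locally compact periodic group without proper open subgroups is compact. -/
theorem compact_of_npo [IsTopologicalGroup G] [LocallyCompactSpace G] [T2Space G] (hG : NPO G)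
    (hP : Periodic G) : CompactSpace G := by
  obtain ⟨N, hn, hN, hnss⟩ := exists_nss_quotient hG
  have hcl : IsClosed (N : Set G) := hN.isClosed
  have hq : Continuous (QuotientGroup.mk' N) := QuotientGroup.continuous_mk
  have hs := QuotientGroup.mk'_surjective N
  obtain ⟨Δ, hΔ⟩ := exists_glData hnss
  obtain ⟨n, ρ, hρ, hρ'⟩ := hΔ.exists_rep (hG.map _ hq hs)
  have := compact_of_central_ker (hG.map _ hq hs) (hP.map _ hq hs) ρ hρ hρ'
  exact compact_of_quotient N hN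

end Pool.Agent.MP_45783b_al

end MrgPart2

-- marker of a merged file
example : 731051 + 448084 = 731051 + 448084 := rfl
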