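import Mathlib.Algebra.AlgebraicCard
import Mathlib.LinearAlgebra.Eigenspace.Triangularizable
import Mathlib.Data.Int.Star
import Mathlib.RingTheory.Finiteness.ModuleFinitePresentation
import Mathlib.Topology.Algebra.Module.Cardinality
import Mathlib.Analysis.SpecialFunctions.Complex.Circle
import Mathlib.RingTheory.RootsOfUnity.Complex
import Mathlib.GroupTheory.CosetCover
import Mathlib.GroupTheory.Transfer
import Mathlib.GroupTheory.Nilpotent
import Mathlib.GroupTheory.IndexNormal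
import Mathlib.RingTheory.TotallySplit
import Mathlib.RingTheory.Etale.Weakly
import Mathlib.Topology.Algebra.ClopenNhdofOne
import Pool.Agent.MP_45783b_al.PW
import Pool.Agent.MP_45783b_al.Gleason1
import Pool.Agent.MP_45783b_al.Tangent

-- ======== part 0: formerly Pool.Agent.MP_45783b_al.Char
section MrgPart0

/-!
Characters of compact monothetic groups.
-/

set_option autoImplicit false

namespace Pool.Agent.MP_45783b_al

open Topology Filter Matrix

theorem circle_subgroup (S : Subgroup Circle) (hS : IsClosed (S : Set Circle)) :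
    S = ⊤ ∨ ∃ m : ℕ, 0 < m ∧ ∀ x ∈ S, x ^ m = 1 := by
  let S' : AddSubgroup ℝ :=
    { carrier := {t | Circle.exp t ∈ S}
      zero_mem' := by simp
      add_mem' := fun {a b} ha hb => by simpa using S.mul_mem ha hb
      neg_mem' := fun {a} ha => by simpa using ha }
  rcases S'.dense_or_cyclic with h | ⟨a, ha⟩
  · left
    have h1 : IsClosed (S' : Set ℝ) := hS.preimage Circle.exp.continuous
    rw [eq_top_iff]
    intro z _
    have h2 : z.1.arg ∈ (S' : Set ℝ) := by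
      rw [← h1.closure_eq]; exact h _
    have h3 : Circle.exp z.1.arg ∈ S := h2
    rwa [Circle.exp_arg] at h3
  · right
    have h1 : 2 * Real.pi ∈ S' := by
      change Circle.exp _ ∈ S
      rw [Circle.exp_two_pi]; exact S.one_mem
    rw [ha, AddSubgroup.mem_closure_singleton] at h1
    obtain ⟨k, hk⟩ := h1
    have hk0 : k ≠ 0 := by
      rintro rfl
      rw [zero_smul] at hk
      exact Real.two_pi_pos.ne hk
    refine ⟨k.natAbs, Int.natAbs_pos.2 hk0, fun x hx => ?_⟩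
    have h2 : x.1.arg ∈ S' := by
      change Circle.exp _ ∈ S
      rwa [Circle.exp_arg]
    rw [ha, AddSubgroup.mem_closure_singleton] at h2
    obtain ⟨j, hj⟩ := h2
    rw [pow_natAbs_eq_one, ← Circle.exp_arg x, ← hj, ← Circle.exp_zsmul, smul_comm, hk,
      Circle.exp_zsmul, Circle.exp_two_pi, _root_.one_zpow]

theorem circle_root {m : ℕ} (hm : 0 < m) (z : Circle) : ∃ w : Circle, w ^ m = z := by
  refine ⟨Circle.exp (z.1.arg / m), ?_⟩
  have : (m : ℝ) ≠ 0 := by exact_mod_cast hm.ne'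
  rw [← Circle.exp_natCast_mul, mul_div_cancel₀ _ this, Circle.exp_arg]

theorem circle_order {N : ℕ} (hN : 0 < N) : ∃ z : Circle, orderOf z = N := by
  have h := Complex.isPrimitiveRoot_exp N hN.ne'
  refine ⟨⟨_, mem_sphere_zero_iff_norm.2 (h.norm'_eq_one hN.ne')⟩, ?_⟩
  rw [← orderOf_injective Circle.coeHom Circle.coe_injective]
  exact h.eq_orderOf.symm

theorem circle_finite {m : ℕ} (hm : 0 < m) : {z : Circle | z ^ m = 1}.Finite := by
  refine Set.Finite.of_finite_image (f := ((↑) : Circle → ℂ)) ?_ Circle.coe_injective.injOn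
  refine (Polynomial.nthRootsFinset m (1 : ℂ)).finite_toSet.subset ?_
  rintro _ ⟨z, hz, rfl⟩
  rw [Finset.mem_coe, Polynomial.mem_nthRootsFinset hm, ← Circle.coe_pow]
  exact congrArg _ hz

variable {K : Type} [Group K] [TopologicalSpace K] [IsTopologicalGroup K]

omit [IsTopologicalGroup K] in
theorem exists_char_of_eigvec [CompactSpace K] {q : K} (hq : Dense (Subgroup.zpowers q : Set K))
    {n : ℕ} (ρ : K →* Mat n) (hρ : Continuous ρ) {v : Fin n → ℂ} (hv : v ≠ 0) {c : ℂ}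
    (hc : ρ q *ᵥ v = c • v) :
    ∃ χ : K →* Circle, Continuous χ ∧ ∀ a, ρ a *ᵥ v = (χ a : ℂ) • v := by
  have hinv : ∀ a : K, ∀ d : ℂ, ρ a *ᵥ v = d • v → ρ a⁻¹ *ᵥ v = d⁻¹ • v ∧ d ≠ 0 := by
    intro a d h
    have h1 : v = d • (ρ a⁻¹ *ᵥ v) := by
      rw [← mulVec_smul, ← h, mulVec_mulVec, ← map_mul]; simp
    have hd : d ≠ 0 := by
      rintro rfl
      exact hv (by simpa using h1)
    refine ⟨?_, hd⟩
    conv_rhs => rw [h1, smul_smul, inv_mul_cancel₀ hd, one_smul]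
  have hmul : ∀ a b : K, ∀ d e : ℂ, ρ a *ᵥ v = d • v → ρ b *ᵥ v = e • v →
      ρ (a * b) *ᵥ v = (d * e) • v := by
    intro a b d e ha hb
    rw [map_mul, ← mulVec_mulVec, hb, mulVec_smul, ha, smul_smul, mul_comm]
  let S : Subgroup K :=
    { carrier := {a | ∃ d : ℂ, d • v = ρ a *ᵥ v}
      one_mem' := ⟨1, by simp⟩
      mul_mem' := by
        rintro a b ⟨d, hd⟩ ⟨e, he⟩
        exact ⟨_, (hmul a b d e hd.symm he.symm).symm⟩
      inv_mem' := by
        rintro a ⟨d, hd⟩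
        exact ⟨_, (hinv a d hd.symm).1.symm⟩ }
  have hcv : Continuous fun a => ρ a *ᵥ v := hρ.matrix_mulVec continuous_const
  have hS : IsClosed (S : Set K) := by
    have := (Submodule.span ℂ {v}).closed_of_finiteDimensional.preimage hcv
    convert this using 1
    ext a
    simp [S, Submodule.mem_span_singleton]
  have hS' : ∀ a, a ∈ S := fun a =>
    closure_minimal (Subgroup.zpowers_le.2 (show q ∈ S from ⟨c, hc.symm⟩)) hS (hq a)
  obtain ⟨i, hi⟩ := Function.ne_iff.1 hv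
  let f : K → ℂ := fun a => (ρ a *ᵥ v) i / v i
  have hf : ∀ a, ρ a *ᵥ v = f a • v := by
    intro a
    obtain ⟨d, hd⟩ := hS' a
    simp only [f, ← hd, Pi.smul_apply, smul_eq_mul]
    rw [mul_div_cancel_right₀ _ hi]
  have hinj : ∀ d e : ℂ, d • v = e • v → d = e := fun d e h => smul_left_injective ℂ hv h
  have hle : ∀ a, ‖f a‖ ≤ 1 := fun a =>
    (powBdd_of_compact ρ hρ (K := ⊤) isCompact_univ (Subgroup.mem_top a)).eig_le_one (hf a) hv
  have hn : ∀ a, ‖f a‖ = 1 := fun a => by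
    obtain ⟨h1, h2⟩ := hinv a _ (hf a)
    have h3 := hle a⁻¹
    rw [hinj _ _ ((hf a⁻¹).symm.trans h1), norm_inv] at h3
    exact le_antisymm (hle a) ((inv_le_one₀ (norm_pos_iff.2 h2)).1 h3)
  refine ⟨{ toFun := fun a => ⟨f a, mem_sphere_zero_iff_norm.2 (hn a)⟩
            map_one' := Circle.ext (hinj _ _ ((hf 1).symm.trans (by simp)))
            map_mul' := fun a b => Circle.ext (hinj _ _ ((hf _).symm.trans
              (hmul a b _ _ (hf a) (hf b)))) }, ?_, hf⟩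
  exact (((continuous_apply i).comp hcv).div_const _).subtype_mk _

theorem comm_of_dense [T2Space K] {q : K} (hq : Dense (Subgroup.zpowers q : Set K)) (a b : K) :
    a * b = b * a := by
  have h1 : ∀ x : K, q * x = x * q → ∀ y, y * x = x * y := by
    intro x hx y
    have h2 : (Subgroup.zpowers q : Set K) ⊆ Subgroup.centralizer {x} :=
      Subgroup.zpowers_le.2 (Subgroup.mem_centralizer_singleton_iff.2 hx)
    exact Subgroup.mem_centralizer_singleton_iff.1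
      (closure_minimal h2 (Set.isClosed_centralizer _) (hq y))
  exact h1 b (h1 q rfl b).symm a

theorem exists_char_ne_one [CompactSpace K] [T2Space K] {q : K}
    (hq : Dense (Subgroup.zpowers q : Set K)) {g : K} (hg : g ≠ 1) :
    ∃ χ : K →* Circle, Continuous χ ∧ χ g ≠ 1 := by
  obtain ⟨n, ρ, hρ, hg'⟩ := peterWeyl hg
  have hb := powBdd_of_compact ρ hρ (K := ⊤) isCompact_univ (Subgroup.mem_top g)
  obtain ⟨c, hc, hc1⟩ : ∃ c ∈ (ρ g).charpoly.roots, c ≠ 1 := by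
    by_contra h
    push Not at h
    exact hg' (hb.eq_one_of_roots h)
  obtain ⟨w, hw, hw'⟩ := exists_eigvec_of_root hc
  let W := Module.End.eigenspace (Matrix.toLin' (ρ g)) c
  have hW : ∀ x, x ∈ W ↔ ρ g *ᵥ x = c • x := fun x => by simp [W]
  have : Nontrivial W := ⟨⟨w, (hW w).2 hw'⟩, 0, fun h => hw (congrArg Subtype.val h)⟩
  have hinv : ∀ x ∈ W, Matrix.toLin' (ρ q) x ∈ W := by
    intro x hx
    rw [hW] at hx ⊢
    rw [toLin'_apply, mulVec_mulVec, ← map_mul, comm_of_dense hq g q, map_mul, ← mulVec_mulVec, hx,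
      mulVec_smul]
  obtain ⟨d, hd⟩ := Module.End.exists_eigenvalue ((Matrix.toLin' (ρ q)).restrict hinv)
  obtain ⟨v, hv⟩ := hd.exists_hasEigenvector
  have hv0 : (v : Fin n → ℂ) ≠ 0 := fun h => hv.2 (Subtype.ext h)
  obtain ⟨χ, hχ, hχ'⟩ := exists_char_of_eigvec hq ρ hρ hv0 (c := d)
    (by simpa using congrArg Subtype.val hv.apply_eq_smul)
  refine ⟨χ, hχ, fun h => hc1 ?_⟩
  have h1 := hχ' g
  rw [(hW v).1 v.2, h] at h1
  exact smul_left_injective ℂ hv0 h1

theorem exists_char_of_lt [CompactSpace K] [T2Space K] {q : K}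
    (hq : Dense (Subgroup.zpowers q : Set K)) {B : Subgroup K} (hB : IsClosed (B : Set K))
    (hB' : B ≠ ⊤) : ∃ χ : K →* Circle, Continuous χ ∧ B ≤ χ.ker ∧ ∃ g, χ g ≠ 1 := by
  have : B.Normal := ⟨fun x hx g => by rwa [comm_of_dense hq g x, mul_inv_cancel_right]⟩
  obtain ⟨g, hg⟩ : ∃ g, g ∉ B := by
    by_contra h
    push Not at h
    exact hB' (eq_top_iff.2 fun x _ => h x)
  have hq' : Dense (Subgroup.zpowers (q : K ⧸ B) : Set (K ⧸ B)) := by
    have := QuotientGroup.mk_surjective.denseRange.dense_image QuotientGroup.continuous_mk hq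
      (s := (Subgroup.zpowers q : Set K)) (f := (QuotientGroup.mk : K → K ⧸ B))
    refine this.mono ?_
    rintro _ ⟨_, ⟨k, rfl⟩, rfl⟩
    exact ⟨k, rfl⟩
  obtain ⟨χ, hχ, hχ'⟩ := exists_char_ne_one hq' (g := (g : K ⧸ B))
    (fun h => hg ((QuotientGroup.eq_one_iff g).1 h))
  refine ⟨χ.comp (QuotientGroup.mk' B), hχ.comp QuotientGroup.continuous_mk, fun x hx => ?_,
    g, hχ'⟩
  change χ (x : K ⧸ B) = 1
  rw [(QuotientGroup.eq_one_iff x).2 hx, map_one]

omit [IsTopologicalGroup K] in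
theorem char_image [CompactSpace K] (χ : K →* Circle) (hχ : Continuous χ) {Y : Subgroup K}
    (hY : IsClosed (Y : Set K)) :
    (∀ z, ∃ y ∈ Y, χ y = z) ∨ ∃ m : ℕ, 0 < m ∧ ∀ x ∈ Y, χ x ^ m = 1 := by
  rcases circle_subgroup (Y.map χ) (hY.isCompact.image hχ).isClosed with h | ⟨m, hm, h⟩
  · exact Or.inl fun z => (h ▸ Subgroup.mem_top z : z ∈ Y.map χ)
  · exact Or.inr ⟨m, hm, fun x hx => h _ ⟨x, hx, rfl⟩⟩

theorem exists_open_of_roots [CompactSpace K] {n : ℕ} (ρ : K →* Mat n) (hρ : Continuous ρ)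
    (h : ∀ q, ∀ c ∈ (ρ q).charpoly.roots, ∃ m : ℕ, 0 < m ∧ c ^ m = 1) {g : K} (hg : ρ g ≠ 1) :
    ∃ U : Subgroup K, IsOpen (U : Set K) ∧ U.Normal ∧ g ∉ U := by
  have hb := fun x => (powBdd_of_compact ρ hρ (K := ⊤) isCompact_univ (Subgroup.mem_top x)).trace_re
  have halg : ∀ q, IsAlgebraic ℚ (ρ q).trace := by
    intro q
    rw [Matrix.trace_eq_sum_roots_charpoly]
    refine IsIntegral.isAlgebraic ((integralClosure ℚ ℂ).multiset_sum_mem fun c hc => ?_)
    obtain ⟨m, hm, hc'⟩ := h q c hc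
    exact IsIntegral.of_pow hm (by rw [hc']; exact isIntegral_one)
  have hcount := ((Algebraic.countable ℚ ℂ).image Complex.re).dense_compl ℝ
  obtain ⟨t, ht, ht1, ht2⟩ := hcount.exists_between (lt_of_le_of_ne (hb g).1 fun h => hg ((hb g).2 h))
  have hf : Continuous fun x => (ρ x).trace.re := Complex.continuous_re.comp hρ.matrix_trace
  have hclopen : IsClopen {x | t < (ρ x).trace.re} := by
    refine ⟨?_, isOpen_lt continuous_const hf⟩
    have : {x | t < (ρ x).trace.re} = {x | t ≤ (ρ x).trace.re} := by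
      ext x
      exact ⟨fun hx => le_of_lt (α := ℝ) hx, fun hx => lt_of_le_of_ne hx fun he => ht ⟨_, halg x, he.symm⟩⟩
    rw [this]
    exact isClosed_le continuous_const hf
  obtain ⟨U, hU⟩ := IsTopologicalGroup.exist_openNormalSubgroup_sub_clopen_nhds_of_one hclopen
    (by simpa using ht2)
  exact ⟨U, U.isOpen, U.isNormal', fun h => (hU h).not_gt ht1⟩

end Pool.Agent.MP_45783b_al

end MrgPart0

-- ======== part 1: formerly Pool.Agent.MP_45783b_al.Cji
section MrgPart1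

/-!
Join irreducible closed subgroups, periodicity and the radical.
-/

set_option autoImplicit false

namespace Pool.Agent.MP_45783b_al

open Topology Filter CS
open scoped Pointwise

variable {G : Type} [Group G] [TopologicalSpace G] [IsTopologicalGroup G]

theorem weil [LocallyCompactSpace G] [T2Space G] (h : G) :
    IsCompact ((cyc h).1 : Set G) ∨ ∃ O ∈ 𝓝 (1 : G), ∀ n : ℕ, 0 < n → h ^ n ∉ O := by
  by_contra hcon
  push Not at hcon
  obtain ⟨hc, hO⟩ := hcon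
  have h1 : ((cyc h).1 : Set G) ⊆ (Submonoid.powers h).topologicalClosure := by
    have h2 : h⁻¹ ∈ (Submonoid.powers h).topologicalClosure := by
      refine mem_closure_iff_nhds.2 fun O hO' => ?_
      obtain ⟨n, hn, hn'⟩ := hO {y | h⁻¹ * y ∈ O}
        ((continuous_const_mul h⁻¹).continuousAt.preimage_mem_nhds (by simpa using hO'))
      refine ⟨_, hn', n - 1, ?_⟩
      obtain ⟨k, rfl⟩ : ∃ k, n = k + 1 := ⟨n - 1, by omega⟩
      simp [pow_succ']
    refine closure_minimal ?_ (Submonoid.isClosed_topologicalClosure _)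
    rintro _ ⟨k, rfl⟩
    obtain ⟨n, rfl | rfl⟩ := Int.eq_nat_or_neg k
    · exact subset_closure ⟨n, by simp⟩
    · simpa using Submonoid.pow_mem _ h2 n
  have h2 : ∀ a ∈ (cyc h).1, ∀ O ∈ 𝓝 a, ∃ n : ℕ, 0 < n ∧ h ^ n ∈ O := by
    intro a ha O hO'
    obtain ⟨_, hn', n, rfl⟩ := mem_closure_iff_nhds.1
      (h1 ((cyc h).1.mul_mem ((cyc h).1.inv_mem (mem_cyc h)) ha)) {y | h * y ∈ O}
        ((continuous_const_mul h).continuousAt.preimage_mem_nhds (by simpa using hO'))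
    exact ⟨n + 1, n.succ_pos, by rwa [pow_succ']⟩
  obtain ⟨V, hV, hV1⟩ := exists_compact_mem_nhds (1 : G)
  obtain ⟨T, hT⟩ := (hV.inter_left (cyc h).2).elim_finite_subcover
    (fun n : ℕ => {c | (h ^ (n + 1))⁻¹ * c ∈ interior V})
    (fun n => isOpen_interior.preimage (continuous_const_mul _)) (fun c hc => by
      obtain ⟨n, hn, hn'⟩ := h2 c hc.1 {y | y⁻¹ * c ∈ interior V}
        ((by fun_prop : Continuous fun y => y⁻¹ * c).continuousAt.preimage_mem_nhds
          (by simpa using hV1))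
      exact Set.mem_iUnion.2 ⟨n - 1, by rwa [Nat.sub_add_cancel hn]⟩)
  refine hc (((Finset.range (T.sup id + 2)).isCompact_biUnion
    (f := fun n : ℕ => (fun y => (h ^ n)⁻¹ * y) '' V)
    fun n _ => hV.image (continuous_const_mul _)).of_isClosed_subset (cyc h).2 fun a ha => ?_)
  have hex : ∃ n : ℕ, 0 < n ∧ h ^ n * a ∈ V := h2 a⁻¹ ((cyc h).1.inv_mem ha) {y | y * a ∈ V}
    ((continuous_mul_const a).continuousAt.preimage_mem_nhds (by simpa using hV1))
  classical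
  obtain ⟨hn, hn'⟩ := Nat.find_spec hex
  refine Set.mem_iUnion₂.2 ⟨Nat.find hex, Finset.mem_range.2 ?_, _, hn', by simp⟩
  obtain ⟨j, hj, hj'⟩ := Set.mem_iUnion₂.1
    (hT ⟨(cyc h).1.mul_mem ((cyc h).1.pow_mem (mem_cyc h) _) ha, hn'⟩)
  have h3 : j ≤ T.sup id := Finset.le_sup (f := id) hj
  by_contra hlt
  refine Nat.find_min hex (m := Nat.find hex - (j + 1)) (by omega) ⟨by omega, ?_⟩
  rw [pow_sub h (by omega), ← (Commute.pow_pow_self h _ _).inv_left.eq, mul_assoc]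
  exact interior_subset hj'

theorem Periodic.isCompact_cyc (hG : Periodic G) (x : G) : IsCompact ((cyc x).1 : Set G) := by
  obtain ⟨K, hK, hx⟩ := hG x
  exact hK.closure_of_subset (Subgroup.zpowers_le.2 hx)

omit [IsTopologicalGroup G] in
theorem Periodic.sub (hG : Periodic G) (A : CS G) : Periodic A.1 := by
  intro x
  obtain ⟨K, hK, hx⟩ := hG x
  exact ⟨K.comap A.1.subtype, A.2.isClosedEmbedding_subtypeVal.isCompact_preimage hK, hx⟩

omit [IsTopologicalGroup G] in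
theorem exists_minimal [CompactSpace G] {ι : Type} (F : ι → Set G) (hF : ∀ i, IsClosed (F i))
    (Y₀ : CS G) (h : ∀ i, ∃ y ∈ Y₀.1, y ∈ F i) :
    ∃ Y ≤ Y₀, (∀ i, ∃ y ∈ Y.1, y ∈ F i) ∧ ∀ E < Y, ∃ i, ∀ y ∈ E.1, y ∉ F i := by
  obtain ⟨Y, hY, hY'⟩ := @zorn_le_nonempty₀ (CS G)ᵒᵈ _ {Y : CS G | ∀ i, ∃ y ∈ Y.1, y ∈ F i}
    (fun c hc hch y hy => by
      refine ⟨(sInf c : CS G), fun i => ?_, fun z hz => (sInf_le (α := CS G) hz)⟩
      have : Nonempty c := ⟨⟨y, hy⟩⟩
      obtain ⟨x, hx⟩ := IsCompact.nonempty_iInter_of_directed_nonempty_isCompact_isClosed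
        (fun A : c => ((A.1 : CS G).1 : Set G) ∩ F i) (fun A B => by
          rcases hch.total A.2 B.2 with h1 | h1
          · exact ⟨B, Set.inter_subset_inter_left _ h1, subset_rfl⟩
          · exact ⟨A, subset_rfl, Set.inter_subset_inter_left _ h1⟩)
        (fun A => hc A.2 i) (fun A => ((A.1 : CS G).2.inter (hF i)).isCompact)
        (fun A => (A.1 : CS G).2.inter (hF i))
      rw [Set.mem_iInter] at hx
      exact ⟨x, mem_sInf.2 fun A hA => (hx ⟨A, hA⟩).1, (hx ⟨y, hy⟩).2⟩) Y₀ h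
  refine ⟨Y, hY, hY'.1, fun E hE => ?_⟩
  by_contra hcon
  push Not at hcon
  exact hE.not_ge (hY'.2 hcon hE.le)

theorem exists_cji_mono [CompactSpace G] [T2Space G] {q : G}
    (hq : Dense (Subgroup.zpowers q : Set G)) {B : CS G} (hB : B ≠ ⊤) :
    ∃ D : CS G, IsCji D ∧ ¬ D ≤ B := by
  obtain ⟨χ, hχ, hB', g, hg⟩ := exists_char_of_lt hq B.2 (fun h => hB (eq_top.2 h))
  obtain ⟨x, hx⟩ : ∃ x, (orderOf (χ x)).Prime := by
    rcases char_image χ hχ (Y := ⊤) isClosed_univ with h | ⟨m, hm, h⟩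
    · obtain ⟨z, hz⟩ := circle_order two_pos
      obtain ⟨y, -, rfl⟩ := h z
      exact ⟨y, hz ▸ Nat.prime_two⟩
    · have h1 : 0 < orderOf (χ g) :=
        (isOfFinOrder_iff_pow_eq_one.2 ⟨m, hm, h g trivial⟩).orderOf_pos
      obtain ⟨p, hp, hp'⟩ := Nat.exists_prime_and_dvd (mt orderOf_eq_one_iff.1 hg)
      refine ⟨g ^ (orderOf (χ g) / p), ?_⟩
      rwa [map_pow, orderOf_pow_orderOf_div h1.ne' hp']
  have hfin : (Subgroup.zpowers (χ x) : Set Circle).Finite :=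
    finite_zpowers.2 (orderOf_pos_iff.1 hx.pos)
  obtain ⟨D, hD, hD1, hD2⟩ := exists_minimal (fun _ : Unit => {y | χ y = χ x})
    (fun _ => isClosed_eq hχ continuous_const) (CS.comap χ hχ (mk _ hfin.isClosed))
    fun _ => ⟨x, Subgroup.mem_zpowers _, rfl⟩
  obtain ⟨y, hy, hy'⟩ := hD1 ()
  have hne : χ y ≠ 1 := fun h => hx.ne_one (by rw [← hy', h, orderOf_one])
  refine ⟨D, ⟨D ⊓ CS.comap χ hχ ⊥, inf_lt_left.2 fun h => hne (by simpa [CS.mem_comap] using h hy),
    fun E hE => le_inf hE.le fun e he => ?_⟩, fun h => hne (hB' (h hy))⟩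
  obtain ⟨-, h1⟩ := hD2 E hE
  by_contra h2
  have := Fact.mk hx
  have h3 : χ x ∈ Subgroup.zpowers (χ e) := by
    have h4 := mem_zpowers_of_prime_card (G := Subgroup.zpowers (χ x)) (p := orderOf (χ x))
      (Nat.card_zpowers _) (g := ⟨χ e, hD (hE.le he)⟩) (g' := ⟨χ x, Subgroup.mem_zpowers _⟩)
      (fun h => h2 (by simpa [CS.mem_comap] using congrArg Subtype.val h))
    obtain ⟨k, hk⟩ := h4
    exact ⟨k, congrArg Subtype.val hk⟩
  obtain ⟨k, hk⟩ := h3
  exact h1 _ (E.1.zpow_mem he k) (by rw [Set.mem_ofPred_eq, map_zpow]; exact hk)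

theorem exists_cji [T2Space G] (hG : Periodic G) {A B : CS G} (h : ¬ A ≤ B) :
    ∃ D : CS G, IsCji D ∧ D ≤ A ∧ ¬ D ≤ B := by
  obtain ⟨a, ha, ha'⟩ := SetLike.not_le_iff_exists.1 (mt le_def.2 h)
  have : CompactSpace (cyc a).1 := isCompact_iff_compactSpace.1 (hG.isCompact_cyc a)
  obtain ⟨B', hB'⟩ := (exists_emb (cyc a) (B ⊓ cyc a)).2 inf_le_right
  obtain ⟨D, hD, hD'⟩ := exists_cji_mono (dense_cyc a) (B := B') (by
    rintro rfl
    rw [emb_top] at hB'
    exact ha' (cyc_le.1 (hB'.le.trans inf_le_left)))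
  refine ⟨emb _ D, (IsCji.map _ fun b hb => (exists_emb _ _).2 (hb.trans (emb_le _ _))).2 hD,
    (emb_le _ _).trans (cyc_le.2 ha), fun h1 => hD' ?_⟩
  rw [← (emb _).le_iff_le, hB']
  exact le_inf h1 (emb_le _ _)

theorem Periodic.iso {H : Type} [Group H] [TopologicalSpace H] [IsTopologicalGroup H] [T2Space G]
    [LocallyCompactSpace H] [T2Space H] (hG : Periodic G) (φ : CS G ≃o CS H) : Periodic H := by
  intro h
  rcases weil h with hc | ⟨O, hO, hO'⟩
  · exact ⟨_, hc, mem_cyc h⟩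
  exfalso
  have hOO : ∀ k : ℤ, h ^ k ∈ O → (h ^ k)⁻¹ ∈ O → k = 0 := by
    intro k h1 h2
    obtain ⟨n, rfl | rfl⟩ := Int.eq_nat_or_neg k
    · by_contra h3
      exact hO' n (by omega) (by simpa using h1)
    · by_contra h3
      exact hO' n (by omega) (by simpa using h2)
  have hinf : ∀ k : ℤ, h ^ k = 1 → k = 0 := fun k hk =>
    hOO k (by rw [hk]; exact mem_of_mem_nhds hO) (by rw [hk, inv_one]; exact mem_of_mem_nhds hO)
  have hcl : ∀ S : Subgroup H, S ≤ Subgroup.zpowers h → IsClosed (S : Set H) := by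
    intro S hS
    have : DiscreteTopology S := by
      refine discreteTopology_of_isOpen_singleton_one (isOpen_induced_iff.2
        ⟨interior O ∩ (interior O)⁻¹, isOpen_interior.inter isOpen_interior.inv, ?_⟩)
      refine Set.eq_singleton_iff_unique_mem.2 ⟨⟨mem_interior_iff_mem_nhds.2 hO, by
        simpa using mem_interior_iff_mem_nhds.2 hO⟩, ?_⟩
      rintro ⟨x, hx⟩ ⟨h1, h2⟩
      obtain ⟨k, rfl⟩ := hS hx
      obtain rfl := hOO k (interior_subset h1) (interior_subset h2)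
      exact Subtype.ext (zpow_zero h)
    exact Subgroup.isClosed_of_discrete
  obtain ⟨D, hD, hD1, hD2⟩ := exists_cji hG (A := φ.symm (mk _ (hcl _ le_rfl))) (B := ⊥) (by
    rw [φ.symm_apply_le, φ.map_bot]
    intro h1
    have h2 := hinf 1 (by simpa using h1 (Subgroup.mem_zpowers h))
    exact one_ne_zero h2)
  rw [φ.le_symm_apply] at hD1
  rw [← IsCji.iso φ] at hD
  obtain ⟨x, hx⟩ := CS.IsCji.eq_cyc hD
  obtain ⟨D₁, h1, h2⟩ := hD
  rw [hx] at h1 h2 hD1
  obtain ⟨k, rfl⟩ : ∃ k : ℤ, h ^ k = x := hD1 (mem_cyc x)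
  have hk : k ≠ 0 := by
    rintro rfl
    exact h1.not_ge (cyc_le.2 (by simp))
  have h3 : ∀ j : ℤ, 2 ≤ j → (h ^ k) ^ j ∈ D₁.1 := by
    intro j hj
    have h4 : Subgroup.zpowers ((h ^ k) ^ j) ≤ (cyc (h ^ k)).1 :=
      Subgroup.zpowers_le.2 ((cyc _).1.zpow_mem (mem_cyc _) j)
    refine h2 (mk _ (hcl _ (h4.trans hD1))) (lt_of_le_of_ne h4 fun h5 => ?_)
      (Subgroup.mem_zpowers _)
    obtain ⟨i, hi⟩ : h ^ k ∈ Subgroup.zpowers ((h ^ k) ^ j) := h5.ge (mem_cyc _)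
    have h6 := hinf (k * (j * i - 1)) (by
      rw [mul_sub, mul_one, zpow_sub, zpow_mul, zpow_mul, mul_inv_eq_one]; exact hi)
    have h7 : j * i = 1 := by
      have := (mul_eq_zero.1 h6).resolve_left hk
      omega
    have := Int.eq_one_or_neg_one_of_mul_eq_one h7
    omega
  refine h1.not_ge (cyc_le.2 ?_)
  have h4 := D₁.1.mul_mem (h3 3 (by norm_num)) (D₁.1.inv_mem (h3 2 le_rfl))
  rwa [← zpow_sub, show (3 : ℤ) - 2 = 1 from rfl, zpow_one] at h4

theorem finite_of_mono [CompactSpace G] [T2Space G] {q : G}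
    (hq : Dense (Subgroup.zpowers q : Set G)) [Finite (CS G)] : Finite G := by
  have h1 : ∀ χ : G →* Circle, Continuous χ → χ.ker.FiniteIndex := by
    intro χ hχ
    rcases char_image χ hχ (Y := ⊤) isClosed_univ with h | ⟨m, hm, h⟩
    · exfalso
      choose z hz using fun n : ℕ => circle_order n.succ_pos
      have hfin : ∀ n, (Subgroup.zpowers (z n) : Set Circle).Finite := fun n =>
        finite_zpowers.2 (orderOf_pos_iff.1 (hz n ▸ n.succ_pos))
      refine not_injective_infinite_finite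
        (fun n : ℕ => CS.comap χ hχ (mk _ (hfin n).isClosed)) fun a b hab => ?_
      have h2 : Subgroup.zpowers (z a) = Subgroup.zpowers (z b) :=
        Subgroup.comap_injective (f := χ) (fun w => by
          obtain ⟨y, -, hy⟩ := h w
          exact ⟨y, hy⟩) (congrArg CS.val hab)
      have h3 := Nat.card_zpowers (z a)
      rw [h2, Nat.card_zpowers, hz, hz] at h3
      omega
    · have : Finite χ.range := Set.Finite.to_subtype (s := (χ.range : Set Circle))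
        ((circle_finite hm).subset (by rintro _ ⟨x, rfl⟩; exact h x trivial))
      infer_instance
  have h2 : (⨅ A : {A : CS G // A.1.FiniteIndex}, A.1.1).FiniteIndex :=
    Subgroup.finiteIndex_iInf fun A => A.2
  have h3 : (⨅ A : {A : CS G // A.1.FiniteIndex}, A.1.1) = ⊥ := by
    rw [eq_bot_iff]
    intro g hg
    by_contra hne
    obtain ⟨χ, hχ, hχ'⟩ := exists_char_ne_one hq hne
    exact hχ' (Subgroup.mem_iInf.1 hg ⟨mk χ.ker (isClosed_eq hχ continuous_const), h1 χ hχ⟩)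
  rw [h3] at h2
  exact Nat.finite_of_card_ne_zero (by rw [← Subgroup.index_bot]; exact h2.index_ne_zero)

theorem finite_of_finite_CS [T2Space G] (hG : Periodic G) [Finite (CS G)] : Finite G := by
  have h1 : ∀ x : G, ((cyc x).1 : Set G).Finite := by
    intro x
    have : CompactSpace (cyc x).1 := isCompact_iff_compactSpace.1 (hG.isCompact_cyc x)
    have : Finite (CS (cyc x).1) := Finite.of_injective _ (emb _).injective
    have : Finite (cyc x).1 := finite_of_mono (dense_cyc x)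
    exact Set.toFinite _
  refine Set.finite_univ_iff.1 ((Set.Finite.biUnion (Set.toFinite (Set.range (cyc : G → CS G)))
    (t := fun A => (A.1 : Set G)) ?_).subset fun x _ => ?_)
  · rintro _ ⟨x, rfl⟩
    exact h1 x
  · exact Set.mem_biUnion ⟨x, rfl⟩ (mem_cyc x)

theorem finiteIndex_of_finite_Ici (hG : Periodic G) (W : CS G) [W.1.Normal]
    (h : (Set.Ici W).Finite) : W.1.FiniteIndex := by
  have := W.2
  have : Finite (CS (G ⧸ W.1)) := Set.finite_univ_iff.1 (Set.Finite.of_finite_image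
    (h.subset (by rintro _ ⟨D, -, rfl⟩; exact (exists_quo _ _).1 ⟨D, rfl⟩))
    (quo W.1).injective.injOn)
  have := finite_of_finite_CS (hG.map _ QuotientGroup.continuous_mk
    (QuotientGroup.mk'_surjective W.1))
  exact Subgroup.finiteIndex_of_finite_quotient

theorem platonov [LocallyCompactSpace G] [T2Space G] {Γ : Set G} (hΓ : Dense Γ)
    (h : ∀ F : Finset G, (F : Set G) ⊆ Γ → ∃ K : Subgroup G, IsCompact (K : Set G) ∧
      (F : Set G) ⊆ K) (F : Finset G) :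
    ∃ K : Subgroup G, IsCompact (K : Set G) ∧ (F : Set G) ⊆ K := by
  obtain ⟨C₀, hC₀, hC₀1⟩ := exists_compact_mem_nhds (1 : G)
  let C := (C₀ ∪ F) ∪ (C₀ ∪ F)⁻¹
  have hC : IsCompact C := (hC₀.union F.finite_toSet.isCompact).union
    (hC₀.union F.finite_toSet.isCompact).inv
  have hCs : ∀ x ∈ C, x⁻¹ ∈ C := fun x hx => hx.symm.imp id (by simp)
  have hC1 : C ∈ 𝓝 (1 : G) := mem_of_superset hC₀1 fun x hx => Or.inl (Or.inl hx)
  obtain ⟨T, hT⟩ := (hC.mul hC).elim_finite_subcover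
    (fun γ : Γ => {c | (γ : G)⁻¹ * c ∈ interior C})
    (fun γ => isOpen_interior.preimage (continuous_const_mul _)) (fun c _ => by
      obtain ⟨y, hy, hy'⟩ := mem_closure_iff_nhds.1 (hΓ c) {y | y⁻¹ * c ∈ interior C}
        ((by fun_prop : Continuous fun y => y⁻¹ * c).continuousAt.preimage_mem_nhds
          (by simpa using hC1))
      exact Set.mem_iUnion.2 ⟨⟨y, hy'⟩, hy⟩)
  classical
  obtain ⟨K, hK, hTK⟩ := h (T.image Subtype.val) (by simp)
  have h1 : C * C ⊆ K * C := fun c hc => by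
    obtain ⟨γ, hγ, hγ'⟩ := Set.mem_iUnion₂.1 (hT hc)
    exact ⟨γ, hTK (by simpa using hγ), _, interior_subset hγ', by simp⟩
  have h2 : ∀ n : ℕ, C ^ n ⊆ K * C := by
    intro n
    induction n with
    | zero => simpa using ⟨1, K.one_mem, 1, mem_of_mem_nhds hC1, mul_one _⟩
    | succ n ih =>
      rw [pow_succ]
      refine (Set.mul_subset_mul_right ih).trans ?_
      rw [mul_assoc]
      refine (Set.mul_subset_mul_left h1).trans ?_
      rw [← mul_assoc, coe_mul_coe]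
  let L : Subgroup G :=
    { carrier := {x | ∃ n : ℕ, x ∈ C ^ n}
      one_mem' := ⟨0, by simp⟩
      mul_mem' := by
        rintro a b ⟨m, hm⟩ ⟨n, hn⟩
        exact ⟨m + n, by rw [pow_add]; exact Set.mul_mem_mul hm hn⟩
      inv_mem' := by
        rintro a ⟨m, hm⟩
        exact ⟨m, inv_mem_pow hCs _ _ hm⟩ }
  have hCL : C ⊆ L := fun x hx => ⟨1, by simpa using hx⟩
  refine ⟨L, (hK.mul hC).of_isClosed_subset (L.isClosed_of_isOpen (L.isOpen_of_mem_nhds
    (mem_of_superset hC1 hCL))) ?_, fun x hx => hCL (Or.inl (Or.inr hx))⟩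
  rintro x ⟨n, hn⟩
  exact h2 n hn

theorem PP.le_of_open {Y N : CS G} (h : PP Y) (hY : Y ≤ N) (U : Subgroup N.1)
    (hU : IsOpen (U : Set N.1)) : Y ≤ emb N (ofOpen U hU) := by
  by_contra hcon
  obtain ⟨E, h1, h2, h3, T, X, h4, h5, h6⟩ := h (Y ⊓ emb N (ofOpen U hU)) (inf_lt_left.2 hcon)
  obtain ⟨O, hO, hOU⟩ := isOpen_induced_iff.1 hU
  have hdir : Directed (· ≤ ·) fun n => (E n).1 :=
    Monotone.directed_le fun a b hab => le_def.1 (h1 hab)
  have h7 : IsOpen ((⨆ n, (E n).1).subgroupOf Y.1 : Set Y.1) := by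
    refine Subgroup.isOpen_of_mem_nhds _ (g := 1) (mem_of_superset
      ((hO.preimage continuous_subtype_val).mem_nhds (show (1 : N.1) ∈ Subtype.val ⁻¹' O by
        rw [hOU]; exact U.one_mem)) fun y hy => ?_)
    refine Subgroup.mem_iSup_of_mem 0 ((h2 0).1 ?_)
    rw [inf_val]
    exact ⟨y.2, ⟨y, hY y.2⟩, by change _ ∈ (U : Set N.1); rw [← hOU]; exact hy, rfl⟩
  have h8 : (emb Y (ofOpen _ h7)).1 = ⨆ n, (E n).1 :=
    Subgroup.map_subgroupOf_eq_of_le (iSup_le fun n => (h2 n).2)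
  have h9 := h3 (emb Y (ofOpen _ h7)) (emb_le _ _) fun n => by
    rw [CS.le_def, h8]; exact le_iSup (fun n => (E n).1) n
  refine h4.not_ge fun x hx => ?_
  have h10 : x ∈ ⨆ n, (E n).1 := by rw [← h8, h9]; exact h5 hx
  obtain ⟨n, hn⟩ := (Subgroup.mem_iSup_of_directed hdir).1 h10
  exact cyc_le.1 (h6 n _ (cyc_le.2 hx) (cyc_le.2 hn))

theorem npo_PRad : NPO (PRad (CS G)).1 := by
  intro U hU
  have h1 : PRad (CS G) ≤ emb _ (ofOpen U hU) :=
    sSup_le fun Y hY => PP.le_of_open hY (le_sSup hY) U hU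
  conv_lhs at h1 => rw [← emb_top (PRad (CS G))]
  exact eq_top.1 (top_le_iff.1 ((emb _).le_iff_le.1 h1))

omit [IsTopologicalGroup G] in
theorem exists_PP [CompactSpace G] (χ : G →* Circle) (hχ : Continuous χ)
    (hs : ∀ z, ∃ y, χ y = z) : ∃ Y : CS G, PP Y ∧ ∃ y ∈ Y.1, χ y ≠ 1 := by
  obtain ⟨Y, -, hY1, hY2⟩ := exists_minimal (fun z : Circle => {y | χ y = z})
    (fun _ => isClosed_eq hχ continuous_const) ⊤ fun z => by simpa using hs z
  have hY3 : ∀ E < Y, ∃ m : ℕ, 0 < m ∧ ∀ x ∈ E.1, χ x ^ m = 1 := by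
    intro E hE
    refine (char_image χ hχ E.2).resolve_left fun h => ?_
    obtain ⟨z, hz⟩ := hY2 E hE
    obtain ⟨y, hy, hy'⟩ := h z
    exact hz y hy hy'
  let P : ℕ → CS G := fun N => mk ((powMonoidHom N).comp χ).ker
    (isClosed_eq ((continuous_pow N).comp hχ) continuous_const)
  have hP : ∀ N x, x ∈ (Y ⊓ P N).1 ↔ x ∈ Y.1 ∧ χ x ^ N = 1 := fun N x => by
    rw [inf_val]; rfl
  have hord : ∀ m N : ℕ, 0 < m → 0 < N → ∃ y ∈ Y.1, orderOf (χ y ^ m) = N := by
    intro m N hm hN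
    obtain ⟨z, hz⟩ := circle_order hN
    obtain ⟨w, rfl⟩ := circle_root hm z
    obtain ⟨y, hy, rfl⟩ := hY1 w
    exact ⟨y, hy, hz⟩
  refine ⟨Y, fun W hW => ?_, ?_⟩
  · obtain ⟨m, hm, hWm⟩ := hY3 W hW
    refine ⟨fun n => Y ⊓ P (m * 2 ^ n), monotone_nat_of_le_succ fun n x hx => ?_,
      fun n => ⟨fun x hx => ?_, inf_le_left⟩, fun J hJ hJ' => ?_, Y ⊓ P m, Y ⊓ P (m * 3),
      ?_, inf_le_left, fun n Z h1 h2 x hx => ?_⟩
    · rw [hP] at hx ⊢
      exact ⟨hx.1, by rw [pow_succ, ← mul_assoc, pow_mul, hx.2, one_pow]⟩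
    · exact (hP _ _).2 ⟨hW.le hx, by rw [pow_mul, hWm x hx, one_pow]⟩
    · by_contra hne
      obtain ⟨k, hk, hJk⟩ := hY3 J (lt_of_le_of_ne hJ hne)
      obtain ⟨y, hy, hy'⟩ := hord m (2 ^ k) hm (by positivity)
      have h1 := hJk y (hJ' k ((hP _ _).2 ⟨hy, by rw [pow_mul, ← hy', pow_orderOf_eq_one]⟩))
      have h2 : orderOf (χ y ^ m) ∣ k :=
        orderOf_dvd_of_pow_eq_one (by rw [← pow_mul, mul_comm, pow_mul, h1, one_pow])
      rw [hy'] at h2
      exact (Nat.le_of_dvd hk h2).not_gt Nat.lt_two_pow_self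
    · refine lt_of_le_of_ne (fun x hx => ?_) fun he => ?_
      · rw [hP] at hx ⊢
        exact ⟨hx.1, by rw [pow_mul, hx.2, one_pow]⟩
      · obtain ⟨y, hy, hy'⟩ := hord m 3 hm (by norm_num)
        have h1 : y ∈ (Y ⊓ P (m * 3)).1 :=
          (hP _ _).2 ⟨hy, by rw [pow_mul, ← hy', pow_orderOf_eq_one]⟩
        rw [← he, hP] at h1
        rw [h1.2, orderOf_one] at hy'
        omega
    · obtain ⟨h3, h4⟩ := (hP _ _).1 (h1 hx)
      obtain ⟨-, h5⟩ := (hP _ _).1 (h2 hx)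
      rw [pow_mul] at h4 h5
      refine (hP _ _).2 ⟨h3, ?_⟩
      have := pow_gcd_eq_one.2 ⟨h4, h5⟩
      rwa [Nat.Coprime.gcd_eq_one (Nat.Coprime.pow_right n (by norm_num)), pow_one] at this
  · obtain ⟨y, hy, hy'⟩ := hord 1 2 one_pos two_pos
    refine ⟨y, hy, fun h => ?_⟩
    rw [h, one_pow, orderOf_one] at hy'
    omega

/-- Open normal subgroups separate points. -/
def Sep (G : Type) [Group G] [TopologicalSpace G] : Prop :=
  ∀ g : G, g ≠ 1 → ∃ U : Subgroup G, IsOpen (U : Set G) ∧ U.Normal ∧ g ∉ U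

theorem sep_quotient [CompactSpace G] [T2Space G] (N : CS G) [N.1.Normal] (hN : PRad (CS G) ≤ N) :
    Sep (G ⧸ N.1) := by
  intro g hg
  have := N.2
  obtain ⟨n, ρ, hρ, hρ'⟩ := peterWeyl hg
  refine exists_open_of_roots ρ hρ (fun q c hc => ?_) hρ'
  obtain ⟨q, rfl⟩ := QuotientGroup.mk_surjective q
  obtain ⟨v, hv, hv'⟩ := exists_eigvec_of_root hc
  have : CompactSpace (cyc q).1 := isCompact_iff_compactSpace.1 (cyc q).2.isCompact
  obtain ⟨χ, hχ, hχ'⟩ := exists_char_of_eigvec (dense_cyc q)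
    ((ρ.comp (QuotientGroup.mk' N.1)).comp (cyc q).1.subtype)
    ((hρ.comp QuotientGroup.continuous_mk).comp continuous_subtype_val) hv (c := c) hv'
  rcases char_image χ hχ (Y := ⊤) isClosed_univ with h | ⟨m, hm, h⟩
  · exfalso
    obtain ⟨Y, hY, y, hy, hy'⟩ := exists_PP χ hχ fun z => by simpa using h z
    have h1 : emb _ Y ≤ N := (le_sSup (PP.map (emb _)
      (fun b hb => (exists_emb _ _).2 (hb.trans (emb_le _ _))) hY)).trans hN
    have h2 : ((y : G) : G ⧸ N.1) = 1 := (QuotientGroup.eq_one_iff _).2 (h1 ⟨y, hy, rfl⟩)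
    have h3 := hχ' y
    change Matrix.mulVec (ρ ((y : G) : G ⧸ N.1)) v = _ at h3
    rw [h2, map_one, Matrix.one_mulVec] at h3
    refine hy' (Circle.ext (smul_left_injective ℂ hv ?_))
    simpa using h3.symm
  · refine ⟨m, hm, ?_⟩
    have h1 : c = χ ⟨q, mem_cyc q⟩ := smul_left_injective ℂ hv (hv'.symm.trans (hχ' ⟨q, mem_cyc q⟩))
    rw [h1, ← Circle.coe_pow, h _ trivial, Circle.coe_one]

end Pool.Agent.MP_45783b_al

end MrgPart1

-- ======== part 2: formerly Pool.Agent.MP_45783b_al.FinMM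
section MrgPart2

/-!
Maximal modular subgroups of finite index.
-/

set_option autoImplicit false

namespace Pool.Agent.MP_45783b_al

open Subgroup

variable {G : Type} [Group G]

/-- The group theoretic form of being a modular coatom. -/
def GMM (W : Subgroup G) : Prop := W ≠ ⊤ ∧ ∀ V, W.normalCore ≤ V → V ≤ W ∨ V ⊓ W ⋖ V

/-- The structure of a modular coatom of finite index. -/
structure Concl (W : Subgroup G) : Prop where
  prime : W.index.Prime
  compl : ∃ R : Subgroup G, R.Normal ∧ R ⊓ W = W.normalCore ∧ R ⊔ W = ⊤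
  small : W.Normal ∨ ((W.normalCore.relIndex W).Prime ∧ W.normalCore.relIndex W < W.index)

theorem mem_core {W : Subgroup G} {x : G} : x ∈ W.normalCore ↔ ∀ g, g * x * g⁻¹ ∈ W := Iff.rfl

theorem GMM.coatom {W : Subgroup G} (h : GMM W) : IsCoatom W := by
  rcases h.2 ⊤ le_top with h1 | h1
  · exact (h.1 (top_le_iff.1 h1)).elim
  · rwa [top_inf_eq, covBy_top_iff] at h1

theorem index_eq_relIndex {P W : Subgroup G} [P.Normal] [P.FiniteIndex] (h : P ⊔ W = ⊤) :
    W.index = W.relIndex P := by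
  have h1 : P.index = P.relIndex W := by rw [← relIndex_sup_left, h, relIndex_top_right]
  have h2 := relIndex_mul_index (inf_le_left : P ⊓ W ≤ P)
  have h3 := relIndex_mul_index (inf_le_right : P ⊓ W ≤ W)
  rw [inf_relIndex_left] at h2
  rw [inf_relIndex_right, ← h1, ← h2, mul_comm] at h3
  exact mul_right_cancel₀ FiniteIndex.index_ne_zero h3

theorem card_prime_of_simple [Finite G] (h : (⊥ : Subgroup G) ⋖ ⊤) : (Nat.card G).Prime := by
  have h1 : Nat.card G ≠ 1 := fun h1 => h.ne (by rw [eq_comm, ← card_eq_one, card_top, h1])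
  obtain ⟨p, hp, hp'⟩ := Nat.exists_prime_and_dvd h1
  have := Fact.mk hp
  obtain ⟨g, hg⟩ := exists_prime_orderOf_dvd_card' p hp'
  rcases h.eq_or_eq (c := zpowers g) bot_le le_top with h2 | h2
  · rw [zpowers_eq_bot] at h2
    rw [h2, orderOf_one] at hg
    exact (hp.ne_one hg.symm).elim
  · rwa [← card_top, ← h2, Nat.card_zpowers, hg]

/-- Preimages under a surjection. -/
def comapE {Q : Type} [Group Q] (f : G →* Q) (hf : Function.Surjective f) :
    Subgroup Q ↪o Subgroup G :=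
  OrderEmbedding.ofMapLEIff (comap f) fun _ _ => comap_le_comap_of_surjective hf

/-- Subgroups of a subgroup. -/
def mapE (V : Subgroup G) : Subgroup V ↪o Subgroup G :=
  OrderEmbedding.ofMapLEIff (map V.subtype) fun _ _ => map_subtype_le_map_subtype

theorem index_prime_of_coatom {M : Subgroup G} [M.Normal] [M.FiniteIndex] (h : IsCoatom M) :
    M.index.Prime := by
  refine card_prime_of_simple (G := G ⧸ M)
    (CovBy.of_image (comapE _ (QuotientGroup.mk'_surjective M)) ?_)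
  change comap _ ⊥ ⋖ comap _ ⊤
  rwa [comap_top, MonoidHom.comap_bot, QuotientGroup.ker_mk', covBy_top_iff]

theorem coatom_subgroupOf {W V : Subgroup G} (h : V ⊓ W ⋖ V) : IsCoatom (W.subgroupOf V) := by
  rw [← covBy_top_iff]
  refine CovBy.of_image (mapE V) ?_
  change map _ _ ⋖ map _ _
  rwa [subgroupOf_map_subtype, ← MonoidHom.range_eq_map, range_subtype, inf_comm]

theorem LMM.subgroupOf {W V : Subgroup G} (h : LMM W) (hV : ¬ V ≤ W) : LMM (W.subgroupOf V) := by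
  refine ⟨coatom_subgroupOf ((h.2 V).resolve_left hV), fun X => ?_⟩
  refine (h.2 (X.map V.subtype)).imp (fun h1 => map_le_iff_le_comap.1 h1) fun h1 => ?_
  refine CovBy.of_image (mapE V) ?_
  change map _ _ ⋖ map _ _
  rwa [map_inf _ _ _ V.subtype_injective, subgroupOf_map_subtype, inf_comm W, ← inf_assoc,
    inf_eq_left.2 (map_subtype_le X)]

theorem core_comap {Q : Type} [Group Q] {f : G →* Q} (hf : Function.Surjective f)
    (W : Subgroup Q) : (W.comap f).normalCore = W.normalCore.comap f := by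
  ext x
  simp only [mem_core, mem_comap, map_mul, map_inv]
  exact ⟨fun h g => by obtain ⟨g, rfl⟩ := hf g; exact h g, fun h g => h _⟩

theorem GMM.of_comap {Q : Type} [Group Q] {f : G →* Q} (hf : Function.Surjective f)
    {W : Subgroup Q} (h : GMM (W.comap f)) : GMM W := by
  refine ⟨fun h1 => h.1 (by rw [h1, comap_top]), fun V hV => ?_⟩
  refine (h.2 (V.comap f) (by rw [core_comap hf]; exact comap_mono hV)).imp
    (comap_le_comap_of_surjective hf).1 fun h1 => CovBy.of_image (comapE f hf) h1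

theorem Concl.comap {Q : Type} [Group Q] {f : G →* Q} (hf : Function.Surjective f)
    {W : Subgroup Q} (h : Concl W) : Concl (W.comap f) := by
  obtain ⟨h1, ⟨R, hR, h2, h3⟩, h4⟩ := h
  refine ⟨by rwa [index_comap_of_surjective _ hf], ⟨R.comap f, hR.comap f, ?_, ?_⟩, ?_⟩
  · rw [core_comap hf, ← h2, comap_inf]
  · rw [comap_sup_eq _ _ _ hf, h3, comap_top]
  · refine h4.imp (fun h => h.comap f) fun h => ?_
    rwa [core_comap hf, relIndex_comap, map_comap_eq_self_of_surjective hf,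
      index_comap_of_surjective _ hf]

theorem exists_quot (W : Subgroup G) : ∃ W' : Subgroup (G ⧸ W.normalCore),
    W'.comap (QuotientGroup.mk' _) = W ∧ W'.normalCore = ⊥ := by
  have h1 : (W.map (QuotientGroup.mk' W.normalCore)).comap (QuotientGroup.mk' _) = W :=
    comap_map_eq_self (by rw [QuotientGroup.ker_mk']; exact W.normalCore_le)
  refine ⟨_, h1, comap_injective (QuotientGroup.mk'_surjective _) ?_⟩
  rw [← core_comap (QuotientGroup.mk'_surjective _), h1, MonoidHom.comap_bot,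
    QuotientGroup.ker_mk']

theorem card_lt_of_ne_top [Finite G] {V : Subgroup G} (h : V ≠ ⊤) : Nat.card V < Nat.card G :=
  lt_of_le_of_ne (card_le_card_group V) fun h1 => h (eq_top_of_card_eq _ h1)

theorem commutator_mem_of_prime {W : Subgroup G} [W.Normal] (h : W.index.Prime) (x y : G) :
    x * y * x⁻¹ * y⁻¹ ∈ W := by
  have := Fact.mk h
  have : IsCyclic (G ⧸ W) := isCyclic_of_prime_card (p := W.index) rfl
  rw [← QuotientGroup.eq_one_iff]
  obtain ⟨g, hg⟩ := IsCyclic.exists_generator (α := G ⧸ W)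
  obtain ⟨a, ha⟩ := hg x
  obtain ⟨b, hb⟩ := hg y
  simp only [QuotientGroup.mk_mul, QuotientGroup.mk_inv, ← ha, ← hb]
  group

theorem mem_zpowers_of_card {R : Subgroup G} (h : (Nat.card R).Prime) {x y : G} (hx : x ∈ R)
    (hx1 : x ≠ 1) (hy : y ∈ R) : ∃ k : ℤ, x ^ k = y := by
  have := Fact.mk h
  obtain ⟨k, hk⟩ := mem_zpowers_of_prime_card (G := R) rfl (g := ⟨x, hx⟩) (g' := ⟨y, hy⟩)
    fun h => hx1 (congrArg Subtype.val h)
  exact ⟨k, congrArg Subtype.val hk⟩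

theorem concl_corefree [Finite G] {W : Subgroup G} (hW : LMM W) (hc : W.normalCore = ⊥)
    (ih : ∀ V : Subgroup G, V ≠ ⊤ → ∀ W' : Subgroup V, LMM W' → Concl W') : Concl W := by
  by_cases hW0 : W = ⊥
  · subst hW0
    refine ⟨?_, ⟨⊤, inferInstance, by simp, by simp⟩, Or.inl inferInstance⟩
    rw [index_bot]
    exact card_prime_of_simple (covBy_top_iff.2 hW.1)
  have hnn : ¬ W.Normal := fun h => hW0 (by rw [← hc, normalCore_eq_self])
  have hnle : ∀ N : Subgroup G, N.Normal → N ≠ ⊥ → ¬ N ≤ W := fun N hN h0 h =>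
    h0 (le_bot_iff.1 (hc ▸ normal_le_normalCore.2 h))
  have hsup : ∀ N : Subgroup G, N.Normal → N ≠ ⊥ → N ⊔ W = ⊤ := fun N hN h0 =>
    hW.1.2 _ (right_lt_sup.2 (hnle N hN h0))
  have hG1 : Nat.card G ≠ 1 := fun h => hW0 (card_eq_one.1 (Nat.dvd_one.1 (h ▸ card_subgroup_dvd_card W)))
  set p := (Nat.card G).minFac with hp
  have := Fact.mk (Nat.minFac_prime hG1)
  obtain ⟨P⟩ : Nonempty (Sylow p G) := inferInstance
  have hP0 : (P : Subgroup G) ≠ ⊥ := P.ne_bot_of_dvd_card (Nat.minFac_dvd _)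
  have hPn : ¬ (P : Subgroup G).Normal := by
    intro hPn
    refine hnn (normal_of_index_eq_minFac_card ?_)
    have h1 := coatom_subgroupOf ((hW.2 P).resolve_left (hnle P hPn hP0))
    have := P.isPGroup'.isNilpotent
    have := NormalizerCondition.normal_of_coatom _ Group.normalizerCondition_of_isNilpotent h1
    have h2 := index_prime_of_coatom h1
    obtain ⟨n, hn⟩ := P.isPGroup'.index (W.subgroupOf P)
    rw [index_eq_relIndex (hsup P hPn hP0), relIndex]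
    exact (Nat.prime_dvd_prime_iff_eq h2 Fact.out).1 (h2.dvd_of_dvd_pow hn.dvd)
  have hN : normalizer (P : Set G) ≠ ⊤ := fun h => hPn (normalizer_eq_top_iff.1 h)
  have hcomm : ∀ W' : Subgroup G, LMM W' → ∀ x ∈ P, ∀ n ∈ normalizer (P : Set G),
      x * n * x⁻¹ * n⁻¹ ∈ W' := by
    intro W' hW' x hx n hn
    have hxN : x ∈ normalizer (P : Set G) := (P : Subgroup G).le_normalizer hx
    by_cases hle : normalizer (P : Set G) ≤ W'
    · exact hle (mul_mem (mul_mem (mul_mem hxN hn) (inv_mem hxN)) (inv_mem hn))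
    have hl := hW'.subgroupOf hle
    obtain ⟨h1, -, h2 | ⟨h2, h3⟩⟩ := ih _ hN _ hl
    · exact commutator_mem_of_prime h1 ⟨x, hxN⟩ ⟨n, hn⟩
    by_cases hPW : (P : Subgroup G) ≤ W'
    · refine hPW ?_
      rw [mul_assoc, mul_assoc, ← mul_assoc n]
      exact mul_mem hx ((mem_normalizer_iff.1 hn _).1 (inv_mem hx))
    exfalso
    have hnor : ((P : Subgroup G).subgroupOf (normalizer (P : Set G))).Normal :=
      normal_in_normalizer
    have h4 := index_eq_relIndex (hl.1.2 _ (right_lt_sup.2 (fun h => hPW fun y hy =>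
      h (show (⟨y, (P : Subgroup G).le_normalizer hy⟩ : normalizer (P : Set G)) ∈
        (P : Subgroup G).subgroupOf _ from hy))))
    obtain ⟨k, hk⟩ := P.isPGroup'.index (W'.subgroupOf P)
    have h7 : (P : Subgroup G) ≤ normalizer (P : Set G) := (P : Subgroup G).le_normalizer
    rw [relIndex_subgroupOf h7, relIndex, hk] at h4
    have h5 := (Nat.prime_dvd_prime_iff_eq h1 Fact.out).1 (h1.dvd_of_dvd_pow h4.dvd)
    have h6 := Nat.minFac_le_of_dvd h2.two_le (((index_dvd_card _).trans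
      (card_subgroup_dvd_card _)).trans (card_subgroup_dvd_card _))
    omega
  have hNC : normalizer (P : Set G) ≤ centralizer (P : Set G) := by
    intro n hn x hx
    have h1 : x * n * x⁻¹ * n⁻¹ ∈ W.normalCore := fun g => by
      have h2 := hcomm _ (hW.iso (MulAut.conj g⁻¹).mapSubgroup) x hx n hn
      obtain ⟨y, hy, h3⟩ := h2
      rw [← h3]
      simpa [mul_assoc] using hy
    rw [hc, mem_bot, mul_inv_eq_one, mul_inv_eq_iff_eq_mul] at h1
    exact h1
  have hQ := MonoidHom.ker_transferSylow_isComplement' P hNC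
  set Q := (MonoidHom.transferSylow P hNC).ker
  have hQn : Q.Normal := inferInstance
  have hQ0 : Q ≠ ⊥ := fun h => hPn (by
    have := hQ.sup_eq_top
    rw [h, bot_sup_eq] at this
    rw [this]; infer_instance)
  have hQ1 : Q ≠ ⊤ := fun h => hP0 (by
    have := hQ.disjoint
    rwa [h, top_disjoint] at this)
  obtain ⟨h1, ⟨R₀, hR₀, h2, h3⟩, h4⟩ := ih Q hQ1 _ (hW.subgroupOf (hnle Q hQn hQ0))
  have hr : W.index = (W.subgroupOf Q).index := index_eq_relIndex (hsup Q hQn hQ0)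
  have hc' : (W.subgroupOf Q).normalCore = ⊥ := by
    rw [eq_bot_iff]
    intro y hy
    have h5 : (y : G) ∈ W.normalCore := fun g => by
      obtain ⟨w, hw, q, hq, rfl⟩ := mem_sup_of_normal_right.1
        (show g ∈ W ⊔ Q by rw [sup_comm, hsup Q hQn hQ0]; trivial)
      have := W.mul_mem (W.mul_mem hw (hy ⟨q, hq⟩)) (W.inv_mem hw)
      simpa [mul_assoc] using this
    rw [hc, mem_bot] at h5
    exact Subtype.ext h5
  rw [hc'] at h2 h4
  have hcR : Nat.card R₀ = W.index := by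
    rw [hr, index_eq_relIndex h3, ← inf_relIndex_left, h2, relIndex_bot_left]
  have hiR : R₀.index = Nat.card (W.subgroupOf Q) := by
    rw [← relIndex_top_right, ← h3, relIndex_sup_left, ← inf_relIndex_right, h2, relIndex_bot_left]
  have hcop : R₀.index.Coprime W.index := by
    refine ((Nat.Prime.coprime_iff_not_dvd (hr ▸ h1)).2 (Nat.not_dvd_of_pos_of_lt
      (Nat.pos_of_ne_zero FiniteIndex.index_ne_zero) ?_)).symm
    rw [hiR, hr]
    rcases h4 with h | h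
    · have h5 : W.subgroupOf Q = ⊥ := by rw [← hc', normalCore_eq_self]
      calc _ = 1 := by rw [h5, card_bot]
        _ < _ := h1.one_lt
    · rw [← relIndex_bot_left]; exact h.2
  have hcR' : Nat.card (R₀.map Q.subtype) = W.index := by
    rw [card_map_of_injective Q.subtype_injective, hcR]
  have hRn : (R₀.map Q.subtype).Normal := by
    refine ⟨?_⟩
    rintro _ ⟨y, hy, rfl⟩ g
    let z : Q := ⟨g * y * g⁻¹, hQn.conj_mem _ y.2 g⟩
    have h5 : z ^ W.index = 1 := by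
      have h6 : (⟨y, hy⟩ : R₀) ^ W.index = 1 := by rw [← hcR, pow_card_eq_one']
      have h7 : (y : G) ^ W.index = 1 := congrArg (fun t : R₀ => ((t : Q) : G)) h6
      apply Subtype.ext
      change (g * y * g⁻¹) ^ W.index = 1
      rw [conj_pow, h7, mul_one, mul_inv_cancel]
    obtain ⟨m, hm⟩ := exists_pow_eq_self_of_coprime
      (hcop.coprime_dvd_right (orderOf_dvd_of_pow_eq_one h5))
    exact ⟨z, hm ▸ R₀.pow_mem (R₀.pow_index_mem z) m, rfl⟩
  set R := R₀.map Q.subtype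
  have hrp : W.index.Prime := hr ▸ h1
  have hR0 : R ≠ ⊥ := fun h => hrp.ne_one (by rw [← hcR', h, card_bot])
  have hRW : ∀ x ∈ R, x ∈ W → x = 1 := by
    rintro _ ⟨y, hy, rfl⟩ hx
    have : y ∈ R₀ ⊓ W.subgroupOf Q := ⟨hy, hx⟩
    rw [h2, mem_bot] at this
    rw [this, map_one]
  obtain ⟨⟨ρ, hρ⟩, hρ1⟩ := ne_bot_iff_exists_ne_one.1 hR0
  replace hρ1 : ρ ≠ 1 := fun h => hρ1 (Subtype.ext h)
  have hF : ∀ w ∈ W, w * ρ * w⁻¹ = ρ → w = 1 := by
    intro w hw h
    rw [← mem_bot, ← hc]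
    intro g
    obtain ⟨a, ha, b, hb, rfl⟩ := mem_sup_of_normal_right.1
      (show g ∈ W ⊔ R by rw [sup_comm, hsup R hRn hR0]; trivial)
    obtain ⟨k, rfl⟩ := mem_zpowers_of_card (hcR' ▸ hrp) hρ hρ1 hb
    have h5 : Commute (ρ ^ k) w := (Commute.zpow_right (mul_inv_eq_iff_eq_mul.1 h) k).symm
    have h6 : a * ρ ^ k * w * (a * ρ ^ k)⁻¹ = a * w * a⁻¹ := by
      rw [mul_assoc a, h5.eq]; group
    rw [h6]
    exact W.mul_mem (W.mul_mem ha hw) (W.inv_mem ha)
  refine ⟨hrp, ⟨R, hRn, ?_, hsup R hRn hR0⟩, Or.inr ?_⟩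
  · rw [hc, eq_bot_iff]
    exact fun x hx => hRW x hx.1 hx.2
  rw [hc, relIndex_bot_left]
  constructor
  · let V := W.map (MulAut.conj ρ).toMonoidHom
    have hVW : V ⊓ W = ⊥ := by
      rw [eq_bot_iff]
      rintro _ ⟨⟨w, hw, rfl⟩, hw'⟩
      have h5 := hRW (ρ * (w * ρ⁻¹ * w⁻¹)) (R.mul_mem hρ (hRn.conj_mem _ (R.inv_mem hρ) w))
        (by simpa [mul_assoc] using W.mul_mem hw' (W.inv_mem hw))
      rw [hF w hw (by
        calc w * ρ * w⁻¹ = (w * ρ⁻¹ * w⁻¹)⁻¹ := by group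
          _ = ρ := (eq_inv_iff_mul_eq_one.2 h5).symm)]
      simp
    have hV : Nat.card V = Nat.card W := card_map_of_injective (MulAut.conj ρ).injective
    have hVW' : ¬ V ≤ W := fun h => hW0 (by
      rw [inf_eq_left.2 h] at hVW
      rw [← card_eq_one, ← hV, hVW, card_bot])
    have h5 := coatom_subgroupOf ((hW.2 V).resolve_left hVW')
    rw [← inf_subgroupOf_left, hVW, bot_subgroupOf, ← covBy_top_iff] at h5
    exact hV ▸ card_prime_of_simple h5
  · rw [← hcR']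
    let F : W → R := fun w => ⟨w * ρ * w⁻¹, hRn.conj_mem _ hρ w⟩
    have hFi : Function.Injective F := by
      intro a b hab
      have h5 : (a : G) * ρ * a⁻¹ = b * ρ * b⁻¹ := congrArg Subtype.val hab
      have h6 := hF (b⁻¹ * a) (W.mul_mem (W.inv_mem b.2) a.2) (by
        calc _ = (b : G)⁻¹ * (a * ρ * a⁻¹) * b := by simp [mul_assoc]
          _ = ρ := by rw [h5]; simp [mul_assoc])
      exact Subtype.ext (inv_mul_eq_one.1 h6).symm
    refine lt_of_le_of_ne (Nat.card_le_card_of_injective F hFi) fun he => ?_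
    obtain ⟨w, hw⟩ := ((Nat.bijective_iff_injective_and_card F).2 ⟨hFi, he⟩).2 1
    exact hρ1 (by simpa [F] using congrArg Subtype.val hw)

theorem concl_of_lmm : ∀ (n : ℕ) (G : Type) [Group G] [Finite G], Nat.card G = n →
    ∀ W : Subgroup G, LMM W → Concl W := by
  intro n
  induction n using Nat.strong_induction_on with
  | _ n ih =>
    intro G _ _ hn W hW
    by_cases hc : W.normalCore = ⊥
    · exact concl_corefree hW hc fun V hV => ih _ (hn ▸ card_lt_of_ne_top hV) V rfl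
    · obtain ⟨W', h1, h2⟩ := exists_quot W
      have h3 : GMM W' := GMM.of_comap (QuotientGroup.mk'_surjective _)
        (by rw [h1]; exact ⟨hW.1.1, fun V _ => hW.2 V⟩)
      rw [← h1]
      refine Concl.comap (QuotientGroup.mk'_surjective _) (ih _ ?_ _ rfl W'
        ⟨h3.coatom, fun V => h3.2 V (h2 ▸ bot_le)⟩)
      rw [← hn, ← W.normalCore.card_mul_index]
      exact lt_mul_of_one_lt_left (Nat.pos_of_ne_zero FiniteIndex.index_ne_zero)
        ((one_lt_card_iff_ne_bot _).2 hc)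

theorem GMM.concl {W : Subgroup G} [W.FiniteIndex] (hW : GMM W) : Concl W := by
  obtain ⟨W', h1, h2⟩ := exists_quot W
  have h3 : GMM W' := GMM.of_comap (QuotientGroup.mk'_surjective _) (by rwa [h1])
  rw [← h1]
  exact Concl.comap (QuotientGroup.mk'_surjective _) (concl_of_lmm _ _ rfl W'
    ⟨h3.coatom, fun V => h3.2 V (h2 ▸ bot_le)⟩)

end Pool.Agent.MP_45783b_al

end MrgPart2

-- ======== part 3: formerly Pool.Agent.MP_45783b_al.LemB
section MrgPart3

/-!
A bound for the indices in an interval consisting of modular coatoms.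
-/

set_option autoImplicit false

namespace Pool.Agent.MP_45783b_al

open Subgroup
open scoped Pointwise

variable {G : Type} [Group G]

theorem index_eq_ncard_range {X : Type} (N : Subgroup G) (F : G → X)
    (h : ∀ a b, F a = F b ↔ a⁻¹ * b ∈ N) :
    N.index = (Set.range F).ncard ∧ ((Set.range F).Finite → N.FiniteIndex) := by
  let f : G ⧸ N → X := Quotient.lift F fun a b hab => (h a b).2 (QuotientGroup.leftRel_apply.1 hab)
  have h1 : Function.Injective f := by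
    intro a b hab
    obtain ⟨a, rfl⟩ := QuotientGroup.mk_surjective a
    obtain ⟨b, rfl⟩ := QuotientGroup.mk_surjective b
    exact QuotientGroup.eq.2 ((h a b).1 hab)
  have h2 : Set.range f = Set.range F := Set.range_quotient_lift (s := QuotientGroup.leftRel N) _
  rw [← h2]
  refine ⟨(Nat.card_range_of_injective h1).symm, fun h3 => ?_⟩
  have := (Set.finite_range_iff h1).1 h3
  exact finiteIndex_of_finite_quotient

theorem map_conj_eq_iff (Y : Subgroup G) (a b : G) :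
    Y.map (MulAut.conj a).toMonoidHom = Y.map (MulAut.conj b).toMonoidHom ↔
      a⁻¹ * b ∈ normalizer (Y : Set G) := by
  have h : ∀ c x, x ∈ Y.map (MulAut.conj c).toMonoidHom ↔ c⁻¹ * x * c ∈ Y := fun c x => by
    constructor
    · rintro ⟨y, hy, rfl⟩
      simpa [mul_assoc] using hy
    · intro hx
      exact ⟨_, hx, by simp [mul_assoc]⟩
  rw [mem_normalizer_iff'', Subgroup.ext_iff]
  simp only [h]
  refine ⟨fun h1 x => ?_, fun h1 x => ?_⟩
  · simpa [mul_assoc] using h1 (a * x * a⁻¹)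
  · simpa [mul_assoc] using h1 (a⁻¹ * x * a)

theorem lemB_corefree [Finite G] {C : Subgroup G} (hc : C.normalCore = ⊥)
    (h : ∀ Y, C < Y → Y < ⊤ → GMM Y) (h3 : 2 < {Y | C < Y ∧ Y < ⊤}.ncard) {Y₁ : Subgroup G}
    (hY₁ : C < Y₁) (hY₁' : Y₁ < ⊤) : Y₁.index ≤ {Y | C < Y ∧ Y < ⊤}.ncard ^ 2 := by
  set 𝒜 := {Y | C < Y ∧ Y < ⊤}
  have hG : ∀ Y ∈ 𝒜, GMM Y := fun Y hY => h Y hY.1 hY.2
  have hnC : ∀ N : Subgroup G, N.Normal → N ≤ C → N = ⊥ := fun N hN h =>
    le_bot_iff.1 (hc ▸ normal_le_normalCore.2 h)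
  by_cases hcase : ∃ Y ∈ 𝒜, Y.normalCore ≤ C
  · obtain ⟨Y, hY, hYC⟩ := hcase
    have h1 := hnC _ inferInstance hYC
    have hnn : ¬ Y.Normal := fun hn => by
      rw [normalCore_eq_self] at h1
      exact not_lt_bot (h1 ▸ hY.1)
    obtain ⟨h2, h4⟩ := (hG Y hY).concl.small.resolve_left hnn
    rw [h1, relIndex_bot_left] at h2 h4
    have hC : C = ⊥ := by
      rcases (Nat.dvd_prime h2).1 (card_dvd_of_le hY.1.le) with h5 | h5
      · exact card_eq_one.1 h5
      · exact (hY.1.ne (eq_of_le_of_card_ge hY.1.le h5.ge)).elim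
    have h5 : normalizer (Y : Set G) = Y :=
      ((hG Y hY).coatom.le_iff.1 le_normalizer).resolve_left fun h => hnn (normalizer_eq_top_iff.1 h)
    have h6 := (index_eq_ncard_range _ _ (map_conj_eq_iff Y)).1
    have h7 : Y.index ≤ 𝒜.ncard := by
      rw [← h5, h6]
      refine Set.ncard_le_ncard ?_
      rintro _ ⟨g, rfl⟩
      have h8 := (MulAut.conj g).mapSubgroup.lt_iff_lt.2 (hC ▸ hY.1)
      have h9 := (MulAut.conj g).mapSubgroup.lt_iff_lt.2 hY.2
      rw [OrderIso.map_bot] at h8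
      rw [OrderIso.map_top] at h9
      exact ⟨hC ▸ h8, h9⟩
    calc Y₁.index ≤ Nat.card G := Nat.le_of_dvd Nat.card_pos (index_dvd_card _)
      _ = Nat.card Y * Y.index := Y.card_mul_index.symm
      _ ≤ _ := by rw [sq]; exact Nat.mul_le_mul (h4.le.trans h7) h7
  push Not at hcase
  have hthree : ∀ Y, ∃ Y₂ ∈ 𝒜, ∃ Y₃ ∈ 𝒜, Y ≠ Y₂ ∧ Y ≠ Y₃ ∧ Y₂ ≠ Y₃ := by
    obtain ⟨a, ha, b, hb, c, hc, hab, hac, hbc⟩ := (Set.two_lt_ncard (Set.toFinite _)).1 h3
    intro Y
    by_cases h1 : Y = a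
    · exact ⟨b, hb, c, hc, h1 ▸ hab, h1 ▸ hac, hbc⟩
    by_cases h2 : Y = b
    · exact ⟨a, ha, c, hc, h1, h2 ▸ hbc, hac⟩
    · exact ⟨a, ha, b, hb, h1, h2, hab⟩
  have hinf : ∀ Y ∈ 𝒜, ∀ Y' ∈ 𝒜, Y ≠ Y' → Y ⊓ Y' ≤ C := by
    intro Y hY Y' hY' hne
    by_contra hcon
    have h1 := (h (Y ⊓ Y') (lt_of_le_of_ne (le_inf hY.1.le hY'.1.le) fun h => hcon h.ge)
      (inf_le_left.trans_lt hY.2)).coatom
    exact hne (((h1.le_iff.1 inf_le_left).resolve_left hY.2.ne).trans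
      ((h1.le_iff.1 inf_le_right).resolve_left hY'.2.ne).symm)
  have hsup : ∀ Y ∈ 𝒜, C ⊔ Y.normalCore = Y := by
    intro Y hY
    have h1 : C ⊔ Y.normalCore ≤ Y := sup_le hY.1.le Y.normalCore_le
    have h2 := (h _ (left_lt_sup.2 (hcase Y hY)) (h1.trans_lt hY.2)).coatom
    exact ((h2.le_iff.1 h1).resolve_left hY.2.ne).symm
  have hdis : ∀ Y ∈ 𝒜, ∀ Y' ∈ 𝒜, Y ≠ Y' → Disjoint Y.normalCore Y'.normalCore :=
    fun Y hY Y' hY' hne => disjoint_iff.2 (hnC _ inferInstance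
      ((inf_le_inf Y.normalCore_le Y'.normalCore_le).trans (hinf Y hY Y' hY' hne)))
  have hcom : ∀ Y ∈ 𝒜, ∀ Y' ∈ 𝒜, Y ≠ Y' → ∀ x ∈ Y.normalCore, ∀ y ∈ Y'.normalCore,
      Commute x y := fun Y hY Y' hY' hne x hx y hy =>
    commute_of_normal_of_disjoint _ _ inferInstance inferInstance (hdis Y hY Y' hY' hne) x y hx hy
  have hgen : ∀ Y ∈ 𝒜, ∀ Y' ∈ 𝒜, Y ≠ Y' → C ⊔ (Y.normalCore ⊔ Y'.normalCore) = ⊤ := by
    intro Y hY Y' hY' hne
    rw [sup_sup_distrib_left, hsup Y hY, hsup Y' hY']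
    exact (hG Y hY).coatom.sup_eq_top_of_ne (hG Y' hY').coatom hne
  have hcent : ∀ Y ∈ 𝒜, ∀ Y' ∈ 𝒜, Y ≠ Y' → ∀ c ∈ C,
      (∀ y ∈ Y.normalCore ⊔ Y'.normalCore, Commute c y) → c = 1 := by
    intro Y hY Y' hY' hne c hc' hc''
    rw [← mem_bot, ← hc]
    intro g
    obtain ⟨a, ha, b, hb, rfl⟩ := mem_sup_of_normal_right.1
      (show g ∈ C ⊔ (Y.normalCore ⊔ Y'.normalCore) by rw [hgen Y hY Y' hY' hne]; trivial)
    rw [show a * b * c * (a * b)⁻¹ = a * c * a⁻¹ by rw [mul_assoc a, ← (hc'' b hb).eq]; group]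
    exact C.mul_mem (C.mul_mem ha hc') (C.inv_mem ha)
  have hcomsup : ∀ (c : G) (A B : Subgroup G), (∀ y ∈ A, Commute c y) → (∀ y ∈ B, Commute c y) →
      ∀ y ∈ A ⊔ B, Commute c y := fun c A B hA hB y hy =>
    (mem_centralizer_singleton_iff.1 ((sup_le (c := centralizer {c})
      (fun y hy => mem_centralizer_singleton_iff.2 (hA y hy).symm)
      (fun y hy => mem_centralizer_singleton_iff.2 (hB y hy).symm)) hy)).symm
  have hNC : ∀ Y ∈ 𝒜, ∀ x ∈ Y.normalCore, x ∈ C → x = 1 := by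
    intro Y hY x hx hxC
    obtain ⟨Y₂, h2, Y₃, h3, h12, h13, h23⟩ := hthree Y
    exact hcent Y₂ h2 Y₃ h3 h23 x hxC (hcomsup x _ _ (hcom Y hY Y₂ h2 h12 x hx)
      (hcom Y hY Y₃ h3 h13 x hx))
  have hcard : ∀ Y ∈ 𝒜, ∀ Y' ∈ 𝒜, Y ≠ Y' → Y.index = Nat.card Y'.normalCore := by
    intro Y hY Y' hY' hne
    have h1 : Y'.normalCore ⊔ Y = ⊤ := (hG Y hY).coatom.2 _ (right_lt_sup.2 fun h =>
      hcase Y' hY' ((le_inf h Y'.normalCore_le).trans (hinf Y hY Y' hY' hne)))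
    have h2 : Y'.normalCore ⊓ Y = ⊥ := eq_bot_iff.2 fun x hx =>
      hNC Y' hY' x hx.1 (hinf Y hY Y' hY' hne ⟨hx.2, Y'.normalCore_le hx.1⟩)
    rw [index_eq_relIndex h1, ← inf_relIndex_left, h2, relIndex_bot_left]
  have h1 : Y₁ ∈ 𝒜 := ⟨hY₁, hY₁'⟩
  obtain ⟨Y₂, h2, Y₃, h3', h12, h13, h23⟩ := hthree Y₁
  have hr := (hG Y₁ h1).concl.prime
  have c2 := hcard Y₁ h1 Y₂ h2 h12
  have c3 := hcard Y₁ h1 Y₃ h3' h13
  have c1 : Y₁.index = Nat.card Y₁.normalCore := by
    rw [c3, ← hcard Y₂ h2 Y₃ h3' h23, hcard Y₂ h2 Y₁ h1 h12.symm]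
  have habel : ∀ N : Subgroup G, (Nat.card N).Prime → ∀ x ∈ N, ∀ y ∈ N, Commute x y := by
    intro N hN x hx y hy
    by_cases hx1 : x = 1
    · rw [hx1]; exact Commute.one_left y
    · obtain ⟨k, rfl⟩ := mem_zpowers_of_card hN hx hx1 hy
      exact Commute.self_zpow x k
  set M := Y₁.normalCore ⊔ Y₂.normalCore with hM
  have hMab : ∀ x ∈ M, ∀ y ∈ M, Commute x y := by
    intro x hx
    refine hcomsup x _ _ (fun y hy => (hcomsup y _ _ (habel _ (c1 ▸ hr) y hy)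
      (hcom Y₁ h1 Y₂ h2 h12 y hy) x hx).symm) fun y hy => (hcomsup y _ _
        (hcom Y₂ h2 Y₁ h1 h12.symm y hy) (habel _ (c2 ▸ hr) y hy) x hx).symm
  obtain ⟨⟨y, hy⟩, hy1⟩ := ne_bot_iff_exists_ne_one.1 (show Y₃.normalCore ≠ ⊥ from fun h =>
    hcase Y₃ h3' (h ▸ bot_le))
  replace hy1 : y ≠ 1 := fun h => hy1 (Subtype.ext h)
  have hyM : y ∈ M := by
    obtain ⟨c, hc', m, hm, rfl⟩ := mem_sup_of_normal_right.1
      (show y ∈ C ⊔ M by rw [hgen Y₁ h1 Y₂ h2 h12]; trivial)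
    have h4 := hcent Y₁ h1 Y₂ h2 h12 c hc' fun z hz => by
      have h5 := (hcomsup _ _ _ (hcom Y₃ h3' Y₁ h1 h13.symm _ hy)
        (hcom Y₃ h3' Y₂ h2 h23.symm _ hy) z hz).mul_left (hMab m hm z hz).inv_left
      rwa [mul_inv_cancel_right] at h5
    rwa [h4, one_mul]
  obtain ⟨n₁, hn₁, n₂, hn₂, rfl⟩ := mem_sup_of_normal_right.1 hyM
  have hn₁1 : n₁ ≠ 1 := by
    rintro rfl
    exact hy1 (disjoint_def.1 (hdis Y₃ h3' Y₂ h2 h23.symm) hy (by simpa using hn₂))
  have hn₂1 : n₂ ≠ 1 := by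
    rintro rfl
    exact hy1 (disjoint_def.1 (hdis Y₃ h3' Y₁ h1 h13.symm) hy (by simpa using hn₁))
  have hpow : ∀ c : G, ∃ a : ℤ, ∀ m ∈ M, c * m * c⁻¹ = m ^ a := by
    intro c
    obtain ⟨a, ha⟩ := mem_zpowers_of_card (c3 ▸ hr) hy hy1
      ((inferInstance : Y₃.normalCore.Normal).conj_mem _ hy c)
    have hc12 := hcom Y₁ h1 Y₂ h2 h12 n₁ hn₁ n₂ hn₂
    rw [hc12.mul_zpow] at ha
    have h4 : (c * n₁ * c⁻¹)⁻¹ * n₁ ^ a = (c * n₂ * c⁻¹) * (n₂ ^ a)⁻¹ := by
      rw [inv_mul_eq_iff_eq_mul, ← mul_assoc, eq_mul_inv_iff_mul_eq, ha]; group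
    have h5 : (c * n₁ * c⁻¹)⁻¹ * n₁ ^ a = 1 := disjoint_def.1 (hdis Y₁ h1 Y₂ h2 h12)
      (mul_mem (inv_mem ((inferInstance : Y₁.normalCore.Normal).conj_mem _ hn₁ c))
        (zpow_mem hn₁ a))
      (h4 ▸ mul_mem ((inferInstance : Y₂.normalCore.Normal).conj_mem _ hn₂ c)
        (inv_mem (zpow_mem hn₂ a)))
    rw [h5, eq_comm, mul_inv_eq_one] at h4
    rw [inv_mul_eq_one] at h5
    refine ⟨a, fun m hm => ?_⟩
    obtain ⟨m₁, hm₁, m₂, hm₂, rfl⟩ := mem_sup_of_normal_right.1 hm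
    rw [(hcom Y₁ h1 Y₂ h2 h12 m₁ hm₁ m₂ hm₂).mul_zpow]
    obtain ⟨i, rfl⟩ := mem_zpowers_of_card (c1 ▸ hr) hn₁ hn₁1 hm₁
    obtain ⟨j, rfl⟩ := mem_zpowers_of_card (c2 ▸ hr) hn₂ hn₂1 hm₂
    rw [← zpow_mul, ← zpow_mul, mul_comm i, mul_comm j, zpow_mul, zpow_mul, ← h4, ← h5, conj_zpow,
      conj_zpow]
    group
  have hexp : ∀ m ∈ M, m ^ Y₁.index = 1 := by
    intro m hm
    obtain ⟨m₁, hm₁, m₂, hm₂, rfl⟩ := mem_sup_of_normal_right.1 hm
    have h4 : m₁ ^ Y₁.index = 1 := by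
      rw [c1]; exact congrArg Subtype.val (pow_card_eq_one' (x := (⟨m₁, hm₁⟩ : Y₁.normalCore)))
    have h5 : m₂ ^ Y₁.index = 1 := by
      rw [c2]; exact congrArg Subtype.val (pow_card_eq_one' (x := (⟨m₂, hm₂⟩ : Y₂.normalCore)))
    rw [(hcom Y₁ h1 Y₂ h2 h12 m₁ hm₁ m₂ hm₂).mul_pow, h4, h5, one_mul]
  have hcover : ∀ m ∈ M, ∃ Y ∈ 𝒜, m ∈ Y := by
    intro m hm
    by_cases hmC : m ∈ C
    · exact ⟨Y₁, h1, hY₁.le hmC⟩
    refine ⟨zpowers m ⊔ C, ⟨right_lt_sup.2 fun h => hmC (h (mem_zpowers m)),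
      lt_top_iff_ne_top.2 fun ht => ?_⟩, mem_sup_left (mem_zpowers m)⟩
    have : (zpowers m).Normal := ⟨by
      rintro _ ⟨k, rfl⟩ g
      obtain ⟨a, ha⟩ := hpow g
      rw [ha _ (zpow_mem hm k)]
      exact zpow_mem (zpow_mem_zpowers m k) a⟩
    have h4 := index_eq_relIndex ht
    have h5 : C.relIndex (zpowers m) ≤ Y₁.index := by
      refine (Nat.le_of_dvd Nat.card_pos (index_dvd_card _)).trans ?_
      rw [Nat.card_zpowers]
      exact orderOf_le_of_pow_eq_one hr.pos (hexp m hm)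
    have h6 := relIndex_mul_index hY₁.le
    have h7 : 1 < C.relIndex Y₁ := one_lt_index_of_ne_top fun h =>
      hY₁.not_ge (subgroupOf_eq_top.1 h)
    have := hr.pos
    nlinarith
  obtain ⟨Y, hY, -, hY'⟩ := exists_index_le_card_of_leftCoset_cover (G := M)
    (s := (Set.toFinite 𝒜).toFinset) (H := fun Y => Y.subgroupOf M) (g := fun _ => 1) (by
      refine Set.eq_univ_of_forall fun m => ?_
      obtain ⟨Y, hY, hm⟩ := hcover m m.2
      exact Set.mem_iUnion₂.2 ⟨Y, by simpa using hY, by simpa [mem_subgroupOf] using hm⟩)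
  rw [← Set.ncard_eq_toFinset_card] at hY'
  rw [Set.Finite.mem_toFinset] at hY
  have := Fact.mk hr
  have hp : IsPGroup Y₁.index M := fun m => ⟨1, Subtype.ext (by simpa using hexp m m.2)⟩
  obtain ⟨k, hk⟩ := hp.index (Y.subgroupOf M)
  have hk0 : k ≠ 0 := by
    rintro rfl
    rw [pow_zero, index_eq_one, subgroupOf_eq_top] at hk
    exact hY.2.not_ge ((hgen Y₁ h1 Y₂ h2 h12).ge.trans (sup_le hY.1.le hk))
  exact (Nat.le_self_pow hk0 _).trans ((hk ▸ hY').trans (Nat.le_self_pow two_ne_zero _))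

theorem lemB {C : Subgroup G} [C.FiniteIndex]
    (h : ∀ Y, C < Y → Y < ⊤ → GMM Y) (h3 : 2 < {Y | C < Y ∧ Y < ⊤}.ncard) {Y₁ : Subgroup G}
    (hY₁ : C < Y₁) (hY₁' : Y₁ < ⊤) : Y₁.index ≤ {Y | C < Y ∧ Y < ⊤}.ncard ^ 2 := by
  obtain ⟨C', h1, h2⟩ := exists_quot C
  have hs := QuotientGroup.mk'_surjective C.normalCore
  have hE : ∀ Y, C < Y → ∃ Y', comapE _ hs Y' = Y := fun Y hY =>
    ⟨_, comap_map_eq_self (by rw [QuotientGroup.ker_mk']; exact C.normalCore_le.trans hY.le)⟩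
  have h4 : ∀ Y', (C < comapE _ hs Y' ∧ comapE _ hs Y' < ⊤) ↔ (C' < Y' ∧ Y' < ⊤) := fun Y' => by
    have h5 : comapE _ hs C' = C := h1
    rw [← (comapE _ hs).lt_iff_lt, ← (comapE _ hs).lt_iff_lt (b := ⊤), h5]
    rfl
  have h5 : {Y | C < Y ∧ Y < ⊤} = comapE _ hs '' {Y | C' < Y ∧ Y < ⊤} := by
    ext Y
    constructor
    · intro hY
      obtain ⟨Y', rfl⟩ := hE Y hY.1
      exact ⟨Y', (h4 Y').1 hY, rfl⟩
    · rintro ⟨Y', hY', rfl⟩
      exact (h4 Y').2 hY'
  rw [h5, Set.ncard_image_of_injective _ (comapE _ hs).injective] at h3 ⊢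
  obtain ⟨Y', rfl⟩ := hE Y₁ hY₁
  obtain ⟨h6, h7⟩ := (h4 Y').1 ⟨hY₁, hY₁'⟩
  refine le_trans (index_comap_of_surjective _ hs).le (lemB_corefree h2 (fun Y h8 h9 => ?_) h3 h6 h7)
  obtain ⟨h10, h11⟩ := (h4 Y).2 ⟨h8, h9⟩
  exact GMM.of_comap hs (h _ h10 h11)

end Pool.Agent.MP_45783b_al

end MrgPart3

-- ======== part 4: formerly Pool.Agent.MP_45783b_al.ZR
section MrgPart4

/-!
Lattice isomorphisms preserve finiteness of the index of open subgroups of finitely generated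
profinite groups.
-/

set_option autoImplicit false

namespace Pool.Agent.MP_45783b_al

open Topology CS

/-- There are finitely many open subgroups of bounded index. -/
def FI (G : Type) [Group G] [TopologicalSpace G] : Prop :=
  ∀ n : ℕ, {U : Subgroup G | IsOpen (U : Set G) ∧ U.index ≤ n}.Finite

theorem mul_dvd_primes {r s b c : ℕ} (hr : r.Prime) (hs : s.Prime) (hb : b ≠ 1) (hc : c ≠ 1)
    (h : b * c ∣ r * s) : r * s ∣ b * c := by
  obtain ⟨p, hp, hpb⟩ := Nat.exists_prime_and_dvd hb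
  obtain ⟨q, hq, hqc⟩ := Nat.exists_prime_and_dvd hc
  have h1 := mul_dvd_mul hpb hqc
  have h2 := h1.trans h
  refine dvd_trans (dvd_of_eq ?_) h1
  rcases (hp.dvd_mul.1 ((dvd_mul_right p q).trans h2)) with h3 | h3
  · obtain rfl := (Nat.prime_dvd_prime_iff_eq hp hr).1 h3
    rw [(Nat.prime_dvd_prime_iff_eq hq hs).1 (Nat.dvd_of_mul_dvd_mul_left hp.pos h2)]
  · obtain rfl := (Nat.prime_dvd_prime_iff_eq hp hs).1 h3
    rw [mul_comm r] at h2 ⊢
    rw [(Nat.prime_dvd_prime_iff_eq hq hr).1 (Nat.dvd_of_mul_dvd_mul_left hp.pos h2)]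

theorem cov_of_index {G : Type} [Group G] {C Y : Subgroup G} [C.Normal] {r s : ℕ} (hr : r.Prime)
    (hs : s.Prime) (hC : C.index = r * s) (hY : C < Y) (V : Subgroup G) : V ≤ Y ∨ V ⊓ Y ⋖ V := by
  by_cases hV : V ≤ Y
  · exact Or.inl hV
  refine Or.inr ⟨inf_lt_left.2 hV, fun X h1 h2 => ?_⟩
  have h3 := Subgroup.relIndex_mul_relIndex _ _ _ h1.le h2.le
  have h4 := Subgroup.relIndex_mul_relIndex _ _ _ (inf_le_inf_left V hY.le) (inf_le_left (b := Y))
  have h5 := C.relIndex_dvd_index_of_normal V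
  rw [Subgroup.inf_relIndex_left V C] at h4
  have h6 := mul_dvd_primes hr hs (mt Subgroup.relIndex_eq_one.1 h1.not_ge)
    (mt Subgroup.relIndex_eq_one.1 h2.not_ge)
    (by rw [h3, ← hC]; exact (Dvd.intro_left _ h4).trans h5)
  rw [h3, ← hC] at h6
  have h0 : C.index ≠ 0 := hC ▸ mul_ne_zero hr.ne_zero hs.ne_zero
  have h7 : C.relIndex V = C.index := Nat.dvd_antisymm h5 (h6.trans (Dvd.intro_left _ h4))
  have h8 : (V ⊓ Y).relIndex V = C.index :=
    Nat.dvd_antisymm ((Dvd.intro_left _ h4).trans h5) h6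
  rw [h7, h8, mul_eq_right₀ h0, Subgroup.relIndex_eq_one] at h4
  have h9 := Subgroup.relIndex_mul_index (le_sup_right : C ≤ V ⊔ C)
  rw [Subgroup.relIndex_sup_right, h7, mul_eq_left₀ h0, Subgroup.index_eq_one] at h9
  refine hY.not_ge fun y hy => ?_
  obtain ⟨v, hv, c, hc, rfl⟩ := Subgroup.mem_sup_of_normal_right.1 (h9.ge (Subgroup.mem_top y))
  exact C.mul_mem (h4 ⟨hv, (Y.mul_mem_cancel_right (hY.le hc)).1 hy⟩).2 hc

variable {L : Type} [Group L] [TopologicalSpace L] [IsTopologicalGroup L]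

omit [IsTopologicalGroup L] in
theorem exists_disjoint_of_sep (p : Subgroup L → Prop) (h0 : p ⊤)
    (hinf : ∀ A B, p A → p B → p (A ⊓ B)) (hcl : ∀ A, p A → IsClosed (A : Set L)) {C : Set L}
    (hC : IsCompact C) (h : ∀ x ∈ C, ∃ U, p U ∧ x ∉ U) : ∃ U, p U ∧ ∀ x ∈ C, x ∉ U := by
  refine hC.induction_on (p := fun C => ∃ U, p U ∧ ∀ x ∈ C, x ∉ U) ⟨⊤, h0, by simp⟩ ?_ ?_ ?_
  · rintro s t hst ⟨U, hU, hU'⟩
    exact ⟨U, hU, fun x hx => hU' x (hst hx)⟩
  · rintro s t ⟨U, hU, hU'⟩ ⟨V, hV, hV'⟩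
    exact ⟨U ⊓ V, hinf _ _ hU hV, fun x hx hx' => hx.elim (fun h => hU' x h hx'.1)
      fun h => hV' x h hx'.2⟩
  · intro x hx
    obtain ⟨U, hU, hU'⟩ := h x hx
    exact ⟨(U : Set L)ᶜ, mem_nhdsWithin_of_mem_nhds ((hcl U hU).isOpen_compl.mem_nhds hU'),
      U, hU, fun _ h => h⟩

theorem Sep.exists_notMem [CompactSpace L] (hL : Sep L) (A : CS L) {g : L} (hg : g ∉ A.1) :
    ∃ U : CS L, IsOpen (U.1 : Set L) ∧ U.1.Normal ∧ g ∉ (A ⊔ U).1 := by
  obtain ⟨U, ⟨h1, h2⟩, h3⟩ := exists_disjoint_of_sep (fun U => IsOpen (U : Set L) ∧ U.Normal)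
    ⟨isOpen_univ, inferInstance⟩ (fun A B hA hB => ⟨hA.1.inter hB.1, by
      have := hA.2; have := hB.2; infer_instance⟩) (fun A hA => A.isClosed_of_isOpen hA.1)
    (A.2.isCompact.image (f := fun a => a⁻¹ * g) (by fun_prop)) (by
      rintro _ ⟨a, ha, rfl⟩
      obtain ⟨U, h1, h2, h3⟩ := hL (a⁻¹ * g) fun h => hg (inv_mul_eq_one.1 h ▸ ha)
      exact ⟨U, ⟨h1, h2⟩, h3⟩)
  refine ⟨ofOpen U h1, h1, h2, fun h => ?_⟩
  rw [sup_val_right h1] at h
  obtain ⟨a, ha, u, hu, rfl⟩ := (Subgroup.mem_sup_of_normal_right (ht := h2)).1 h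
  exact h3 _ ⟨a, ha, rfl⟩ (by simpa using hu)

theorem Sep.isOpen_of_finite_Ici [CompactSpace L] (hL : Sep L) {A : CS L}
    (h : (Set.Ici A).Finite) : IsOpen (A.1 : Set L) := by
  obtain ⟨B, hB⟩ := (h.subset (s := Set.Ici A) (t := {B | A ≤ B ∧ IsOpen (B.1 : Set L)})
    fun B hB => hB.1).exists_minimal ⟨⊤, le_top, by simp⟩
  suffices B ≤ A from Subgroup.isOpen_mono this hB.1.2
  intro g hg
  by_contra hgA
  obtain ⟨U, h1, -, h3⟩ := hL.exists_notMem A hgA
  have h4 := hB.2 (y := B ⊓ (A ⊔ U)) ⟨le_inf hB.1.1 le_sup_left, by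
    rw [inf_val]
    exact hB.1.2.inter (Subgroup.isOpen_mono (CS.le_def.1 le_sup_right) h1)⟩ inf_le_left
  exact h3 ((h4.trans inf_le_right) hg)

theorem Sep.isOpen_of_coatom [CompactSpace L] (hL : Sep L) {A : CS L} (h : IsCoatom A) :
    IsOpen (A.1 : Set L) :=
  hL.isOpen_of_finite_Ici ((Set.toFinite {⊤, A}).subset fun _ hB => h.le_iff.1 hB)

theorem finiteIndex_of_open [CompactSpace L] {U : Subgroup L} (h : IsOpen (U : Set L)) :
    U.FiniteIndex :=
  have := U.quotient_finite_of_isOpen h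
  Subgroup.finiteIndex_of_finite_quotient

omit [IsTopologicalGroup L] in
theorem FI.finite (hF : FI L) (n : ℕ) :
    {U : CS L | IsOpen (U.1 : Set L) ∧ U.1.index ≤ n}.Finite :=
  (hF n).preimage (f := CS.val) fun _ _ _ _ h => CS.ext h

theorem FI.finite_Ici [CompactSpace L] (hF : FI L) {A : CS L} (h : IsOpen (A.1 : Set L)) :
    (Set.Ici A).Finite :=
  have := finiteIndex_of_open h
  (hF.finite A.1.index).subset fun _ hB => ⟨Subgroup.isOpen_mono hB h, Subgroup.index_antitone hB⟩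

/-- The normal core of a closed subgroup. -/
def core (A : CS L) : CS L := ⟨A.1.normalCore, A.1.normalCore_isClosed A.2⟩

theorem isOpen_core {A : CS L} [A.1.FiniteIndex] : IsOpen ((core A).1 : Set L) :=
  Subgroup.isOpen_of_isClosed_of_finiteIndex A.1.normalCore (core A).2

theorem LMM.gmm [CompactSpace L] {A : CS L} (h : LMM A) (hA : IsOpen (A.1 : Set L)) : GMM A.1 := by
  have := finiteIndex_of_open hA
  refine ⟨fun h1 => h.1.1 (eq_top.2 h1), fun V hV => ?_⟩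
  refine (h.2 (ofOpen V (Subgroup.isOpen_mono hV isOpen_core))).imp id fun h1 => ?_
  refine ⟨by have h2 := CS.lt_def.1 h1.1; rw [inf_val] at h2; exact h2, fun X h2 h3 => ?_⟩
  exact h1.2 (c := ofOpen X (Subgroup.isOpen_mono ((le_inf hV A.1.normalCore_le).trans h2.le)
    isOpen_core)) (by rw [CS.lt_def, inf_val]; exact h2) h3

omit [IsTopologicalGroup L] in
theorem lmm_of_subgroup {A : CS L} (hA : A ≠ ⊤) (h : ∀ V : Subgroup L, V ≤ A.1 ∨ V ⊓ A.1 ⋖ V) :
    LMM A := by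
  have h1 : ∀ V : CS L, V ≤ A ∨ V ⊓ A ⋖ V := fun V => (h V.1).imp id fun h2 =>
    ⟨by rw [CS.lt_def, inf_val]; exact h2.1, fun X h3 h4 => h2.2 (c := X.1)
      (by rw [CS.lt_def, inf_val] at h3; exact h3) h4⟩
  refine ⟨?_, h1⟩
  have h2 := (h1 ⊤).resolve_left fun h => hA (top_le_iff.1 h)
  rwa [top_inf_eq, covBy_top_iff] at h2

theorem le_core {A B : CS L} (h : ∀ g, conj g A ≤ B) : A ≤ core B := fun x hx g =>
  h g (mem_conj.2 (by simpa [mul_assoc] using hx))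

variable {H : Type} [Group H] [TopologicalSpace H] [IsTopologicalGroup H]

theorem finiteIndex_nor {W : CS H} (h : (Set.range fun g => conj g W).Finite) :
    (nor W).1.FiniteIndex := by
  refine (index_eq_ncard_range _ _ fun a b => ?_).2 h
  rw [mem_nor, CS.conj_mul]
  constructor
  · intro h1
    rw [← h1, ← CS.conj_mul, inv_mul_cancel]
    exact conj_eq_of_mem W.1.one_mem
  · intro h1
    conv_lhs => rw [← h1, ← CS.conj_mul, ← CS.conj_mul, mul_inv_cancel, one_mul]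

theorem zr_caseA [CompactSpace L] (hF : FI L) (φ : CS L ≃o CS H) {M : CS L}
    (hM : IsOpen (M.1 : Set L)) [hn : M.1.Normal] (hM' : M ≠ ⊤)
    (hmax : ∀ N : CS L, N.1.Normal → M < N → N = ⊤) (hc : ¬ IsCoatom M) : (φ M).1.Normal := by
  have hmod := isMod_of_open_normal hM
  have hfin := hF.finite_Ici hM
  have hconj : ∀ g, ∀ Z, M ⋖ Z → M ⋖ conj g Z := fun g Z hZ => by
    rw [← normal_iff.1 hn g, apply_covBy_apply_iff]; exact hZ
  have key : ∀ Z, M ⋖ Z → φ Z ≤ nor (φ M) := by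
    intro Z hZ h hh
    by_contra hne
    rw [mem_nor] at hne
    let σ := (φ.trans (conj h)).trans φ.symm
    have h1 : σ Z = Z := φ.symm_apply_eq.2 (conj_eq_of_mem hh)
    have h2 : σ M ≠ M := fun h2 => hne (φ.symm_apply_eq.1 h2)
    have h3 : σ M ⋖ Z := by rw [← h1, apply_covBy_apply_iff]; exact hZ
    have h4 : M ⊔ σ M = Z := (hZ.eq_or_eq le_sup_left (sup_le hZ.le h3.le)).resolve_left fun h4 =>
      h3.2 (lt_of_le_of_ne (sup_eq_left.1 h4) h2) hZ.lt
    have hZm : IsMod Z := h4 ▸ hmod.sup (hmod.iso σ)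
    obtain ⟨Y, ⟨hY1, hY2, hY3⟩, hY⟩ := (hfin.subset (t := {Y | Z ≤ Y ∧ Y ≠ ⊤ ∧ IsMod Y})
      fun Y hY => hZ.le.trans hY.1).exists_maximal
        ⟨Z, le_rfl, fun h => hc (covBy_top_iff.1 (h ▸ hZ)), hZm⟩
    have hcore : core Y = M := by
      by_contra h5
      have h6 := hmax (core Y) (Subgroup.normalCore_normal _) (lt_of_le_of_ne
        (le_core fun g => (normal_iff.1 hn g).le.trans (hZ.le.trans hY1)) (Ne.symm h5))
      exact hY2 (top_le_iff.1 (h6.ge.trans Y.1.normalCore_le))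
    obtain ⟨g, hg⟩ : ∃ g, ¬ conj g Z ≤ Y := by
      by_contra h5
      push Not at h5
      exact hZ.lt.not_ge (hcore ▸ le_core h5)
    have h5 : Y ⊔ conj g Z = ⊤ := by
      by_contra h5
      exact hg (le_sup_right.trans (hY ⟨hY1.trans le_sup_left, h5, hY3.sup (hZm.iso _)⟩ le_sup_left))
    have h6 : Y ⊓ conj g Z = M := ((hconj g Z hZ).eq_or_eq (le_inf (hZ.le.trans hY1)
      (hconj g Z hZ).le) inf_le_right).resolve_right fun h => hg (inf_eq_right.1 h)
    have h7 := hY3.covBy_sup (Y := conj g Z) (h6 ▸ hconj g Z hZ)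
    rw [h5, covBy_top_iff] at h7
    have hYo : IsOpen (Y.1 : Set L) := Subgroup.isOpen_mono (hZ.le.trans hY1) hM
    have := finiteIndex_of_open hYo
    obtain ⟨R, hR, h8, h9⟩ := ((hY3.lmm h7).gmm hYo).concl.compl
    have h10 : Y.1.normalCore = M.1 := congrArg CS.val hcore
    have h11 : M.1 ≤ R := by rw [← h10, ← h8]; exact inf_le_left
    have h12 := hmax (ofOpen R (Subgroup.isOpen_mono h11 hM)) hR (lt_of_le_of_ne h11 fun h => by
      have h13 : M.1 = R := congrArg CS.val h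
      rw [← h13, sup_eq_right.2 (CS.le_def.1 (hZ.le.trans hY1))] at h9
      exact hY2 (eq_top.2 h9))
    have h13 : R = ⊤ := eq_top.1 h12
    rw [h13, top_inf_eq, h10] at h8
    exact hZ.lt.not_ge (hY1.trans h8.le)
  obtain ⟨Z, hZ⟩ := (hfin.subset (t := {Y | M < Y}) fun Y hY => (le_of_lt hY : M ≤ Y)).exists_minimal
    ⟨⊤, lt_top_iff_ne_top.2 hM'⟩
  have hZ' : M ⋖ Z := ⟨hZ.1, fun X h1 h2 => h2.not_ge (hZ.2 h1 h2.le)⟩
  have h1 := hmax (core (φ.symm (nor (φ M)))) (Subgroup.normalCore_normal _)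
    (hZ'.lt.trans_le (le_core fun g => φ.le_symm_apply.2 (key _ (hconj g Z hZ'))))
  have h2 : ⊤ ≤ φ.symm (nor (φ M)) := h1.ge.trans (Subgroup.normalCore_le _)
  rw [φ.le_symm_apply, φ.map_top] at h2
  exact normal_iff.2 fun h => mem_nor.1 (h2 (by simp))

theorem index_eq_of_coatom {M D : CS L} [M.1.Normal] (hM : IsOpen (M.1 : Set L)) (hc : IsCoatom M)
    (hD : ¬ D ≤ M) : M.1.index = (D ⊓ M).1.relIndex D.1 := by
  have h1 := congrArg CS.val (hc.2 _ (right_lt_sup.2 hD))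
  rw [sup_val_right hM, top_val] at h1
  rw [inf_val, Subgroup.inf_relIndex_left, ← Subgroup.relIndex_sup_right, h1,
    Subgroup.relIndex_top_right]

theorem zr_caseB [CompactSpace L] [T2Space H] (hL : Sep L) (hF : FI L) (φ : CS L ≃o CS H)
    {M : CS L} (hM : IsOpen (M.1 : Set L)) [hn : M.1.Normal] (hc : IsCoatom M) :
    (Set.range fun g => conj g (φ M)).Finite := by
  let σ : H → CS L ≃o CS L := fun h => (φ.trans (conj h)).trans φ.symm
  have hlmm : ∀ h, LMM (σ h M) := fun h => ((isMod_of_open_normal hM).lmm hc).iso _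
  have hop : ∀ h, IsOpen ((σ h M).1 : Set L) := fun h => hL.isOpen_of_coatom (hlmm h).1
  suffices ∃ n, ∀ h, (σ h M).1.index ≤ n by
    obtain ⟨n, hn⟩ := this
    refine ((hF.finite n).image φ).subset ?_
    rintro _ ⟨h, rfl⟩
    exact ⟨σ h M, ⟨hop h, hn h⟩, φ.apply_symm_apply _⟩
  by_cases hall : ∀ h, (σ h M).1.Normal
  · refine ⟨M.1.index, fun d => le_of_eq ?_⟩
    by_cases hD : φ.symm (cyc d) ≤ M
    · have : σ d M = M := φ.symm_apply_eq.2 (conj_eq_of_mem (cyc_le.1 (φ.symm_apply_le.1 hD)))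
      rw [this]
    have hfix : ∀ E ≤ φ.symm (cyc d), σ d E = E := by
      intro E hE
      rw [φ.le_symm_apply] at hE
      refine φ.symm_apply_eq.2 (mem_nor.1 (Subgroup.centralizer_le_normalizer _ ?_))
      exact fun x hx => cyc_comm d (hE hx) (mem_cyc d)
    have h1 : φ.symm (cyc d) ⊓ σ d M = φ.symm (cyc d) ⊓ M := by
      rw [← hfix _ (inf_le_left (b := M)), OrderIso.map_inf, hfix _ le_rfl]
    have := hall d
    rw [index_eq_of_coatom hM hc hD, index_eq_of_coatom (hop d) (hlmm d).1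
      (D := φ.symm (cyc d)) fun h => hD (by rw [← inf_eq_left, ← h1, inf_eq_left]; exact h), h1]
  push Not at hall
  obtain ⟨h₀, hnn⟩ := hall
  set W := σ h₀ M
  have := finiteIndex_of_open (hop h₀)
  obtain ⟨h1, ⟨R, hR, h2, h3⟩, h4⟩ := ((hlmm h₀).gmm (hop h₀)).concl
  obtain ⟨h4, -⟩ := h4.resolve_left hnn
  have hCo : IsOpen ((core W).1 : Set L) := isOpen_core
  have hA : ∀ Y, core W < Y → Y < ⊤ → LMM Y := fun Y hY hY' =>
    lmm_of_subgroup hY'.ne (cov_of_index (C := W.1.normalCore) h4 h1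
      (Subgroup.relIndex_mul_index W.1.normalCore_le).symm hY)
  have hCW : core W < W := lt_of_le_of_ne W.1.normalCore_le fun h =>
    hnn (by rw [← h]; exact Subgroup.normalCore_normal _)
  have h5 : 2 < {Y | core W < Y ∧ Y < ⊤}.ncard := by
    obtain ⟨g, hg⟩ := not_forall.1 (mt CS.normal_iff.2 hnn)
    have h6 : W.1.normalCore ≤ R := h2 ▸ inf_le_left
    have h7 : conj g (core W) = core W := normal_iff.1 (Subgroup.normalCore_normal _) g
    refine (Set.two_lt_ncard ((hF.finite_Ici hCo).subset fun Y hY => hY.1.le)).2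
      ⟨W, ⟨hCW, (hlmm h₀).1.lt_top⟩, conj g W, ⟨?_, ?_⟩,
        ofOpen R (Subgroup.isOpen_mono h6 hCo), ⟨lt_of_le_of_ne h6 fun h => ?_,
        lt_top_iff_ne_top.2 fun h => ?_⟩, Ne.symm hg, fun h => hnn (h ▸ hR), fun h => ?_⟩
    · rw [← h7]
      exact (conj g).lt_iff_lt.2 hCW
    · exact (((conj g).isCoatom_iff W).2 (hlmm h₀).1).lt_top
    · have h8 : W.1.normalCore = R := congrArg CS.val h
      rw [← h8, sup_eq_right.2 W.1.normalCore_le] at h3
      exact (hlmm h₀).1.1 (eq_top.2 h3)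
    · have h8 : R = ⊤ := eq_top.1 h
      rw [h8, top_inf_eq] at h2
      exact hCW.ne (CS.ext h2.symm)
    · have h8 : (conj g W).1.Normal := h ▸ hR
      refine hg ((conj g).injective ?_)
      exact normal_iff.1 h8 g
  refine ⟨{Y | core W < Y ∧ Y < ⊤}.ncard ^ 2, fun h => ?_⟩
  let τ := (σ h₀).symm.trans (σ h)
  have h6 : τ W = σ h M := congrArg (σ h) ((σ h₀).symm_apply_apply M)
  have hCo' : IsOpen ((τ (core W)).1 : Set L) := hL.isOpen_of_finite_Ici (by
    rw [← τ.image_Ici]; exact (hF.finite_Ici hCo).image _)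
  have := finiteIndex_of_open hCo'
  have h7 : ∀ Y, ((τ (core W)).1 < (τ Y).1 ∧ (τ Y).1 < ⊤) ↔ (core W < Y ∧ Y < ⊤) := fun Y => by
    rw [← top_val, ← CS.lt_def, ← CS.lt_def, τ.lt_iff_lt, ← τ.lt_iff_lt (x := Y) (y := ⊤), τ.map_top]
  have h8 : ∀ Y : Subgroup L, (τ (core W)).1 < Y → ∃ Y', (τ Y').1 = Y := fun Y hY =>
    ⟨τ.symm (ofOpen Y (Subgroup.isOpen_mono hY.le hCo')), by rw [τ.apply_symm_apply]; rfl⟩
  have h9 : {Y | (τ (core W)).1 < Y ∧ Y < ⊤} = (fun Y => (τ Y).1) '' {Y | core W < Y ∧ Y < ⊤} := by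
    ext Y
    constructor
    · intro hY
      obtain ⟨Y', rfl⟩ := h8 Y hY.1
      exact ⟨Y', (h7 Y').1 hY, rfl⟩
    · rintro ⟨Y', hY', rfl⟩
      exact (h7 Y').2 hY'
  have h10 := Set.ncard_image_of_injective {Y | core W < Y ∧ Y < ⊤} (f := fun Y => (τ Y).1)
    fun a b hab => τ.injective (CS.ext hab)
  obtain ⟨h11, h12⟩ := (h7 W).2 ⟨hCW, (hlmm h₀).1.lt_top⟩
  rw [← h6, ← h10, ← h9]
  refine lemB (fun Y hY hY' => ?_) (by rwa [h9, h10]) h11 h12
  obtain ⟨Y', rfl⟩ := h8 Y hY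
  obtain ⟨h13, h14⟩ := (h7 Y').1 ⟨hY, hY'⟩
  exact ((hA Y' h13 h14).iso τ).gmm (Subgroup.isOpen_mono hY.le hCo')

theorem zr_max [CompactSpace L] [T2Space H] (hL : Sep L) (hF : FI L) (hH : Periodic H)
    (φ : CS L ≃o CS H) {M : CS L} (hM : IsOpen (M.1 : Set L)) [hn : M.1.Normal] (hM' : M ≠ ⊤)
    (hmax : ∀ N : CS L, N.1.Normal → M < N → N = ⊤) : (φ M).1.FiniteIndex := by
  by_cases hnor : (φ M).1.Normal
  · exact finiteIndex_of_finite_Ici hH _ (by
      rw [← φ.image_Ici]; exact (hF.finite_Ici hM).image _)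
  have hc : IsCoatom M := by
    by_contra hc
    exact hnor (zr_caseA hF φ hM hM' hmax hc)
  have h1 := finiteIndex_nor (zr_caseB hL hF φ hM hc)
  rcases ((φ.isCoatom_iff M).2 hc).le_iff.1 (le_nor (φ M)) with h2 | h2
  · exact (hnor (normal_iff.2 fun h => mem_nor.1 (by rw [h2]; simp))).elim
  · rwa [h2] at h1

omit [IsTopologicalGroup L] in
theorem Sep.sub (hL : Sep L) (M : Subgroup L) : Sep M := by
  intro g hg
  obtain ⟨U, h1, h2, h3⟩ := hL g fun h => hg (Subtype.ext h)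
  exact ⟨U.subgroupOf M, h1.preimage continuous_subtype_val, inferInstance, h3⟩

omit [IsTopologicalGroup L] in
theorem FI.sub (hF : FI L) {M : Subgroup L} (hM : IsOpen (M : Set L)) : FI M := by
  intro n
  refine ((hF (n * M.index)).preimage (f := Subgroup.map M.subtype)
    (Subgroup.map_injective M.subtype_injective).injOn).subset fun U hU => ⟨?_, ?_⟩
  · exact hM.isOpenMap_subtype_val _ hU.1
  · rw [Subgroup.index_map_subtype]
    exact Nat.mul_le_mul_right _ hU.2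

theorem zr : ∀ (n : ℕ) (L H : Type) [Group L] [TopologicalSpace L] [IsTopologicalGroup L]
    [CompactSpace L] [Group H] [TopologicalSpace H] [IsTopologicalGroup H] [T2Space H],
    Sep L → FI L → Periodic H → ∀ (φ : CS L ≃o CS H) (N : CS L), IsOpen (N.1 : Set L) →
    N.1.Normal → N.1.index = n → (φ N).1.FiniteIndex := by
  intro n
  induction n using Nat.strong_induction_on with
  | _ n ih =>
    intro L H _ _ _ _ _ _ _ _ hL hF hH φ N hN hNn hn
    by_cases hN' : N = ⊤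
    · rw [hN', φ.map_top, top_val]
      infer_instance
    obtain ⟨M, ⟨hM1, hM2, hM3⟩, hM⟩ := ((hF.finite_Ici hN).subset
      (t := {Y | N ≤ Y ∧ Y ≠ ⊤ ∧ Y.1.Normal}) fun Y hY => hY.1).exists_maximal
        ⟨N, le_rfl, hN', hNn⟩
    have hMo : IsOpen (M.1 : Set L) := Subgroup.isOpen_mono hM1 hN
    have h1 := zr_max hL hF hH φ hMo hM2 fun X hX hX' => by
      by_contra h
      exact hX'.not_ge (hM ⟨hM1.trans hX'.le, h, hX⟩ hX'.le)
    obtain ⟨ψ, hψ⟩ := exists_iso_sub φ M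
    have : CompactSpace M.1 := isCompact_iff_compactSpace.1 M.2.isCompact
    have h2 : emb M (CS.comap M.1.subtype continuous_subtype_val N) = N :=
      CS.ext (Subgroup.map_subgroupOf_eq_of_le hM1)
    have := finiteIndex_of_open hN
    have := finiteIndex_of_open hMo
    have h3 := ih (N.1.relIndex M.1) (by
      rw [← hn, ← Subgroup.relIndex_mul_index hM1]
      exact lt_mul_of_one_lt_right (Nat.pos_of_ne_zero Subgroup.FiniteIndex.index_ne_zero)
        (Subgroup.one_lt_index_of_ne_top fun h => hM2 (eq_top.2 h))) M.1 (φ M).1 (hL.sub _)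
      (hF.sub hMo) (hH.sub _) ψ (CS.comap M.1.subtype continuous_subtype_val N)
      (hN.preimage continuous_subtype_val) (hNn.comap _) rfl
    rw [← h2, ← hψ, emb_val]
    exact ⟨by
      rw [Subgroup.index_map_subtype]
      exact mul_ne_zero h3.index_ne_zero h1.index_ne_zero⟩

end Pool.Agent.MP_45783b_al

end MrgPart4

-- ======== part 5: formerly Pool.Agent.MP_45783b_al.Prof
section MrgPart5

/-!
The profinite case.
-/

set_option autoImplicit false

namespace Pool.Agent.MP_45783b_al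

open Topology CS
open scoped Pointwise

variable {G : Type} [Group G]

/-- The union of the powers of a symmetric set. -/
def powSub (Q : Set G) (hQ : ∀ x ∈ Q, x⁻¹ ∈ Q) : Subgroup G where
  carrier := {x | ∃ n : ℕ, x ∈ Q ^ n}
  one_mem' := ⟨0, by simp⟩
  mul_mem' := by
    rintro a b ⟨m, hm⟩ ⟨n, hn⟩
    exact ⟨m + n, by rw [pow_add]; exact Set.mul_mem_mul hm hn⟩
  inv_mem' := by
    rintro a ⟨m, hm⟩
    exact ⟨m, inv_mem_pow hQ _ _ hm⟩

theorem subset_powSub (Q : Set G) (hQ : ∀ x ∈ Q, x⁻¹ ∈ Q) : Q ⊆ powSub Q hQ :=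
  fun x hx => ⟨1, by simpa using hx⟩

theorem finite_Ici_subgroup (B : Subgroup G) [B.FiniteIndex] : (Set.Ici B).Finite := by
  refine Set.Finite.of_finite_image
    (f := fun V : Subgroup G => (QuotientGroup.mk '' (V : Set G) : Set (G ⧸ B)))
    (Set.toFinite _) ?_
  have key : ∀ V W : Subgroup G, B ≤ W → (QuotientGroup.mk '' (V : Set G) : Set (G ⧸ B)) =
      QuotientGroup.mk '' (W : Set G) → V ≤ W := by
    intro V W hW h x hx
    obtain ⟨y, hy, hy'⟩ := h.le ⟨x, hx, rfl⟩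
    simpa using W.mul_mem hy (hW (QuotientGroup.eq.1 hy'))
  exact fun V hV W hW h => le_antisymm (key V W hW h) (key W V hV h.symm)

variable [TopologicalSpace G] [IsTopologicalGroup G]

/-- A set of topological generators. -/
def TG (T : Set G) : Prop := ∀ A : CS G, T ⊆ A.1 → A = ⊤

theorem TG.fi [CompactSpace G] {T : Set G} (hT : T.Finite) (h : TG T) : FI G := by
  have key : ∀ k : ℕ, {U : Subgroup G | IsOpen (U : Set G) ∧ U.index = k}.Finite := by
    intro k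
    have h1 : ∀ U : {U : Subgroup G | IsOpen (U : Set G) ∧ U.index = k},
        ∃ (ρ : G →* Equiv.Perm (Fin k)) (i : Fin k), IsOpen (ρ.ker : Set G) ∧
          ∀ g, g ∈ U.1 ↔ ρ g i = i := by
      rintro ⟨U, hU, rfl⟩
      have := finiteIndex_of_open hU
      let e : G ⧸ U ≃ Fin U.index := Finite.equivFin _
      refine ⟨e.permCongrHom.toMonoidHom.comp (MulAction.toPermHom G (G ⧸ U)),
        e ((1 : G) : G ⧸ U), ?_, fun g => ?_⟩
      · refine Subgroup.isOpen_mono (fun g hg => ?_) (@isOpen_core _ _ _ _ (ofOpen U hU) this)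
        have h2 : g ∈ U.normalCore := hg
        rw [Subgroup.normalCore_eq_ker, MonoidHom.mem_ker] at h2
        rw [MonoidHom.mem_ker, MonoidHom.comp_apply, h2, map_one]
      · simp [eq_comm (b := ((1 : G) : G ⧸ U)), QuotientGroup.eq]
    choose ρ i hρ hρ' using h1
    have := hT.to_subtype
    refine Set.finite_coe_iff.1 (Finite.of_injective
      (fun U => ((fun t : T => ρ U t), i U)) fun U V hUV => ?_)
    obtain ⟨h2, h3⟩ := Prod.ext_iff.1 hUV
    have h4 := h (ofOpen ((ρ U).eqLocus (ρ V)) (Subgroup.isOpen_mono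
      (H₁ := (ρ U).ker ⊓ (ρ V).ker) (fun g hg => (hg.1.trans hg.2.symm :))
        ((hρ U).inter (hρ V)))) fun t ht => congrFun h2 ⟨t, ht⟩
    have h5 : ∀ g, ρ U g = ρ V g := fun g => (eq_top.1 h4).ge (Subgroup.mem_top g)
    refine Subtype.ext (Subgroup.ext fun g => ?_)
    rw [hρ', hρ', h5, show i U = i V from h3]
  intro n
  refine ((Set.finite_Iic n).biUnion fun k _ => key k).subset fun U hU => ?_
  exact Set.mem_biUnion hU.2 ⟨hU.1, rfl⟩

/-- Open normal subgroups of finite index. -/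
def ONF (W : Subgroup G) : Prop := IsOpen (W : Set G) ∧ W.Normal ∧ W.FiniteIndex

omit [IsTopologicalGroup G] in
theorem ONF.inf {A B : Subgroup G} (hA : ONF A) (hB : ONF B) : ONF (A ⊓ B) := by
  have := hA.2.1
  have := hB.2.1
  have := hA.2.2
  have := hB.2.2
  exact ⟨hA.1.inter hB.1, inferInstance, inferInstance⟩

theorem conj_compact [LocallyCompactSpace G] (hP : Periodic G)
    (h1 : ∀ (A : CS G) (x : G), x ∉ A.1 → ∃ W : CS G, ONF W.1 ∧ x ∉ (A ⊔ W).1)
    (h2 : ∀ C : Set G, IsCompact C → (1 : G) ∉ C → ∃ W, ONF W ∧ ∀ x ∈ C, x ∉ W)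
    (h3 : ∀ (A : ℕ → CS G) (B : CS G), Antitone A → B.1.FiniteIndex → ⨅ n, A n ≤ B →
      ∃ n, A n ≤ B)
    {C : ℕ → Set G} (hC : ∀ n, IsCompact (C n)) (hC' : ∀ x, ∃ n, x ∈ C n) {h : G}
    (hh : IsCji (cyc h)) : ∃ K : Set G, IsCompact K ∧ ∀ g, g * h * g⁻¹ ∈ K := by
  by_contra hcon
  push Not at hcon
  obtain ⟨D₁, hD₁, hD⟩ := hh
  obtain ⟨W₀, hW₀, hW₀'⟩ := h1 D₁ h fun h => hD₁.not_ge (cyc_le.2 h)
  have step : ∀ (q : {q : G × Subgroup G // ONF q.2}) (n : ℕ),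
      ∃ q' : {q : G × Subgroup G // ONF q.2}, q'.1.2 ≤ q.1.2 ∧ q'.1.1 * q.1.1⁻¹ ∈ q.1.2 ∧
        ∀ w ∈ q'.1.2, q'.1.1 * h * q'.1.1⁻¹ * w ∉ C n := by
    rintro ⟨⟨x, W⟩, hW⟩ n
    have : W.FiniteIndex := hW.2.2
    have : Finite (Quotient (QuotientGroup.leftRel W)) := (inferInstance : Finite (G ⧸ W))
    obtain ⟨g, hg⟩ := hcon ((fun p : G × G => p.1 * p.2 * p.1⁻¹) ''
      (Set.range (Quotient.out : G ⧸ W → G) ×ˢ C n))
      (((Set.finite_range _).isCompact.prod (hC n)).image (by fun_prop))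
    obtain ⟨w, hw⟩ := QuotientGroup.mk_out_eq_mul W (g * x⁻¹)
    have h4 : (w : G)⁻¹ * x * h * ((w : G)⁻¹ * x)⁻¹ ∉ C n := fun h4 =>
      hg ⟨(_, _), ⟨⟨((g * x⁻¹ : G) : G ⧸ W), hw⟩, h4⟩, by simp only; group⟩
    obtain ⟨W', hW', hW''⟩ := h2 _ ((hC n).image (continuous_const_mul
      ((w : G)⁻¹ * x * h * ((w : G)⁻¹ * x)⁻¹)⁻¹)) (by
        rintro ⟨y, hy, hy'⟩
        exact h4 (inv_mul_eq_one.1 hy' ▸ hy))
    exact ⟨⟨((w : G)⁻¹ * x, W ⊓ W'), hW.inf hW'⟩, inf_le_left, by simp,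
      fun v hv hv' => hW'' v ⟨_, hv', by simp only [inv_mul_cancel_left]⟩ hv.2⟩
  choose F hF1 hF2 hF3 using step
  let s : ℕ → {q : G × Subgroup G // ONF q.2} := fun n =>
    Nat.rec ⟨(1, W₀.1), hW₀⟩ (fun n q => F q n) n
  let x : ℕ → G := fun n => (s n).1.1
  let W : ℕ → CS G := fun n => ofOpen (s n).1.2 (s n).2.1
  let y : ℕ → G := fun n => x n * h * (x n)⁻¹
  have hWo : ∀ n, IsOpen ((W n).1 : Set G) := fun n => (s n).2.1
  have hWn : ∀ n, (W n).1.Normal := fun n => (s n).2.2.1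
  have hW : Antitone W := antitone_nat_of_succ_le fun n => hF1 (s n) n
  have hx : ∀ n m, n ≤ m → x m * (x n)⁻¹ ∈ (W n).1 := by
    intro n m hnm
    induction m, hnm using Nat.le_induction with
    | base => simp
    | succ m hm ih =>
      have h4 : x (m + 1) * (x m)⁻¹ ∈ (W n).1 := hW hm (hF2 (s m) m)
      simpa [mul_assoc] using (W n).1.mul_mem h4 ih
  have hy : ∀ n m, n ≤ m → (y n)⁻¹ * y m ∈ (W n).1 := by
    intro n m hnm
    have h4 := (W n).1.mul_mem ((hWn n).conj_mem _ (hx n m hnm) (y n)⁻¹)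
      ((W n).1.inv_mem (hx n m hnm))
    simpa [y, mul_assoc] using h4
  have hW0 : ∀ n, W n ≤ D₁ ⊔ W₀ := fun n => (hW (Nat.zero_le n)).trans le_sup_right
  have hA : Antitone fun n => cyc (y n) ⊔ W n := antitone_nat_of_succ_le fun n => by
    refine sup_le (cyc_le.2 ?_) ((hW n.le_succ).trans le_sup_right)
    simpa using (cyc (y n) ⊔ W n).1.mul_mem (cyc_le.1 le_sup_left)
      (CS.le_def.1 le_sup_right (hy n _ n.le_succ))
  have hB : ¬ ⨅ n, cyc (y n) ⊔ W n ≤ D₁ ⊔ W₀ := by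
    intro h4
    have := hW₀.2.2
    obtain ⟨n, hn⟩ := h3 _ _ hA (Subgroup.finiteIndex_of_le (CS.le_def.1 le_sup_right)) h4
    have h5 := (D₁ ⊔ W₀).1.mul_mem (cyc_le.1 (le_sup_left.trans hn))
      ((D₁ ⊔ W₀).1.inv_mem (hW0 0 (hy 0 n n.zero_le)))
    rw [mul_inv_rev, inv_inv, mul_inv_cancel_left] at h5
    refine hW₀' ?_
    simpa [y, x, s] using h5
  obtain ⟨a, ha, ha'⟩ := SetLike.not_le_iff_exists.1 (mt CS.le_def.2 hB)
  have h4 : ∀ n, ∃ e ∈ (cyc a).1, (y n)⁻¹ * e ∈ (W n).1 := by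
    intro n
    have := hWn n
    have h5 : a ∈ (cyc (y n) ⊔ W n).1 := iInf_le (fun n => cyc (y n) ⊔ W n) n ha
    rw [sup_val_right (hWo n)] at h5
    obtain ⟨d, hd, w, hw, rfl⟩ := Subgroup.mem_sup_of_normal_right.1 h5
    have h6 : cyc (y n) ≤ conj (x n) (cyc h) := cyc_le.2 (mem_conj.2 (by
      simpa [y, mul_assoc] using mem_cyc h))
    have h7 : x n ∈ (D₁ ⊔ W₀).1 := hW0 0 (by simpa [x, s] using hx 0 n n.zero_le)
    have h8 : cyc ((x n)⁻¹ * d * x n) = cyc h := by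
      by_contra h8
      have h9 := cyc_le.1 ((hD _ (lt_of_le_of_ne (cyc_le.2 (mem_conj.1 (h6 hd))) h8)).trans
        (le_sup_left (b := W₀)))
      refine ha' ((D₁ ⊔ W₀).1.mul_mem ?_ (hW0 n hw))
      simpa [mul_assoc] using (D₁ ⊔ W₀).1.mul_mem ((D₁ ⊔ W₀).1.mul_mem h7 h9)
        ((D₁ ⊔ W₀).1.inv_mem h7)
    have h9 : cyc h ≤ conj (x n)⁻¹ (cyc (d * w) ⊔ W n) := by
      rw [← h8, cyc_le, mem_conj]
      simpa [mul_assoc] using (cyc (d * w) ⊔ W n).1.mul_mem (cyc_le.1 le_sup_left)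
        ((cyc (d * w) ⊔ W n).1.inv_mem (CS.le_def.1 le_sup_right hw))
    have h10 := mem_conj.1 (cyc_le.1 h9)
    rw [sup_val_right (hWo n), inv_inv] at h10
    obtain ⟨e, he, v, hv, h11⟩ := Subgroup.mem_sup_of_normal_right.1 h10
    refine ⟨e, he, ?_⟩
    simp only [y]
    rw [← h11]
    simpa using hv
  have hcl : ∀ n, IsClosed (((cyc a).1 : Set G) ∩ {e | (y n)⁻¹ * e ∈ (W n).1}) := fun n =>
    (cyc a).2.inter ((W n).2.preimage (continuous_const_mul _))
  obtain ⟨e, he⟩ := IsCompact.nonempty_iInter_of_sequence_nonempty_isCompact_isClosed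
    (fun n => ((cyc a).1 : Set G) ∩ {e | (y n)⁻¹ * e ∈ (W n).1})
    (fun n e he => ⟨he.1, by
      simpa [mul_assoc] using (W n).1.mul_mem (hy n _ n.le_succ) (hW n.le_succ he.2)⟩)
    h4 ((hP.isCompact_cyc a).of_isClosed_subset (hcl 0) Set.inter_subset_left) hcl
  obtain ⟨n, hn⟩ := hC' e
  refine hF3 (s n) n _ (Set.mem_iInter.1 he (n + 1)).2 ?_
  change y (n + 1) * _ ∈ _
  simpa using hn

theorem compact_of_conj_compact [LocallyCompactSpace G] [T2Space G] (hP : Periodic G)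
    (h2 : ∀ C : Set G, IsCompact C → (1 : G) ∉ C → ∃ W, ONF W ∧ ∀ x ∈ C, x ∉ W)
    {T : Set G} (hT : TG T) {K : Set G} (hK : IsCompact K) (hK' : ∀ t ∈ T, ∀ g, g * t * g⁻¹ ∈ K) :
    CompactSpace G := by
  obtain ⟨C₀, hC₀, hC₀1⟩ := exists_compact_mem_nhds (1 : G)
  let C := C₀ ∩ C₀⁻¹
  have hC : IsCompact C := hC₀.inter hC₀.inv
  have hC1 : C ∈ 𝓝 (1 : G) := Filter.inter_mem hC₀1 (inv_mem_nhds_one G hC₀1)
  obtain ⟨W, hW, hW'⟩ := h2 _ ((hC.mul hC).diff (isOpen_interior (s := C)))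
    fun h => h.2 (mem_interior_iff_mem_nhds.2 hC1)
  let U : Subgroup G :=
    { carrier := W ∩ C
      one_mem' := ⟨W.one_mem, mem_of_mem_nhds hC1⟩
      mul_mem' := fun {a b} ha hb => ⟨W.mul_mem ha.1 hb.1, by
        by_contra h
        exact hW' _ ⟨Set.mul_mem_mul ha.2 hb.2, fun h' => h (interior_subset h')⟩
          (W.mul_mem ha.1 hb.1)⟩
      inv_mem' := fun {a} ha => ⟨W.inv_mem ha.1, ha.2.2, by simpa using ha.2.1⟩ }
  have hUo : IsOpen (U : Set G) :=
    U.isOpen_of_mem_nhds (Filter.inter_mem (hW.1.mem_nhds W.one_mem) hC1)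
  have hUc : IsCompact (U : Set G) := hC.inter_left (W.isClosed_of_isOpen hW.1)
  let S : Set G := {x | ∃ t ∈ T, ∃ g, x = g * t * g⁻¹ ∨ x = (g * t * g⁻¹)⁻¹}
  have hSK : S ⊆ K ∪ K⁻¹ := by
    rintro _ ⟨t, ht, g, rfl | rfl⟩
    · exact Or.inl (hK' t ht g)
    · exact Or.inr (by simpa only [Set.mem_inv, inv_inv] using hK' t ht g)
  have hSs : ∀ x ∈ S, x⁻¹ ∈ S := by
    rintro _ ⟨t, ht, g, rfl | rfl⟩
    · exact ⟨t, ht, g, Or.inr rfl⟩
    · exact ⟨t, ht, g, Or.inl (inv_inv _)⟩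
  have hSc : ∀ g, ∀ x ∈ S, g⁻¹ * x * g ∈ S := by
    rintro g _ ⟨t, ht, k, rfl | rfl⟩
    · exact ⟨t, ht, g⁻¹ * k, Or.inl (by group)⟩
    · exact ⟨t, ht, g⁻¹ * k, Or.inr (by group)⟩
  obtain ⟨N, hN, hN'⟩ := h2 _ (((hK.union hK.inv).mul (hK.union hK.inv)).diff hUo)
    fun h => h.2 U.one_mem
  have := hN.2.2
  have h3 : ∀ q : G ⧸ N, ∃ s : G, (∃ x ∈ S, (x : G ⧸ N) = q) → s ∈ S ∧ (s : G ⧸ N) = q := by
    intro q
    by_cases h : ∃ x ∈ S, (x : G ⧸ N) = q
    · obtain ⟨x, hx⟩ := h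
      exact ⟨x, fun _ => hx⟩
    · exact ⟨1, fun h' => (h h').elim⟩
  choose r hr using h3
  obtain ⟨P, hPc, hPn⟩ := dietz hP S (N ∩ (S * S)) hSc (by
    rintro g _ ⟨h4, a, ha, b, hb, rfl⟩
    exact ⟨by simpa using hN.2.1.conj_mem _ h4 g⁻¹, _, hSc g a ha, _, hSc g b hb, by group⟩)
    (Set.finite_range r).toFinset (fun x hx => by
      obtain ⟨h4, h5⟩ := hr x ⟨x, hx, rfl⟩
      exact ⟨r x, by simp, QuotientGroup.eq.1 h5, Set.mul_mem_mul (hSs _ h4) hx⟩)
  have h4 : (N : Set G) ∩ (S * S) ⊆ U := fun x hx => by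
    by_contra h
    exact hN' x ⟨Set.mul_subset_mul hSK hSK hx.2, h⟩ hx.1
  have h5 : ∀ n : ℕ, ((N : Set G) ∩ (S * S)) ^ n ⊆ U := by
    intro n
    induction n with
    | zero => simp
    | succ n ih =>
      rw [pow_succ]
      exact (Set.mul_subset_mul ih h4).trans (coe_mul_coe U).le
  have h6 := hT (cl (powSub S hSs)) fun t ht =>
    le_cl _ (subset_powSub S hSs ⟨t, ht, 1, Or.inl (by simp)⟩)
  have h7 : IsCompact ((cl (powSub S hSs)).1 : Set G) := (hPc.mul hUc).closure_of_subset (by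
    rintro x ⟨n, hn⟩
    exact Set.mul_subset_mul_left (h5 n) (hPn n hn))
  rw [h6, top_val] at h7
  exact ⟨h7⟩

theorem prof_case {K : Type} [Group K] [TopologicalSpace K] [IsTopologicalGroup K] [CompactSpace K]
    [LocallyCompactSpace G] [T2Space G] (hK : Sep K) (hF : FI K) (hP : Periodic G)
    (φ : CS K ≃o CS G) {T : Set G} (hT : T.Finite) (hT' : TG T)
    (hT'' : ∀ t ∈ T, IsCji (cyc t) ∨ t = 1) : CompactSpace G := by
  have h1 : ∀ (A : CS G) (x : G), x ∉ A.1 → ∃ W : CS G, ONF W.1 ∧ x ∉ (A ⊔ W).1 := by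
    intro A x hx
    obtain ⟨g, hg, hg'⟩ := SetLike.not_le_iff_exists.1 (show ¬ (φ.symm (cyc x)).1 ≤ (φ.symm A).1
      from fun h => hx (cyc_le.1 (φ.symm.le_iff_le.1 h)))
    obtain ⟨U, h1, h2, h3⟩ := hK.exists_notMem _ hg'
    have := zr _ K G hK hF hP φ U h1 h2 rfl
    refine ⟨core (φ U), ⟨isOpen_core, Subgroup.normalCore_normal _,
      Subgroup.finiteIndex_normalCore _⟩, fun h => h3 ?_⟩
    have h6 : core (φ U) ≤ φ U := Subgroup.normalCore_le _
    have h4 : cyc x ≤ A ⊔ φ U := (cyc_le.2 h).trans (sup_le_sup_left h6 _)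
    have h5 := φ.symm.monotone h4
    rw [φ.symm.map_sup, φ.symm_apply_apply] at h5
    exact h5 hg
  have h2 : ∀ C : Set G, IsCompact C → (1 : G) ∉ C → ∃ W, ONF W ∧ ∀ x ∈ C, x ∉ W := by
    intro C hC hC1
    refine exists_disjoint_of_sep ONF ⟨isOpen_univ, inferInstance, inferInstance⟩
      (fun _ _ => ONF.inf) (fun A hA => A.isClosed_of_isOpen hA.1) hC fun x hx => ?_
    obtain ⟨W, hW, hW'⟩ := h1 ⊥ x (by
      rw [bot_val, Subgroup.mem_bot]
      rintro rfl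
      exact hC1 hx)
    exact ⟨W.1, hW, by rwa [bot_sup_eq] at hW'⟩
  have h3 : ∀ (A : ℕ → CS G) (B : CS G), Antitone A → B.1.FiniteIndex → ⨅ n, A n ≤ B →
      ∃ n, A n ≤ B := by
    intro A B hA hB hAB
    by_contra hcon
    push Not at hcon
    have h4 : IsOpen ((φ.symm B).1 : Set K) := hK.isOpen_of_finite_Ici (by
      rw [← φ.symm.image_Ici]
      exact ((finite_Ici_subgroup B.1).preimage (f := CS.val) fun _ _ _ _ h => CS.ext h).image _)
    have hcl : ∀ n, IsClosed (((φ.symm (A n)).1 : Set K) ∩ ((φ.symm B).1 : Set K)ᶜ) := fun n =>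
      (φ.symm (A n)).2.inter h4.isClosed_compl
    obtain ⟨e, he⟩ := IsCompact.nonempty_iInter_of_sequence_nonempty_isCompact_isClosed
      (fun n => ((φ.symm (A n)).1 : Set K) ∩ ((φ.symm B).1 : Set K)ᶜ)
      (fun n e he => ⟨φ.symm.monotone (hA n.le_succ) he.1, he.2⟩)
      (fun n => SetLike.not_le_iff_exists.1 fun h => hcon n (φ.symm.le_iff_le.1 h))
      (hcl 0).isCompact hcl
    rw [Set.mem_iInter] at he
    refine (he 0).2 (cyc_le.1 (φ.le_symm_apply.2 (le_trans (le_iInf fun n => ?_) hAB)))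
    exact φ.le_symm_apply.1 (cyc_le.2 (he n).1)
  obtain ⟨C₀, hC₀, hC₀1⟩ := exists_compact_mem_nhds (1 : G)
  let C := (C₀ ∪ T) ∪ (C₀ ∪ T)⁻¹
  have hC : IsCompact C := (hC₀.union hT.isCompact).union (hC₀.union hT.isCompact).inv
  have hCs : ∀ x ∈ C, x⁻¹ ∈ C := fun x hx => hx.symm.imp id (by simp)
  have h4 := hT' (ofOpen (powSub C hCs) (Subgroup.isOpen_of_mem_nhds _ (Filter.mem_of_superset hC₀1
    fun x hx => subset_powSub C hCs (Or.inl (Or.inl hx)))))
    fun x hx => subset_powSub C hCs (Or.inl (Or.inr hx))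
  have h5 : ∀ t : T, ∃ K : Set G, IsCompact K ∧ ∀ g, g * (t : G) * g⁻¹ ∈ K := by
    rintro ⟨t, ht⟩
    rcases hT'' t ht with h | rfl
    · exact conj_compact hP h1 h2 h3 (isCompact_pow hC)
        (fun x => (eq_top.1 h4).ge (Subgroup.mem_top x)) h
    · exact ⟨{1}, isCompact_singleton, by simp⟩
  choose D hD hD' using h5
  have := hT.to_subtype
  exact compact_of_conj_compact hP h2 hT' (isCompact_iUnion hD)
    fun t ht g => Set.mem_iUnion.2 ⟨⟨t, ht⟩, hD' _ g⟩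

end Pool.Agent.MP_45783b_al

end MrgPart5

-- ======== part 6: formerly Pool.Agent.MP_45783b_al.Main
section MrgPart6

/-!
Inductive compactness is preserved by isomorphisms of the lattices of closed subgroups.
-/

set_option autoImplicit false

namespace Pool.Agent.MP_45783b_al

open Topology CS

variable {G : Type} [Group G] [TopologicalSpace G] [IsTopologicalGroup G]
  {H : Type} [Group H] [TopologicalSpace H] [IsTopologicalGroup H]

omit [IsTopologicalGroup G] [IsTopologicalGroup H] in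
theorem TG.map {T : Set G} (h : TG T) (f : G →* H) (hf : Continuous f)
    (hs : Function.Surjective f) : TG (f '' T) := by
  intro A hA
  have h1 := eq_top.1 (h (CS.comap f hf A) fun t ht => hA ⟨t, ht, rfl⟩)
  refine eq_top.2 (eq_top_iff.2 fun y _ => ?_)
  obtain ⟨x, rfl⟩ := hs y
  exact h1.ge (Subgroup.mem_top x)

theorem exists_gens {T : Set (CS G)} (hT : T.Finite) (h : ∀ D ∈ T, IsCji D) :
    ∃ S : Set G, S.Finite ∧ (∀ t ∈ S, IsCji (cyc t)) ∧ ∀ A : CS G, S ⊆ A.1 → sSup T ≤ A := by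
  choose g hg using fun D : T => CS.IsCji.eq_cyc (h D.1 D.2)
  have := hT.to_subtype
  refine ⟨Set.range g, Set.finite_range g, ?_, fun A hA => sSup_le fun D hD => ?_⟩
  · rintro _ ⟨D, rfl⟩
    exact hg D ▸ h D.1 D.2
  · exact (hg ⟨D, hD⟩).le.trans (cyc_le.2 (hA ⟨_, rfl⟩))

theorem cji_map [T2Space G] [T2Space H] (hG : Periodic G) (f : G →* H) (hf : Continuous f) {t : G}
    (h : IsCji (cyc t)) : IsCji (cyc (f t)) ∨ f t = 1 := by
  by_cases h1 : f t = 1
  · exact Or.inr h1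
  obtain ⟨D₁, h2, h3⟩ := h
  have h4 := hG.isCompact_cyc t
  have h5 : cyc t ≤ CS.comap f hf (cyc (f t)) := cyc_le.2 (mem_cyc _)
  refine Or.inl ⟨mk (D₁.1.map f) ((h4.of_isClosed_subset D₁.2 h2.le).image hf).isClosed,
    lt_of_le_of_ne (Subgroup.map_le_iff_le_comap.2 (h2.le.trans h5)) fun h6 => ?_,
    fun E hE e he => ?_⟩
  · obtain ⟨d, hd, hd'⟩ : f t ∈ D₁.1.map f := h6.ge (mem_cyc _)
    rcases (cyc_le.2 ((cyc t).1.mul_mem ((cyc t).1.inv_mem (h2.le hd)) (mem_cyc t))).eq_or_lt with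
      h7 | h7
    · have h8 : cyc (d⁻¹ * t) ≤ CS.comap f hf ⊥ := cyc_le.2 (by simp [mem_comap, hd'])
      rw [h7, cyc_le] at h8
      exact h1 (by simpa [mem_comap] using h8)
    · exact h2.not_ge (cyc_le.2 (by simpa using D₁.1.mul_mem hd (cyc_le.1 (h3 _ h7))))
  · have h6 : cyc (f t) ≤ mk ((cyc t).1.map f) (h4.image hf).isClosed :=
      cyc_le.2 ⟨t, mem_cyc t, rfl⟩
    obtain ⟨d, hd, rfl⟩ := h6 (hE.le he)
    refine ⟨d, h3 (cyc t ⊓ CS.comap f hf E) (inf_lt_left.2 fun h7 =>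
      hE.not_ge (cyc_le.2 (mem_comap.1 (cyc_le.1 h7)))) ?_, rfl⟩
    rw [inf_val]
    exact ⟨hd, he⟩

theorem compact_case [CompactSpace G] [T2Space G] [LocallyCompactSpace H] [T2Space H]
    (hH : Periodic H) (φ : CS G ≃o CS H) {T : Set (CS H)} (hT : T.Finite) (h : ∀ D ∈ T, IsCji D)
    (hT' : sSup T = ⊤) : CompactSpace H := by
  have h1 : (PRad (CS G)).1.Normal := normal_PRad
  have h2 : (φ (PRad (CS G))).1.Normal := by rw [map_PRad]; exact normal_PRad
  have h3 := (φ (PRad (CS G))).2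
  obtain ⟨ψ, -⟩ := exists_iso_quo φ (PRad (CS G))
  obtain ⟨S, hS, -, hS'⟩ := exists_gens (hT.image φ.symm) (by
    rintro _ ⟨D, hD, rfl⟩
    exact (IsCji.iso φ.symm).2 (h D hD))
  have h4 : TG S := fun A hA => top_le_iff.1 (by
    have := hS' A hA
    rwa [sSup_image, ← φ.symm.map_sSup, hT', φ.symm.map_top] at this)
  obtain ⟨S', hS₁, hS₂, hS₃⟩ := exists_gens hT h
  have h5 : TG S' := fun A hA => top_le_iff.1 (hT' ▸ hS₃ A hA)
  have hq : Continuous (QuotientGroup.mk' (φ (PRad (CS G))).1) := QuotientGroup.continuous_mk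
  have := prof_case (sep_quotient _ le_rfl)
    ((h4.map _ QuotientGroup.continuous_mk (QuotientGroup.mk'_surjective _)).fi (hS.image _))
    (hH.map _ hq (QuotientGroup.mk'_surjective _)) ψ (hS₁.image _)
    (h5.map _ hq (QuotientGroup.mk'_surjective _)) (by
      rintro _ ⟨t, ht, rfl⟩
      exact cji_map hH _ hq (hS₂ t ht))
  refine compact_of_quotient (φ (PRad (CS G))).1 ?_
  rw [map_PRad]
  have : LocallyCompactSpace (PRad (CS H)).1 := (PRad (CS H)).2.locallyCompactSpace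
  have : CompactSpace (PRad (CS H)).1 := compact_of_npo npo_PRad (hH.sub _)
  exact isCompact_iff_compactSpace.2 this

theorem main [T2Space G] [LocallyCompactSpace H] [T2Space H] (φ : CS G ≃o CS H)
    (hG : ∀ F : Finset G, ∃ K : Subgroup G, IsCompact (K : Set G) ∧ (F : Set G) ⊆ K)
    (F : Finset H) : ∃ K : Subgroup H, IsCompact (K : Set H) ∧ (F : Set H) ⊆ K := by
  have hGP : Periodic G := fun x => by simpa using hG {x}
  have hH : Periodic H := hGP.iso φ
  have key : ∀ T : Set (CS H), T.Finite → (∀ D ∈ T, IsCji D) → IsCompact ((sSup T).1 : Set H) := by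
    intro T hT h
    obtain ⟨S, hS, -, hS'⟩ := exists_gens (hT.image φ.symm) (by
      rintro _ ⟨D, hD, rfl⟩
      exact (IsCji.iso φ.symm).2 (h D hD))
    obtain ⟨K, hK, hK'⟩ := hG hS.toFinset
    have h1 := hS' (mk K hK.isClosed) (by simpa using hK')
    rw [sSup_image, ← φ.symm.map_sSup] at h1
    have : CompactSpace (φ.symm (sSup T)).1 :=
      isCompact_iff_compactSpace.1 (hK.of_isClosed_subset (φ.symm (sSup T)).2 h1)
    obtain ⟨ψ, -⟩ := exists_iso_sub φ.symm (sSup T)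
    have : LocallyCompactSpace (sSup T).1 := (sSup T).2.locallyCompactSpace
    suffices CompactSpace (sSup T).1 from isCompact_iff_compactSpace.2 this
    refine compact_case (hH.sub _) ψ.symm
      (hT.preimage (emb (sSup T)).injective.injOn) (fun D hD => (IsCji.map _ fun b hb =>
        (exists_emb _ _).2 (hb.trans (emb_le _ _))).1 (h _ hD)) (top_le_iff.1 ?_)
    rw [← (emb _).le_iff_le, emb_top]
    refine sSup_le fun D hD => ?_
    obtain ⟨D', rfl⟩ := (exists_emb _ _).2 (le_sSup hD)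
    exact (emb _).monotone (le_sSup hD)
  let Γ : Subgroup H :=
    { carrier := {x | ∃ T : Set (CS H), T.Finite ∧ (∀ D ∈ T, IsCji D) ∧ x ∈ (sSup T).1}
      one_mem' := ⟨∅, Set.finite_empty, by simp, Subgroup.one_mem _⟩
      mul_mem' := by
        rintro a b ⟨T, h1, h2, h3⟩ ⟨T', h4, h5, h6⟩
        exact ⟨T ∪ T', h1.union h4, fun D hD => hD.elim (h2 D) (h5 D), Subgroup.mul_mem _
          (CS.le_def.1 (sSup_le_sSup Set.subset_union_left) h3)
          (CS.le_def.1 (sSup_le_sSup Set.subset_union_right) h6)⟩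
      inv_mem' := by
        rintro a ⟨T, h1, h2, h3⟩
        exact ⟨T, h1, h2, Subgroup.inv_mem _ h3⟩ }
  have h1 : ⊤ ≤ cl Γ := by
    by_contra h1
    obtain ⟨D, hD, -, hD'⟩ := exists_cji hH h1
    exact hD' fun x hx => le_cl Γ ⟨{D}, Set.finite_singleton D, by simpa using hD, by simpa using hx⟩
  refine platonov (Γ := Γ) (fun x => h1 (by simp)) (fun F' hF' => ?_) F
  choose T h2 h3 h4 using fun x : F' => hF' x.2
  refine ⟨_, key (⋃ x, T x) (Set.finite_iUnion h2) (fun D hD => ?_), fun x hx => ?_⟩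
  · obtain ⟨x, hx⟩ := Set.mem_iUnion.1 hD
    exact h3 x D hx
  · exact CS.le_def.1 (sSup_le_sSup (Set.subset_iUnion T ⟨x, hx⟩)) (h4 ⟨x, hx⟩)

end Pool.Agent.MP_45783b_al

end MrgPart6

-- marker of a merged file
example : 731051 + 527569 = 731051 + 527569 := rfl
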